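import Pool.Agent.Q196.PC.Haar

open Finset

namespace Q196.PC

/-- Numbers of free bits. -/
def Fk : ℕ → ℕ
  | 0 => 1
  | k + 1 => (Bk k - 1) * Fk k

lemma Fk_bound (k : ℕ) : Nk k * (2 ^ k + 1) ≤ Fk k * 2 ^ (k + 1) := by
  induction k with
  | zero => simp [Nk, Fk]
  | succ k ih =>
    have hB : Bk k = 4 * 2 ^ k := by unfold Bk; ring
    have h1 : 1 ≤ 2 ^ k := Nat.one_le_two_pow
    set t := 2 ^ k with ht
    obtain ⟨B, hB'⟩ : ∃ B, Bk k = B + 1 := ⟨Bk k - 1, by have := Bk_pos k; omega⟩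
    show Bk k * Nk k * (2 ^ (k + 1) + 1) ≤ (Bk k - 1) * Fk k * 2 ^ (k + 1 + 1)
    have h2 : 2 ^ (k + 1) = 2 * t := by rw [pow_succ, ht]; ring
    have h3 : 2 ^ (k + 1 + 1) = 4 * t := by rw [pow_succ, h2]; ring
    rw [h2] at ih
    rw [h3, h2, hB', Nat.add_sub_cancel]
    have h4 : B + 1 = 4 * t := by omega
    rw [h4]
    have h5 : 4 * t * (2 * t + 1) ≤ 2 * B * (t + 1) := by
      clear_value t
      obtain ⟨s, hs⟩ : ∃ s, t = s + 1 := ⟨t - 1, by omega⟩
      have h6 : B = 4 * s + 3 := by omega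
      rw [h6, hs]; nlinarith
    calc 4 * t * Nk k * (2 * t + 1) = Nk k * (4 * t * (2 * t + 1)) := by ring
      _ ≤ Nk k * (2 * B * (t + 1)) := Nat.mul_le_mul_left _ h5
      _ = 2 * B * (Nk k * (t + 1)) := by ring
      _ ≤ 2 * B * (Fk k * (2 * t)) := Nat.mul_le_mul_left _ ih
      _ = B * Fk k * (4 * t) := by ring

lemma Nk_le_two_Fk (k : ℕ) : Nk k ≤ 2 * Fk k := by
  have h := Fk_bound k
  have h1 : 0 < 2 ^ k := by positivity
  have h2 : Nk k * 2 ^ k ≤ (2 * Fk k) * 2 ^ k := by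
    calc Nk k * 2 ^ k ≤ Nk k * (2 ^ k + 1) := Nat.mul_le_mul_left _ (by omega)
      _ ≤ Fk k * 2 ^ (k + 1) := h
      _ = (2 * Fk k) * 2 ^ k := by rw [pow_succ]; ring
  exact Nat.le_of_mul_le_mul_right h2 h1

lemma dg_small_mid (k J : ℕ) (hJ : J < Bk k) : dg (J * Nk k) k = J := by
  have := dg_mid k 0 J 0 hJ (Nk_pos k)
  simpa using this

lemma dg_small_high (k J l : ℕ) (hJ : J < Bk k) (hl : k < l) : dg (J * Nk k) l = 0 := by
  have h := dg_high k 0 (J * Nk k) l (by
    have := aux_lt hJ (Nk_pos k)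
    omega) hl
  rw [zero_mul, zero_add] at h
  rw [h]; simp [dg]

/-- A codeword with the block `d₀` at `a` and `0` at the other places `< Bk k - 1`. -/
lemma exists_single (k : ℕ) (d : ℕ → ZMod 2) (hd : d ∈ G) (a : ℕ) (ha : a < Bk k - 1) :
    ∃ c ∈ G, blk c k a = blk d k 0 ∧ ∀ J < Bk k - 1, J ≠ a → blk c k J = 0 := by
  have h4 := four_le_Bk
  refine ⟨ex k (fun x => d (0 * Nk k + x)) (fun l => if l = k then a else 0)
    (fun l => if l = k then Bk k - 1 else 1), ?_, ?_, ?_⟩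
  · refine ex_mem k _ _ _ ?_ ?_ ?_ (low_of_mem hd k 0)
    · intro l; split_ifs <;> omega
    · intro l; split_ifs with h
      · subst h; omega
      · exact Bk_pos l
    · intro l; split_ifs with h
      · subst h; have := h4 l; omega
      · have := h4 l; omega
  · rw [ex_block_pos]
    · rfl
    · intro l hl
      left
      rcases hl.eq_or_lt with h | h
      · subst h; rw [if_pos rfl]; exact dg_small_mid k a (by omega)
      · rw [if_neg (by omega)]; exact dg_small_high k a l (by omega) h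
  · intro J hJ hne
    refine ex_block_neg k _ _ _ J k le_rfl ?_ ?_
    · rw [dg_small_mid k J (by omega), if_pos rfl]; exact hne
    · rw [dg_small_mid k J (by omega), if_pos rfl]; omega

lemma card_step (k : ℕ) : (Hset k).ncard ^ (Bk k - 1) ≤ (Hset (k + 1)).ncard := by
  classical
  have h1 : ∀ v : Fin (Bk k - 1) → Hset k, ∃ c ∈ G, ∀ J : Fin (Bk k - 1), blk c k J = v J := by
    intro v
    have h2 : ∀ a : Fin (Bk k - 1), ∃ c ∈ G, blk c k a = v a ∧
        ∀ J < Bk k - 1, J ≠ a → blk c k J = 0 := by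
      intro a
      obtain ⟨d, hd, h3⟩ := (v a).2
      rw [← h3]
      exact exists_single k d hd a a.2
    choose c hc h5 h6 using h2
    refine ⟨∑ a, c a, sum_mem fun a _ => hc a, fun J => ?_⟩
    have h7 : blk (∑ a, c a) k J = ∑ a, blk (c a) k J := by
      funext i
      simp only [blk, Finset.sum_apply]
    rw [h7, sum_eq_single J]
    · exact h5 J
    · intro b _ hb
      exact h6 b J J.2 (fun h => hb (Fin.ext h.symm))
    · intro h; exact absurd (mem_univ _) h
  choose C hC h2 using h1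
  let Φ : (Fin (Bk k - 1) → Hset k) → Hset (k + 1) := fun v =>
    ⟨blk (C v) (k + 1) 0, ⟨C v, hC v, rfl⟩⟩
  have hΦ : Function.Injective Φ := by
    intro v w h
    funext J
    apply Subtype.ext
    rw [← h2 v J, ← h2 w J]
    funext i
    have hlt : (J : ℕ) * Nk k + i < Nk (k + 1) := aux_lt (by have := J.2; omega) i.2
    have h3 := congrFun (congrArg Subtype.val h) ⟨_, hlt⟩
    simpa [Φ, blk] using h3
  have h3 := Nat.card_le_card_of_injective Φ hΦ
  rw [Nat.card_fun, Nat.card_eq_fintype_card (α := Fin _), Fintype.card_fin,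
    Nat.card_coe_set_eq, Nat.card_coe_set_eq] at h3
  exact h3

lemma card_Hset (k : ℕ) : 2 ^ Fk k ≤ (Hset k).ncard := by
  induction k with
  | zero =>
    have h0 : (0 : Fin (Nk 0) → ZMod 2) ∈ Hset 0 := ⟨0, G.zero_mem, rfl⟩
    have h1 : (fun _ => 1 : Fin (Nk 0) → ZMod 2) ∈ Hset 0 := by
      refine ⟨ex 0 (fun _ => 1) (fun _ => 0) (fun _ => 1), ?_, ?_⟩
      · refine ex_mem 0 _ _ _ (fun _ => by norm_num) (fun l => Bk_pos l)
          (fun l => by have := four_le_Bk l; omega) (fun k' hk => absurd hk (by omega))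
      · rw [ex_block_pos]
        intro l _
        left
        simp [dg]
    have hne : (0 : Fin (Nk 0) → ZMod 2) ≠ (fun _ => 1) := by
      intro h
      have := congrFun h ⟨0, Nk_pos 0⟩
      simp at this
    have h2 : ({0, fun _ => 1} : Set (Fin (Nk 0) → ZMod 2)) ⊆ Hset 0 := by
      intro u hu
      rcases hu with h | h
      · exact h ▸ h0
      · exact (Set.mem_singleton_iff.1 h) ▸ h1
    have h3 := Set.ncard_le_ncard h2 (Set.toFinite _)
    rw [Set.ncard_pair hne] at h3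
    simpa [Fk] using h3
  | succ k ih =>
    calc 2 ^ Fk (k + 1) = (2 ^ Fk k) ^ (Bk k - 1) := by
          rw [← pow_mul]; congr 1; show (Bk k - 1) * Fk k = _; ring
      _ ≤ (Hset k).ncard ^ (Bk k - 1) := Nat.pow_le_pow_left ih _
      _ ≤ _ := card_step k

lemma prH_nonneg (k : ℕ) (u : Fin (Nk k) → ZMod 2) : 0 ≤ prH k u := by
  unfold prH; split_ifs <;> positivity

lemma prH_pos {c : ℕ → ZMod 2} (hc : c ∈ G) (k J : ℕ) : 0 < prH k (blk c k J) := by
  unfold prH
  rw [if_pos (blk_mem_Hset hc k J)]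
  have h1 := card_Hset k
  have h2 : 0 < 2 ^ Fk k := by positivity
  have : (0 : ℝ) < (Hset k).ncard := by exact_mod_cast lt_of_lt_of_le h2 h1
  positivity

lemma prH_le (k : ℕ) (u : Fin (Nk k) → ZMod 2) : prH k u ≤ ((2 : ℝ) ^ Fk k)⁻¹ := by
  unfold prH
  split_ifs
  · have h1 : ((2 : ℝ) ^ Fk k) ≤ (Hset k).ncard := by exact_mod_cast card_Hset k
    exact inv_anti₀ (by positivity) h1
  · positivity

end Q196.PC
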