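import Mathlib

open Finset

namespace Q196.PC

/-- Branching numbers. -/
def Bk (k : ℕ) : ℕ := 2 ^ (k + 2)

/-- Block lengths. -/
def Nk : ℕ → ℕ
  | 0 => 1
  | k + 1 => Bk k * Nk k

lemma Bk_pos (k : ℕ) : 0 < Bk k := by unfold Bk; positivity
lemma four_le_Bk (k : ℕ) : 4 ≤ Bk k := by
  unfold Bk
  calc 4 = 2 ^ 2 := by norm_num
    _ ≤ 2 ^ (k + 2) := Nat.pow_le_pow_right (by norm_num) (by omega)

lemma Nk_succ (k : ℕ) : Nk (k + 1) = Bk k * Nk k := rfl
lemma Nk_pos (k : ℕ) : 0 < Nk k := by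
  induction k with
  | zero => exact one_pos
  | succ k ih => rw [Nk_succ]; exact Nat.mul_pos (Bk_pos k) ih

lemma Nk_dvd_succ (k : ℕ) : Nk k ∣ Nk (k + 1) := ⟨Bk k, by rw [Nk_succ, mul_comm]⟩

lemma Nk_dvd {k l : ℕ} (h : k ≤ l) : Nk k ∣ Nk l := by
  induction h with
  | refl => exact dvd_refl _
  | step _ ih => exact ih.trans (Nk_dvd_succ _)

lemma Nk_le {k l : ℕ} (h : k ≤ l) : Nk k ≤ Nk l := Nat.le_of_dvd (Nk_pos l) (Nk_dvd h)

lemma two_pow_le_Nk (k : ℕ) : 2 ^ k ≤ Nk k := by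
  induction k with
  | zero => simp [Nk]
  | succ k ih =>
    rw [Nk_succ, pow_succ, mul_comm]
    exact Nat.mul_le_mul (le_trans (by norm_num) (four_le_Bk k)) ih

/-- Digits. -/
def dg (n l : ℕ) : ℕ := n / Nk l % Bk l

lemma dg_lt (n l : ℕ) : dg n l < Bk l := Nat.mod_lt _ (Bk_pos l)

lemma div_succ (n l : ℕ) : n / Nk l = Bk l * (n / Nk (l + 1)) + dg n l := by
  rw [Nk_succ, mul_comm (Bk l) (Nk l), ← Nat.div_div_eq_div_mul, dg]
  exact (Nat.div_add_mod _ _).symm

lemma div_eq_of_dg (k n n' : ℕ) (h : ∀ l, k ≤ l → dg n l = dg n' l) : n / Nk k = n' / Nk k := by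
  have hL : ∀ m, k ≤ m → n / Nk m = n' / Nk m → n / Nk k = n' / Nk k := by
    intro m hm
    induction hm with
    | refl => exact id
    | @step m hm ih =>
      intro h1
      apply ih
      rw [div_succ, div_succ n', h1, h m hm]
  refine hL (k + n + n') (by omega) ?_
  have h1 : ∀ a, a < 2 ^ a := fun a => Nat.lt_two_pow_self
  have h2 := two_pow_le_Nk (k + n + n')
  have h3 : 2 ^ n ≤ 2 ^ (k + n + n') := Nat.pow_le_pow_right (by norm_num) (by omega)
  have h4 : 2 ^ n' ≤ 2 ^ (k + n + n') := Nat.pow_le_pow_right (by norm_num) (by omega)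
  have h5 := h1 n
  have h6 := h1 n'
  rw [Nat.div_eq_of_lt (by omega), Nat.div_eq_of_lt (by omega)]

lemma aux_lt {k a i : ℕ} (ha : a < Bk k) (hi : i < Nk k) : a * Nk k + i < Nk (k + 1) := by
  rw [Nk_succ]
  calc a * Nk k + i < a * Nk k + Nk k := by omega
    _ = (a + 1) * Nk k := by ring
    _ ≤ Bk k * Nk k := Nat.mul_le_mul_right _ ha

lemma dg_high (k J r l : ℕ) (hr : r < Nk (k + 1)) (hl : k < l) :
    dg (J * Nk (k + 1) + r) l = dg (J * Nk (k + 1)) l := by
  obtain ⟨D, hD⟩ := Nk_dvd (show k + 1 ≤ l from hl)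
  unfold dg
  rw [hD, ← Nat.div_div_eq_div_mul, ← Nat.div_div_eq_div_mul]
  congr 2
  rw [Nat.mul_comm J, Nat.mul_add_div (Nk_pos _), Nat.div_eq_of_lt hr, Nat.mul_div_cancel_left _ (Nk_pos _)]
  rfl

lemma dg_low (k X i l : ℕ) (hl : l < k) : dg (X * Nk k + i) l = dg i l := by
  obtain ⟨D, hD⟩ := Nk_dvd (show l + 1 ≤ k from hl)
  unfold dg
  rw [hD, Nk_succ, show X * (Bk l * Nk l * D) + i = Nk l * (Bk l * (X * D)) + i by ring,
    Nat.mul_add_div (Nk_pos _), Nat.mul_add_mod]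

lemma dg_mid (k J a i : ℕ) (ha : a < Bk k) (hi : i < Nk k) :
    dg (J * Nk (k + 1) + a * Nk k + i) k = a := by
  unfold dg
  rw [Nk_succ, show J * (Bk k * Nk k) + a * Nk k + i = Nk k * (Bk k * J + a) + i by ring,
    Nat.mul_add_div (Nk_pos _), Nat.div_eq_of_lt hi, add_zero, Nat.mul_add_mod,
    Nat.mod_eq_of_lt ha]

/-- The code. -/
def G : AddSubgroup (ℕ → ZMod 2) where
  carrier := {c | ∀ k J i, i < Nk k → ∑ a ∈ range (Bk k), c (J * Nk (k + 1) + a * Nk k + i) = 0}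
  zero_mem' := by intro k J i _; simp
  add_mem' := by
    intro c c' h h' k J i hi
    simp only [Pi.add_apply, sum_add_distrib, h k J i hi, h' k J i hi, add_zero]
  neg_mem' := by
    intro c h k J i hi
    simp only [Pi.neg_apply, sum_neg_distrib, h k J i hi, neg_zero]

lemma mem_G {c : ℕ → ZMod 2} :
    c ∈ G ↔ ∀ k J i, i < Nk k → ∑ a ∈ range (Bk k), c (J * Nk (k + 1) + a * Nk k + i) = 0 :=
  Iff.rfl

open Classical in
/-- Extension of a block. -/
noncomputable def ex (k : ℕ) (u : ℕ → ZMod 2) (A b : ℕ → ℕ) (n : ℕ) : ZMod 2 :=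
  if ∀ l, k ≤ l → (dg n l = A l ∨ dg n l = b l) then u (n % Nk k) else 0

lemma ex_mem (k : ℕ) (u : ℕ → ZMod 2) (A b : ℕ → ℕ) (hAb : ∀ l, A l ≠ b l)
    (hA : ∀ l, A l < Bk l) (hb : ∀ l, b l < Bk l)
    (hu : ∀ k' < k, ∀ J i, i < Nk k' → (J + 1) * Nk (k' + 1) ≤ Nk k →
      ∑ a ∈ range (Bk k'), u (J * Nk (k' + 1) + a * Nk k' + i) = 0) :
    ex k u A b ∈ G := by
  classical
  rw [mem_G]
  intro k' J i hi
  rcases lt_or_ge k' k with hk | hk
  · -- low level
    obtain ⟨D, hD⟩ := Nk_dvd (show k' + 1 ≤ k from hk)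
    have hDpos : 0 < D := by
      rcases Nat.eq_zero_or_pos D with h | h
      · rw [h, mul_zero] at hD; exact absurd (Nk_pos k) (by omega)
      · exact h
    have hmod : ∀ a, a < Bk k' → (J * Nk (k' + 1) + a * Nk k' + i) % Nk k
        = (J % D) * Nk (k' + 1) + a * Nk k' + i := by
      intro a ha
      have h1 := aux_lt ha hi
      rw [hD, add_assoc, Nat.mod_mul, Nat.mul_comm J, Nat.mul_add_mod, Nat.mod_eq_of_lt h1,
        Nat.mul_add_div (Nk_pos _), Nat.div_eq_of_lt h1, add_zero]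
      ring
    have hcond : ∀ a, a < Bk k' → ((∀ l, k ≤ l → (dg (J * Nk (k' + 1) + a * Nk k' + i) l = A l ∨
        dg (J * Nk (k' + 1) + a * Nk k' + i) l = b l)) ↔
        (∀ l, k ≤ l → (dg (J * Nk (k' + 1)) l = A l ∨ dg (J * Nk (k' + 1)) l = b l))) := by
      intro a ha
      refine forall_congr' fun l => ?_
      refine imp_congr_right fun hl => ?_
      rw [add_assoc, dg_high k' J _ l (aux_lt ha hi) (by omega)]
    by_cases hc : ∀ l, k ≤ l → (dg (J * Nk (k' + 1)) l = A l ∨ dg (J * Nk (k' + 1)) l = b l)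
    · have : ∑ a ∈ range (Bk k'), ex k u A b (J * Nk (k' + 1) + a * Nk k' + i)
          = ∑ a ∈ range (Bk k'), u ((J % D) * Nk (k' + 1) + a * Nk k' + i) := by
        refine sum_congr rfl fun a ha => ?_
        rw [mem_range] at ha
        unfold ex
        rw [if_pos ((hcond a ha).2 hc), hmod a ha]
      rw [this]
      refine hu k' hk _ i hi ?_
      rw [hD, mul_comm]
      exact Nat.mul_le_mul_left _ (Nat.mod_lt _ hDpos)
    · refine sum_eq_zero fun a ha => ?_
      rw [mem_range] at ha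
      unfold ex
      rw [if_neg]
      rwa [hcond a ha]
  · -- high level
    have hmod : ∀ a, (J * Nk (k' + 1) + a * Nk k' + i) % Nk k = i % Nk k := by
      intro a
      obtain ⟨D, hD⟩ := Nk_dvd hk
      rw [Nk_succ, hD, show J * (Bk k' * (Nk k * D)) + a * (Nk k * D) + i
        = Nk k * (J * Bk k' * D + a * D) + i by ring, Nat.mul_add_mod]
    -- condition at the other levels
    let cnd : Prop := ∀ l, k ≤ l → l ≠ k' →
      ((if l < k' then dg i l else dg (J * Nk (k' + 1)) l) = A l ∨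
       (if l < k' then dg i l else dg (J * Nk (k' + 1)) l) = b l)
    have hcond : ∀ a, a < Bk k' → ((∀ l, k ≤ l → (dg (J * Nk (k' + 1) + a * Nk k' + i) l = A l ∨
        dg (J * Nk (k' + 1) + a * Nk k' + i) l = b l)) ↔ (cnd ∧ (a = A k' ∨ a = b k'))) := by
      intro a ha
      have hd : ∀ l, l ≠ k' → dg (J * Nk (k' + 1) + a * Nk k' + i) l
          = (if l < k' then dg i l else dg (J * Nk (k' + 1)) l) := by
        intro l hl
        split_ifs with h
        · rw [show J * Nk (k' + 1) + a * Nk k' + i = (J * Bk k' + a) * Nk k' + i by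
            rw [Nk_succ]; ring]
          exact dg_low k' _ i l h
        · rw [add_assoc]
          exact dg_high k' J _ l (aux_lt ha hi) (by omega)
      constructor
      · intro h
        refine ⟨fun l hl hne => ?_, ?_⟩
        · rw [← hd l hne]; exact h l hl
        · have := h k' hk
          rwa [dg_mid k' J a i ha hi] at this
      · rintro ⟨h1, h2⟩ l hl
        by_cases hne : l = k'
        · subst hne
          rw [dg_mid l J a i ha hi]; exact h2
        · rw [hd l hne]; exact h1 l hl hne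
    have : ∑ a ∈ range (Bk k'), ex k u A b (J * Nk (k' + 1) + a * Nk k' + i)
        = ∑ a ∈ range (Bk k'), (if a = A k' ∨ a = b k' then (if cnd then u (i % Nk k) else 0) else 0) := by
      refine sum_congr rfl fun a ha => ?_
      rw [mem_range] at ha
      unfold ex
      rw [hmod a]
      by_cases h1 : a = A k' ∨ a = b k'
      · rw [if_pos h1]
        by_cases h2 : cnd
        · rw [if_pos h2, if_pos ((hcond a ha).2 ⟨h2, h1⟩)]
        · rw [if_neg h2, if_neg (fun h => h2 ((hcond a ha).1 h).1)]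
      · rw [if_neg h1, if_neg (fun h => h1 ((hcond a ha).1 h).2)]
    rw [this, ← sum_filter]
    have hf : (range (Bk k')).filter (fun a => a = A k' ∨ a = b k') = {A k', b k'} := by
      ext a
      simp only [mem_filter, mem_range, mem_insert, mem_singleton]
      constructor
      · exact fun h => h.2
      · rintro (h | h)
        · exact ⟨h ▸ hA k', Or.inl h⟩
        · exact ⟨h ▸ hb k', Or.inr h⟩
    rw [hf, sum_pair (hAb k')]
    exact CharTwo.add_self_eq_zero _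

lemma low_of_mem {c : ℕ → ZMod 2} (hc : c ∈ G) (k J₀ : ℕ) :
    ∀ k' < k, ∀ J i, i < Nk k' → (J + 1) * Nk (k' + 1) ≤ Nk k →
      ∑ a ∈ range (Bk k'), (fun x => c (J₀ * Nk k + x)) (J * Nk (k' + 1) + a * Nk k' + i) = 0 := by
  intro k' hk J i hi _
  obtain ⟨D, hD⟩ := Nk_dvd (show k' + 1 ≤ k from hk)
  have := mem_G.1 hc k' (J₀ * D + J) i hi
  rw [← this]
  refine sum_congr rfl fun a _ => ?_
  show c _ = c _
  congr 1
  rw [hD]; ring

/-- The block of index `J` at level `k`. -/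
def blk (c : ℕ → ZMod 2) (k J : ℕ) : Fin (Nk k) → ZMod 2 := fun i => c (J * Nk k + i)

lemma dg_block (k J i l : ℕ) (hi : i < Nk k) (hl : k ≤ l) : dg (J * Nk k + i) l = dg (J * Nk k) l := by
  rcases hl.eq_or_lt with h | h
  · subst h
    unfold dg
    rw [mul_comm J, Nat.mul_add_div (Nk_pos _), Nat.div_eq_of_lt hi, add_zero,
      Nat.mul_div_cancel_left _ (Nk_pos _)]
  · obtain ⟨D, hD⟩ := Nk_dvd hl
    unfold dg
    rw [hD, ← Nat.div_div_eq_div_mul, ← Nat.div_div_eq_div_mul, mul_comm J,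
      Nat.mul_add_div (Nk_pos _), Nat.div_eq_of_lt hi, add_zero,
      Nat.mul_div_cancel_left _ (Nk_pos _)]

lemma ex_block_pos (k : ℕ) (u : ℕ → ZMod 2) (A b : ℕ → ℕ) (J : ℕ)
    (hJ : ∀ l, k ≤ l → (dg (J * Nk k) l = A l ∨ dg (J * Nk k) l = b l)) :
    blk (ex k u A b) k J = fun i : Fin (Nk k) => u i := by
  funext i
  unfold blk ex
  rw [if_pos]
  · congr 1
    rw [mul_comm, Nat.mul_add_mod, Nat.mod_eq_of_lt i.2]
  · intro l hl
    rw [dg_block k J i l i.2 hl]
    exact hJ l hl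

lemma ex_block_neg (k : ℕ) (u : ℕ → ZMod 2) (A b : ℕ → ℕ) (J l : ℕ) (hl : k ≤ l)
    (h1 : dg (J * Nk k) l ≠ A l) (h2 : dg (J * Nk k) l ≠ b l) :
    blk (ex k u A b) k J = 0 := by
  funext i
  unfold blk ex
  rw [if_neg]
  · rfl
  · intro h
    have := h l hl
    rw [dg_block k J i l i.2 hl] at this
    tauto

/-- Given a block of a codeword, there is a codeword with this block at `J` and `0` at `J'`. -/
lemma exists_ext (k : ℕ) (c : ℕ → ZMod 2) (hc : c ∈ G) (J₀ J J' : ℕ) (hJ : J ≠ J') :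
    ∃ c' ∈ G, blk c' k J = blk c k J₀ ∧ blk c' k J' = 0 := by
  -- pick a digit where `J`, `J'` differ
  have hd : ∃ l, k ≤ l ∧ dg (J * Nk k) l ≠ dg (J' * Nk k) l := by
    by_contra hcon
    push Not at hcon
    have := div_eq_of_dg k (J * Nk k) (J' * Nk k) hcon
    rw [Nat.mul_div_cancel _ (Nk_pos _), Nat.mul_div_cancel _ (Nk_pos _)] at this
    exact hJ this
  obtain ⟨l, hl, hne⟩ := hd
  have hb : ∀ m, ∃ b, b < Bk m ∧ dg (J * Nk k) m ≠ b ∧ dg (J' * Nk k) m ≠ b := by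
    intro m
    have h4 := four_le_Bk m
    by_cases h0 : dg (J * Nk k) m ≠ 0 ∧ dg (J' * Nk k) m ≠ 0
    · exact ⟨0, by omega, h0.1, h0.2⟩
    by_cases h1 : dg (J * Nk k) m ≠ 1 ∧ dg (J' * Nk k) m ≠ 1
    · exact ⟨1, by omega, h1.1, h1.2⟩
    refine ⟨2, by omega, ?_, ?_⟩ <;> omega
  choose b hb1 hb2 hb3 using hb
  refine ⟨ex k (fun x => c (J₀ * Nk k + x)) (fun m => dg (J * Nk k) m) b,
    ex_mem k _ _ _ hb2 (fun m => dg_lt _ _) hb1 (low_of_mem hc k J₀), ?_, ?_⟩
  · rw [ex_block_pos]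
    · rfl
    · exact fun m _ => Or.inl rfl
  · exact ex_block_neg k _ _ _ J' l hl (Ne.symm hne) (hb3 l)

end Q196.PC
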