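import Pool.Agent.Q196.PC.Norm

open Finset Filter Topology

namespace Q196.PC

lemma pr_nonneg (q : ℕ → ℕ) (j : ℕ) {W : ℕ} (A : (Fin W → ℕ) → Prop) : 0 ≤ pr q j A := by
  unfold pr
  exact mul_nonneg (by positivity) (inv_nonneg.2 (prod_nonneg fun _ _ => by positivity))

lemma prodq_pos (q : ℕ → ℕ) (h2 : ∀ n, 2 ≤ q n) (j W : ℕ) :
    0 < ∏ i : Fin W, (q (j + i) : ℝ) := by
  refine prod_pos fun i _ => ?_
  have := h2 (j + i)
  exact_mod_cast (by omega : 0 < q (j + i))

lemma pr_le_one (q : ℕ → ℕ) (h2 : ∀ n, 2 ≤ q n) (j : ℕ) {W : ℕ} (A : (Fin W → ℕ) → Prop) :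
    pr q j A ≤ 1 := by
  classical
  unfold pr
  rw [← div_eq_mul_inv, div_le_one (prodq_pos q h2 j W)]
  have h : ((Fintype.piFinset (fun i : Fin W => range (q (j + i)))).filter A).card
      ≤ ∏ i : Fin W, q (j + i) := by
    refine (card_filter_le _ _).trans ?_
    rw [Fintype.card_piFinset]
    simp
  exact_mod_cast h

lemma pr_mono (q : ℕ → ℕ) (j : ℕ) {W : ℕ} {A A' : (Fin W → ℕ) → Prop}
    (h : ∀ D, (∀ i : Fin W, D i < q (j + i)) → A D → A' D) : pr q j A ≤ pr q j A' := by
  classical
  unfold pr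
  refine mul_le_mul_of_nonneg_right ?_ (inv_nonneg.2 (prod_nonneg fun _ _ => by positivity))
  have : ((Fintype.piFinset (fun i : Fin W => range (q (j + i)))).filter A).card
      ≤ ((Fintype.piFinset (fun i : Fin W => range (q (j + i)))).filter A').card := by
    refine card_le_card fun D hD => ?_
    rw [mem_filter] at hD ⊢
    refine ⟨hD.1, h D (fun i => ?_) hD.2⟩
    exact mem_range.1 (Fintype.mem_piFinset.1 hD.1 i)
  exact_mod_cast this

lemma card_or_le {α : Type*} [DecidableEq α] (A A' : α → Prop) (s : Finset α)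
    (i1 : DecidablePred A) (i2 : DecidablePred A') (i3 : DecidablePred (fun D => A D ∨ A' D)) :
    (@Finset.filter _ (fun D => A D ∨ A' D) i3 s).card
      ≤ (@Finset.filter _ A i1 s).card + (@Finset.filter _ A' i2 s).card := by
  refine le_trans (card_le_card (t := (@Finset.filter _ A i1 s) ∪ (@Finset.filter _ A' i2 s))
    ?_) (card_union_le _ _)
  intro D hD
  have hD' := (@mem_filter _ _ i3 _ _).1 hD
  refine mem_union.2 ?_
  rcases hD'.2 with h | h
  · exact Or.inl (mem_filter.2 ⟨hD'.1, h⟩)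
  · exact Or.inr (mem_filter.2 ⟨hD'.1, h⟩)

lemma pr_or (q : ℕ → ℕ) (j : ℕ) {W : ℕ} (A A' : (Fin W → ℕ) → Prop) :
    pr q j (fun D => A D ∨ A' D) ≤ pr q j A + pr q j A' := by
  classical
  unfold pr
  rw [← add_mul]
  refine mul_le_mul_of_nonneg_right ?_ (inv_nonneg.2 (prod_nonneg fun _ _ => by positivity))
  have key := card_or_le A A' (Fintype.piFinset (fun i : Fin W => range (q (j + i))))
    (fun _ => Classical.propDecidable _) (fun _ => Classical.propDecidable _)
    (fun _ => Classical.propDecidable _)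
  exact_mod_cast key

lemma pr_exists (q : ℕ → ℕ) (j : ℕ) {W : ℕ} {κ : Type*} (s : Finset κ)
    (A : κ → (Fin W → ℕ) → Prop) :
    pr q j (fun D => ∃ t ∈ s, A t D) ≤ ∑ t ∈ s, pr q j (A t) := by
  classical
  induction s using Finset.induction_on with
  | empty =>
    rw [sum_empty]
    unfold pr
    simp
  | insert t s ht ih =>
    rw [sum_insert ht]
    refine (pr_mono q j (A' := fun D => A t D ∨ ∃ t ∈ s, A t D) ?_).trans
      ((pr_or q j _ _).trans (by linarith))
    rintro D - ⟨t', ht', h⟩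
    rcases mem_insert.1 ht' with h1 | h1
    · exact Or.inl (h1 ▸ h)
    · exact Or.inr ⟨t', h1, h⟩

lemma pr_small (q : ℕ → ℕ) (h2 : ∀ n, 2 ≤ q n) (j : ℕ) {W : ℕ} {ι : Type*} [Fintype ι]
    (f : ι → Fin W) (hf : Function.Injective f) (h : ι → ℕ) (r : ℝ)
    (hr : ∀ u, (h u : ℝ) ≤ r * q (j + f u)) :
    pr q j (fun D => ∀ u, D (f u) < h u) ≤ r ^ (Fintype.card ι) := by
  classical
  let s : Fin W → Finset ℕ := fun i =>
    if h' : ∃ u, f u = i then range (h h'.choose) else range (q (j + i))
  have hsub : (Fintype.piFinset (fun i : Fin W => range (q (j + i)))).filter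
      (fun D => ∀ u, D (f u) < h u) ⊆ Fintype.piFinset s := by
    intro D hD
    rw [mem_filter, Fintype.mem_piFinset] at hD
    rw [Fintype.mem_piFinset]
    intro i
    simp only [s]
    split_ifs with h'
    · rw [mem_range]
      have := hD.2 h'.choose
      rwa [h'.choose_spec] at this
    · exact hD.1 i
  have h1 : pr q j (fun D => ∀ u, D (f u) < h u)
      ≤ (∏ i, ((s i).card : ℝ)) * (∏ i : Fin W, (q (j + i) : ℝ))⁻¹ := by
    unfold pr
    refine mul_le_mul_of_nonneg_right ?_ (inv_nonneg.2 (prodq_pos q h2 j W).le)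
    rw [← Nat.cast_prod, ← Fintype.card_piFinset]
    have h3 := card_le_card hsub
    refine le_trans (le_of_eq ?_) (Nat.cast_le.2 h3)
    congr
  refine h1.trans ?_
  rw [← prod_inv_distrib, ← prod_mul_distrib,
    ← Fintype.prod_of_injective f hf (fun u => (h u : ℝ) * (q (j + f u) : ℝ)⁻¹)]
  · calc _ ≤ ∏ _u : ι, r := by
          refine prod_le_prod (fun u _ => by positivity) fun u _ => ?_
          have hq : (0 : ℝ) < q (j + f u) := by
            have := h2 (j + f u)
            exact_mod_cast (by omega : 0 < q (j + f u))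
          rw [← div_eq_mul_inv, div_le_iff₀ hq]
          exact hr u
      _ = _ := by simp
  · intro i hi
    have h' : ¬ ∃ k, f k = i := hi
    simp only [s, dif_neg h', card_range]
    have hq : (q (j + i) : ℝ) ≠ 0 := by
      have := h2 (j + i)
      exact_mod_cast (by omega : q (j + i) ≠ 0)
    exact mul_inv_cancel₀ hq
  · intro u
    have h' : ∃ k', f k' = f u := ⟨u, rfl⟩
    have h1 : h'.choose = u := hf h'.choose_spec
    simp only [s, dif_pos h', h1, card_range]

end Q196.PC
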