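import Pool.Agent.Q196.PC.Tree
import Pool.Agent.Q196.PC.Prob

open Finset Filter Topology

namespace Q196.PC

lemma level_unique {g g' : ℕ} {n : ℤ} (h1 : (Nk g : ℤ) ∣ n) (h2 : ¬ (Nk (g + 1) : ℤ) ∣ n)
    (h1' : (Nk g' : ℤ) ∣ n) (h2' : ¬ (Nk (g' + 1) : ℤ) ∣ n) : g = g' := by
  rcases lt_trichotomy g g' with h | h | h
  · exact absurd ((Int.natCast_dvd_natCast.2 (Nk_dvd (show g + 1 ≤ g' from h))).trans h1') h2
  · exact h
  · exact absurd ((Int.natCast_dvd_natCast.2 (Nk_dvd (show g' + 1 ≤ g from h))).trans h1) h2'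

lemma mk_level {g n : ℕ} (h1 : (Nk g : ℤ) ∣ n) (h2 : ¬ (Nk (g + 1) : ℤ) ∣ n) :
    mk n = if Even g then 2 ^ 24 else 2 ^ 16 := by
  classical
  have : (∃ g, Even g ∧ Nk g ∣ n ∧ ¬ Nk (g + 1) ∣ n) ↔ Even g := by
    constructor
    · rintro ⟨g', he, h1', h2'⟩
      have := level_unique h1 h2 (Int.natCast_dvd_natCast.2 h1')
        (fun h => h2' (Int.natCast_dvd_natCast.1 h))
      rw [this]; exact he
    · intro he
      exact ⟨g, he, Int.natCast_dvd_natCast.1 h1, fun h => h2 (Int.natCast_dvd_natCast.2 h)⟩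
  unfold mk
  simp only [this]

lemma mark_diff (k : ℕ) (δ : ℤ) (h : ¬ (Nk k : ℤ) ∣ δ) :
    ∃ τ < Nk (k + 1), (∀ s : ℕ, s % Nk (k + 1) = τ → mk s = 2 ^ 24) ∧
      ∀ s s' : ℕ, s % Nk (k + 1) = τ → (s' : ℤ) = s + δ → mk s' = 2 ^ 16 := by
  classical
  have hex : ∃ m, ¬ (Nk m : ℤ) ∣ δ := ⟨k, h⟩
  obtain ⟨g, hgk, hg1, hg2⟩ : ∃ g, g < k ∧ (Nk g : ℤ) ∣ δ ∧ ¬ (Nk (g + 1) : ℤ) ∣ δ := by
    have h0 : Nat.find hex ≠ 0 := by
      intro h0
      have := Nat.find_spec hex
      rw [h0] at this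
      exact this (by simp [Nk])
    have h1 : Nat.find hex ≤ k := Nat.find_min' hex h
    refine ⟨Nat.find hex - 1, by omega, ?_, ?_⟩
    · have := Nat.find_min hex (show Nat.find hex - 1 < Nat.find hex by omega)
      exact not_not.1 this
    · rw [Nat.sub_add_cancel (by omega)]
      exact Nat.find_spec hex
  have hd1 : (Nk (g + 2) : ℤ) ∣ (Nk (k + 1) : ℤ) := Int.natCast_dvd_natCast.2 (Nk_dvd (by omega))
  have hd2 : (Nk (g + 1) : ℤ) ∣ (Nk (g + 2) : ℤ) := Int.natCast_dvd_natCast.2 (Nk_dvd_succ _)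
  have hd3 : (Nk g : ℤ) ∣ (Nk (g + 1) : ℤ) := Int.natCast_dvd_natCast.2 (Nk_dvd_succ _)
  have hnd : ¬ (Nk (g + 2) : ℤ) ∣ (Nk (g + 1) : ℤ) := by
    intro hd
    have := Nat.le_of_dvd (Nk_pos _) (Int.natCast_dvd_natCast.1 hd)
    have h1 : Nk (g + 2) = Bk (g + 1) * Nk (g + 1) := rfl
    have h2 := four_le_Bk (g + 1)
    have h3 := Nk_pos (g + 1)
    nlinarith
  have hMpos : (0 : ℤ) < Nk (k + 1) := by exact_mod_cast Nk_pos _
  -- the residue
  have hres : ∀ ρ : ℤ, ∃ τ < Nk (k + 1), ∀ s : ℕ, s % Nk (k + 1) = τ →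
      (Nk (k + 1) : ℤ) ∣ (s - ρ) := by
    intro ρ
    refine ⟨(ρ % (Nk (k + 1) : ℤ)).toNat, ?_, ?_⟩
    · have h1 := Int.emod_lt_of_pos ρ hMpos
      have h2 := Int.emod_nonneg ρ hMpos.ne'
      omega
    · intro s hs
      have h2 := Int.emod_nonneg ρ hMpos.ne'
      have h3 : (s : ℤ) % (Nk (k + 1) : ℤ) = ρ % (Nk (k + 1) : ℤ) := by
        have : ((s % Nk (k + 1) : ℕ) : ℤ) = (ρ % (Nk (k + 1) : ℤ)) := by
          rw [hs, Int.toNat_of_nonneg h2]
        rw [← this]; push_cast; rfl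
      exact (show ρ ≡ (s : ℤ) [ZMOD (Nk (k + 1) : ℤ)] from h3.symm).dvd
  have hlev : ∀ y : ℤ, (Nk (k + 1) : ℤ) ∣ (y - Nk (g + 1)) →
      (Nk (g + 1) : ℤ) ∣ y ∧ ¬ (Nk (g + 2) : ℤ) ∣ y := by
    intro y hy
    constructor
    · have := (hd2.trans (hd1.trans hy))
      exact (dvd_sub_self_right).1 this
    · intro h'
      have h1 := hd1.trans hy
      exact hnd ((dvd_sub_right h').1 h1)
  rcases Nat.even_or_odd g with he | ho
  · -- `g` even
    obtain ⟨τ, hτ, hs⟩ := hres (Nk (g + 1) - δ)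
    refine ⟨τ, hτ, ?_, ?_⟩
    · intro s hsτ
      have h1 := hs s hsτ
      have h2 := hlev (s + δ) (by convert h1 using 1; ring)
      have h3 : (Nk g : ℤ) ∣ s := by
        have := hd3.trans h2.1
        exact (dvd_add_left hg1).1 this
      have h4 : ¬ (Nk (g + 1) : ℤ) ∣ s := by
        intro h5
        exact hg2 ((dvd_add_right h5).1 h2.1)
      rw [mk_level h3 h4, if_pos he]
    · intro s s' hsτ hs'
      have h1 := hs s hsτ
      have h2 := hlev (s + δ) (by convert h1 using 1; ring)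
      rw [← hs'] at h2
      rw [mk_level h2.1 h2.2, if_neg (by simpa using he.add_one)]
  · -- `g` odd
    obtain ⟨τ, hτ, hs⟩ := hres (Nk (g + 1))
    refine ⟨τ, hτ, ?_, ?_⟩
    · intro s hsτ
      have h2 := hlev s (hs s hsτ)
      rw [mk_level h2.1 h2.2, if_pos (by simpa using ho.add_one)]
    · intro s s' hsτ hs'
      have h2 := hlev s (hs s hsτ)
      have h3 : (Nk g : ℤ) ∣ s' := by
        rw [hs']; exact dvd_add (hd3.trans h2.1) hg1
      have h4 : ¬ (Nk (g + 1) : ℤ) ∣ s' := by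
        rw [hs']
        intro h5
        exact hg2 ((dvd_add_right h2.1).1 h5)
      rw [mk_level h3 h4, if_neg (by simpa using ho)]

lemma qs_of_two {c : ℕ → ZMod 2} {p : ℕ} (h : p % 3 = 2) : qs c p = mk (p / 3) := by
  unfold qs
  rw [if_neg (by omega), if_neg (by omega)]

lemma qs_le_of_ne {c : ℕ → ZMod 2} {p : ℕ} (h : p % 3 ≠ 2) : qs c p ≤ 2 ^ 8 := by
  unfold qs
  split_ifs <;> first | omega | norm_num

lemma qs_zero {c : ℕ → ZMod 2} (s : ℕ) : qs c (3 * s) = if c s = 0 then 2 else 2 ^ 8 := by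
  unfold qs
  rw [if_pos (by omega), Nat.mul_div_cancel_left _ (by norm_num)]

lemma qs_one {c : ℕ → ZMod 2} (s : ℕ) : qs c (3 * s + 1) = if c s = 0 then 2 ^ 8 else 2 := by
  unfold qs
  rw [if_neg (by omega), if_pos (by omega), show (3 * s + 1) / 3 = s by omega]

lemma exists_shift (b N τ : ℕ) (hτ : τ < N) : ∃ x < N, (b + x) % N = τ := by
  refine ⟨(τ + N - b % N) % N, Nat.mod_lt _ (by omega), ?_⟩
  have h1 := Nat.mod_lt b (show 0 < N by omega)
  rw [Nat.add_mod_mod, Nat.add_mod, ]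
  have h2 : (b % N + (τ + N - b % N) % N) % N = (b % N + (τ + N - b % N)) % N := by
    rw [Nat.add_mod_mod]
  rw [h2, show b % N + (τ + N - b % N) = τ + N by omega, Nat.add_mod_right,
    Nat.mod_eq_of_lt hτ]

/-- The main decoding estimate for one position. -/
theorem decode {c : ℕ → ZMod 2} (hc : c ∈ G) (k R ℓ j : ℕ) (W : ℕ)
    (hWdef : W = 3 * (R * Nk (k + 1)) + 3 + 6 * Nk k + ℓ + 3 * Nk (k + 1))
    (hlo : 3 ≤ (j + 3) % (3 * Nk k)) (hhi : (j + 3) % (3 * Nk k) + ℓ ≤ 3 * Nk k) :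
    pr (qf c) j (fun D : Fin W → ℕ => ¬ GoodD (qf c) ℓ (3 * Nk k) W D)
      ≤ (1 / 256) ^ R + (Nk (k + 1) * (1 / 256) ^ R + (1 / 2) ^ k) := by
  classical
  have hq2 : ∀ n, 2 ≤ qf c n := fun n => qs_two_le c _
  obtain ⟨N, hN⟩ : ∃ N, N = Nk k := ⟨_, rfl⟩
  obtain ⟨N1, hN1⟩ : ∃ N1, N1 = Nk (k + 1) := ⟨_, rfl⟩
  have hNpos : 0 < N := hN ▸ Nk_pos k
  have hN1pos : 0 < N1 := hN1 ▸ Nk_pos (k + 1)
  rw [← hN, ← hN1] at hWdef
  rw [← hN] at hlo hhi ⊢
  rw [← hN1]
  have hRN : R ≤ R * N1 := Nat.le_mul_of_pos_right R hN1pos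
  obtain ⟨P0, hP0⟩ : ∃ P0, P0 = j + 3 := ⟨_, rfl⟩
  rw [← hP0] at hlo hhi
  -- first event
  have hf1 : ∀ u : Fin R, 3 * (u : ℕ) + (2 + 2 * P0) % 3 < W := by
    intro u
    have := u.2
    omega
  let f1 : Fin R → Fin W := fun u => ⟨3 * (u : ℕ) + (2 + 2 * P0) % 3, hf1 u⟩
  have hf1i : Function.Injective f1 := by
    intro u v h
    have := congrArg Fin.val h
    simp only [f1] at this
    exact Fin.ext (by omega)
  let E1 : (Fin W → ℕ) → Prop := fun D => ∀ u, D (f1 u) < (fun _ : Fin R => 2 ^ 8) u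
  have hE1 : pr (qf c) j E1 ≤ (1 / 256) ^ R := by
    have := pr_small (qf c) hq2 j f1 hf1i (fun _ => 2 ^ 8) (1 / 256) (by
      intro u
      have h1 : (j + (f1 u : ℕ) + 3) % 3 = 2 := by simp only [f1]; omega
      have h2 : qf c (j + f1 u) = mk ((j + (f1 u : ℕ) + 3) / 3) := qs_of_two h1
      rw [h2]
      rcases mk_or ((j + (f1 u : ℕ) + 3) / 3) with h | h <;> rw [h] <;> norm_num)
    rwa [Fintype.card_fin] at this
  -- second family of events
  choose! x0 hx0 hx0' using fun τ (hτ : τ < N1) => exists_shift (P0 / 3 + 1) N1 τ hτ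
  let st : ℕ → Fin R → ℕ := fun τ u => P0 / 3 + 1 + x0 τ + u * N1
  have hst : ∀ τ < N1, ∀ u, st τ u % N1 = τ := by
    intro τ hτ u
    simp only [st]
    rw [Nat.add_mul_mod_self_right]
    exact hx0' τ hτ
  have hstW : ∀ τ < N1, ∀ u : Fin R, 3 * st τ u + 2 - P0 < W := by
    intro τ hτ u
    have h1 := hx0 τ hτ
    have h2 : (u : ℕ) * N1 ≤ R * N1 := Nat.mul_le_mul_right _ u.2.le
    simp only [st]
    omega
  have hstge : ∀ τ, ∀ u : Fin R, P0 ≤ 3 * st τ u + 2 := by
    intro τ u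
    simp only [st]
    omega
  let f2 : ℕ → Fin R → Fin W := fun τ u =>
    if h : τ < N1 then ⟨3 * st τ u + 2 - P0, hstW τ h u⟩ else f1 u
  have hf2i : ∀ τ < N1, Function.Injective (f2 τ) := by
    intro τ hτ u v h
    have := congrArg Fin.val h
    simp only [f2, dif_pos hτ] at this
    have h1 := hstge τ u
    have h2 := hstge τ v
    have h3 : st τ u = st τ v := by omega
    simp only [st] at h3
    have h4 : (u : ℕ) * N1 = v * N1 := by omega
    exact Fin.ext (Nat.eq_of_mul_eq_mul_right hN1pos h4)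
  let E2 : ℕ → (Fin W → ℕ) → Prop := fun τ D =>
    (∀ s : ℕ, s % N1 = τ → mk s = 2 ^ 24) ∧ ∀ u, D (f2 τ u) < (fun _ : Fin R => 2 ^ 16) u
  have hE2 : ∀ τ ∈ range N1, pr (qf c) j (E2 τ) ≤ (1 / 256) ^ R := by
    intro τ hτ
    rw [mem_range] at hτ
    by_cases hcond : ∀ s : ℕ, s % N1 = τ → mk s = 2 ^ 24
    · have := pr_small (qf c) hq2 j (f2 τ) (hf2i τ hτ) (fun _ => 2 ^ 16) (1 / 256) (by
        intro u
        have h0 := hstge τ u
        have h1 : j + (f2 τ u : ℕ) + 3 = 3 * st τ u + 2 := by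
          simp only [f2, dif_pos hτ]; omega
        have h2 : qf c (j + f2 τ u) = mk (st τ u) := by
          show qs c (j + (f2 τ u : ℕ) + 3) = _
          rw [h1, qs_of_two (by omega)]
          congr 1; omega
        rw [h2, hcond _ (hst τ hτ u)]
        norm_num)
      rw [Fintype.card_fin] at this
      exact (pr_mono (qf c) j (fun D _ h => h.2)).trans this
    · refine (pr_mono (qf c) j (A' := fun _ => False) (fun D _ h => hcond h.1)).trans ?_
      have : pr (qf c) j (fun _ : Fin W → ℕ => False) = 0 := by unfold pr; simp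
      rw [this]; positivity
  -- third family of events
  obtain ⟨A, hA⟩ : ∃ A, A = P0 / (3 * N) := ⟨_, rfl⟩
  obtain ⟨r0, hr0⟩ : ∃ r0, r0 = P0 % (3 * N) := ⟨_, rfl⟩
  have hPA : P0 = 3 * (N * A) + r0 := by
    have := Nat.div_add_mod P0 (3 * N)
    rw [← hA, ← hr0] at this
    rw [← this]; ring
  have hr0lt : r0 < 3 * N := hr0 ▸ Nat.mod_lt _ (by omega)
  rw [← hr0] at hlo hhi
  let s3 : ℕ → ℕ := fun x => (A + 1) * N + x
  have hs3 : ∀ x, 3 * s3 x = 3 * (N * A) + 3 * N + 3 * x := by intro x; simp only [s3]; ring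
  let o3 : ℕ → ℕ := fun x => 3 * s3 x + (if c (s3 x) = 0 then 1 else 0) - P0
  have ho3 : ∀ x, o3 x + P0 = 3 * s3 x + (if c (s3 x) = 0 then 1 else 0) := by
    intro x
    have := hs3 x
    simp only [o3]
    split_ifs <;> omega
  have ho3W : ∀ x < N, o3 x < W := by
    intro x hx
    have h1 := ho3 x
    have h2 := hs3 x
    have h3 : (if c (s3 x) = 0 then 1 else 0) ≤ 1 := by split_ifs <;> omega
    omega
  have hTN : ∀ T ∈ trees k 0, ∀ x ∈ T, x < N := by
    intro T hT x hx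
    have := Finset.mem_Ico.1 (trees_range k 0 T hT hx)
    rw [hN]; omega
  have hW0 : 0 < W := by omega
  let f3 : (T : Finset ℕ) → T → Fin W := fun T x =>
    if h : (x : ℕ) < N then ⟨o3 x, ho3W x h⟩ else ⟨0, hW0⟩
  let E3 : Finset ℕ → (Fin W → ℕ) → Prop := fun T D => ∀ x : T, D (f3 T x) < (fun _ : T => 2) x
  have hE3 : ∀ T ∈ trees k 0, pr (qf c) j (E3 T) ≤ (1 / 128) ^ (2 ^ k) := by
    intro T hT
    have hinj : Function.Injective (f3 T) := by
      intro x y h
      have := congrArg Fin.val h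
      simp only [f3, dif_pos (hTN T hT x x.2), dif_pos (hTN T hT y y.2)] at this
      have h1 := ho3 x
      have h2 := ho3 y
      have h3 := hs3 x
      have h4 := hs3 y
      have h5 : (if c (s3 x) = 0 then 1 else 0) ≤ 1 := by split_ifs <;> omega
      have h6 : (if c (s3 y) = 0 then 1 else 0) ≤ 1 := by split_ifs <;> omega
      exact Subtype.ext (by omega)
    have := pr_small (qf c) hq2 j (f3 T) hinj (fun _ => 2) (1 / 128) (by
      intro x
      have h1 := ho3 x
      have h2 : qf c (j + f3 T x) = 2 ^ 8 := by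
        show qs c (j + (f3 T x : ℕ) + 3) = _
        have h3 : j + (f3 T x : ℕ) + 3 = 3 * s3 x + (if c (s3 x) = 0 then 1 else 0) := by
          simp only [f3, dif_pos (hTN T hT x x.2)]
          omega
        rw [h3]
        split_ifs with h
        · rw [qs_one, if_pos h]
        · rw [add_zero, qs_zero, if_neg h]
      rw [h2]; norm_num)
    rw [Fintype.card_coe, trees_size k 0 T hT] at this
    exact this
  -- the event inclusion
  have hmain : ∀ D : Fin W → ℕ, (∀ i : Fin W, D i < qf c (j + i)) →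
      ¬ GoodD (qf c) ℓ (3 * N) W D →
      (E1 D ∨ ((∃ τ ∈ range N1, E2 τ D) ∨ ∃ T ∈ trees k 0, E3 T D)) := by
    intro D hD hbad
    by_contra hcon
    push Not at hcon
    obtain ⟨n1, n2, n3⟩ := hcon
    apply hbad
    -- it suffices to compare with `j`
    have key : ∀ j', (∀ i : Fin W, D i < qf c (j' + i)) → ∀ i < ℓ,
        qf c (j' + 3 * N + i) = qf c (j + 3 * N + i) := by
      intro j' hj'
      obtain ⟨P1, hP1⟩ : ∃ P1, P1 = j' + 3 := ⟨_, rfl⟩
      -- step 1
      have hmod : P0 % 3 = P1 % 3 := by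
        by_contra hne
        apply n1
        intro u
        have h1 := hj' (f1 u)
        refine lt_of_lt_of_le h1 (qs_le_of_ne ?_)
        simp only [f1]
        omega
      obtain ⟨δ, hδ⟩ : ∃ δ : ℤ, (P1 : ℤ) = P0 + 3 * δ := ⟨((P1 : ℤ) - P0) / 3, by omega⟩
      -- step 2
      have hdvd : (N : ℤ) ∣ δ := by
        by_contra hnd
        rw [hN] at hnd
        obtain ⟨τ, hτ, hm1, hm2⟩ := mark_diff k δ hnd
        rw [← hN1] at hτ hm1 hm2
        refine n2 τ (mem_range.2 hτ) ⟨hm1, fun u => ?_⟩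
        have h1 := hj' (f2 τ u)
        refine lt_of_lt_of_le h1 ?_
        have h0 := hstge τ u
        have h2 : ((f2 τ u : Fin W) : ℕ) = 3 * st τ u + 2 - P0 := by simp only [f2, dif_pos hτ]
        have h3 : (((j' + (f2 τ u : ℕ) + 3 : ℕ) : ℤ)) = 3 * ((st τ u : ℤ) + δ) + 2 := by
          rw [h2]; omega
        have h4 : ((j' + (f2 τ u : ℕ) + 3) % 3 = 2) := by omega
        have h5 : (((j' + (f2 τ u : ℕ) + 3) / 3 : ℕ) : ℤ) = (st τ u : ℤ) + δ := by omega
        show qs c (j' + (f2 τ u : ℕ) + 3) ≤ 2 ^ 16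
        rw [qs_of_two h4, hm2 (st τ u) _ (hst τ hτ u) h5]
      -- step 3
      have hmod3 : P1 % (3 * N) = r0 := by
        have h1 : ((3 * N : ℕ) : ℤ) ∣ (P1 : ℤ) - P0 := by
          obtain ⟨e, he⟩ := hdvd
          exact ⟨e, by rw [hδ, he]; push_cast; ring⟩
        have h2 : P0 ≡ P1 [MOD (3 * N)] := (Nat.modEq_iff_dvd).2 h1
        rw [hr0]; exact h2.symm
      obtain ⟨A', hA'⟩ : ∃ A', A' = P1 / (3 * N) := ⟨_, rfl⟩
      have hPA' : P1 = 3 * (N * A') + r0 := by
        have := Nat.div_add_mod P1 (3 * N)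
        rw [← hA', hmod3] at this
        rw [← this]; ring
      let s3' : ℕ → ℕ := fun x => (A' + 1) * N + x
      have hs3' : ∀ x, 3 * s3' x = 3 * (N * A') + 3 * N + 3 * x := by
        intro x; simp only [s3']; ring
      have hblk : blk c k (A + 1) = blk c k (A' + 1) := by
        by_contra hne
        have hx : ∃ x < Nk k, c (s3 x) - c (s3' x) ≠ 0 := by
          by_contra hcon
          push Not at hcon
          apply hne
          funext i
          have := hcon i i.2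
          have h1 := sub_eq_zero.1 this
          simp only [s3, s3', hN] at h1
          exact h1
        have hlow : Low k (fun x => c (s3 x) - c (s3' x)) := by
          have h1 : Low k (fun x => c ((A + 1) * Nk k + x)) := low_of_mem hc k (A + 1)
          have h2 : Low k (fun x => c ((A' + 1) * Nk k + x)) := low_of_mem hc k (A' + 1)
          have h3 := h1.sub h2
          simp only [s3, s3', hN]
          exact h3
        obtain ⟨T, hT, hT'⟩ := exists_tree k _ hlow k le_rfl 0 (by simp) (by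
          obtain ⟨x, hx, h⟩ := hx
          exact ⟨x, hx, by simpa using h⟩)
        refine n3 T hT fun x => ?_
        have hxN := hTN T hT x x.2
        have hne := hT' x x.2
        have h1 := hj' (f3 T x)
        refine lt_of_lt_of_le h1 ?_
        have h2 : ((f3 T x : Fin W) : ℕ) = o3 x := by simp only [f3, dif_pos hxN]
        have h3 := ho3 x
        have h4 := hs3 x
        have h5 := hs3' x
        show qs c (j' + (f3 T x : ℕ) + 3) ≤ 2
        have h6 : j' + (f3 T x : ℕ) + 3 = 3 * s3' x + (if c (s3 x) = 0 then 1 else 0) := by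
          rw [h2]; omega
        rw [h6]
        have hz : ∀ z : ZMod 2, z = 0 ∨ z = 1 := by decide
        split_ifs with h
        · rw [qs_one, if_neg]
          intro h'
          rw [h, h'] at hne
          exact hne (by decide)
        · rw [add_zero, qs_zero, if_pos]
          rcases hz (c (s3 x)) with h7 | h7
          · exact absurd h7 h
          · rcases hz (c (s3' x)) with h8 | h8
            · exact h8
            · rw [h7, h8] at hne
              exact absurd (by decide) hne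
      -- step 4
      intro i hi
      show qs c (j' + 3 * N + i + 3) = qs c (j + 3 * N + i + 3)
      have e1 : j' + 3 * N + i + 3 = 3 * N * (A' + 1) + (r0 + i) := by
        have : 3 * N * (A' + 1) = 3 * (N * A') + 3 * N := by ring
        omega
      have e2 : j + 3 * N + i + 3 = 3 * N * (A + 1) + (r0 + i) := by
        have : 3 * N * (A + 1) = 3 * (N * A) + 3 * N := by ring
        omega
      rw [e1, e2, hN]
      rw [hN] at hhi
      exact qs_block c k (A' + 1) (A + 1) (r0 + i) (by omega) (by omega) hblk.symm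
    intro j1 j2 h1 h2 i hi
    rw [key j1 h1 i hi, key j2 h2 i hi]
  refine (pr_mono (qf c) j hmain).trans ((pr_or _ _ _ _).trans (add_le_add hE1
    ((pr_or _ _ _ _).trans (add_le_add ?_ ?_))))
  · refine (pr_exists _ _ _ _).trans ((sum_le_sum hE2).trans ?_)
    rw [sum_const, card_range, nsmul_eq_mul]
  · refine (pr_exists _ _ _ _).trans ((sum_le_sum hE3).trans ?_)
    rw [sum_const, nsmul_eq_mul]
    refine le_trans ?_ (nt_small k)
    have := trees_card k 0
    gcongr

end Q196.PC
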