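import Mathlib

/-! Cantor series: definitions. A basic sequence is `q : ℕ → ℕ`, used at the indices
`1, 2, 3, …` (the value at `0` is not used). -/

open Filter Topology MeasureTheory Set
open scoped ENNReal

namespace Q196.PC

/-- `x 1, x 2, …` are the digits of the Cantor series expansion of `t` with respect to the basic
sequence `q 1, q 2, …`: `0 ≤ x n ≤ q n - 1`, `x n ≠ q n - 1` infinitely often and
`t = ∑ x n / (q 1 ⋯ q n)`. -/
def IsExpansion (q x : ℕ → ℕ) (t : ℝ) : Prop :=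
  (∀ n, 1 ≤ n → x n < q n) ∧ (∃ᶠ n in atTop, x n ≠ q n - 1) ∧
    HasSum (fun n : ℕ => (x (n + 1) : ℝ) / ∏ i ∈ Finset.Icc 1 (n + 1), (q i : ℝ)) t

open Classical in
/-- `Q_n(D)`, the sum over `1 ≤ j ≤ n` of `I_j(D) / (q_j ⋯ q_{j+ℓ-1})`. -/
noncomputable def QCount (q : ℕ → ℕ) {ℓ : ℕ} (D : Fin ℓ → ℕ) (n : ℕ) : ℝ :=
  ∑ j ∈ Finset.Icc 1 n,
    if ∀ i : Fin ℓ, D i < q (j + i) then (∏ i : Fin ℓ, (q (j + i) : ℝ))⁻¹ else 0

open Classical in
/-- `N_n(D, x)`, the number of `1 ≤ j ≤ n` such that the block `D` occurs in `x` at `j`. -/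
noncomputable def NCount (x : ℕ → ℕ) {ℓ : ℕ} (D : Fin ℓ → ℕ) (n : ℕ) : ℝ :=
  ((Finset.Icc 1 n).filter (fun j => ∀ i : Fin ℓ, x (j + i) = D i)).card

open Classical in
/-- `Q_n(D, B)`: the sum over those `1 ≤ j ≤ n` at which the block `B` occurs in `q` of
`I_j(D) / (b_1 ⋯ b_ℓ)`. -/
noncomputable def QCount₂ (q : ℕ → ℕ) {ℓ : ℕ} (D B : Fin ℓ → ℕ) (n : ℕ) : ℝ :=
  ∑ j ∈ (Finset.Icc 1 n).filter (fun j => ∀ i : Fin ℓ, q (j + i) = B i),
    if ∀ i : Fin ℓ, D i < q (j + i) then (∏ i : Fin ℓ, (B i : ℝ))⁻¹ else 0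

open Classical in
/-- `N_n(D, B, x)`: the number of `1 ≤ j ≤ n` at which `B` occurs in `q` and `D` occurs in `x`. -/
noncomputable def NCount₂ (q x : ℕ → ℕ) {ℓ : ℕ} (D B : Fin ℓ → ℕ) (n : ℕ) : ℝ :=
  ((Finset.Icc 1 n).filter
    (fun j => (∀ i : Fin ℓ, q (j + i) = B i) ∧ ∀ i : Fin ℓ, x (j + i) = D i)).card

/-- The set `N(Q)` of `Q`-normal numbers. -/
def normalSet (q : ℕ → ℕ) : Set ℝ :=
  {t | t ∈ Ico (0 : ℝ) 1 ∧ ∃ x, IsExpansion q x t ∧ ∀ (ℓ : ℕ) (D : Fin ℓ → ℕ),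
    Tendsto (QCount q D) atTop atTop →
      Tendsto (fun n => NCount x D n / QCount q D n) atTop (𝓝 1)}

/-- The set `UN(Q)` of uniformly `Q`-normal numbers. -/
def uniformNormalSet (q : ℕ → ℕ) : Set ℝ :=
  {t | t ∈ Ico (0 : ℝ) 1 ∧ ∃ x, IsExpansion q x t ∧ ∀ (ℓ : ℕ) (D B : Fin ℓ → ℕ),
    Tendsto (QCount₂ q D B) atTop atTop →
      Tendsto (fun n => NCount₂ q x D B n / QCount₂ q D B n) atTop (𝓝 1)}

open Classical in
/-- The set `DN(Q)` of `Q`-distribution normal numbers: `(q_1 ⋯ q_n t mod 1)_{n ≥ 1}` is uniformly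
distributed in `[0,1)`. -/
noncomputable def distNormalSet (q : ℕ → ℕ) : Set ℝ :=
  {t | t ∈ Ico (0 : ℝ) 1 ∧ ∀ a b : ℝ, 0 ≤ a → a < b → b ≤ 1 →
    Tendsto (fun n : ℕ => (((Finset.Icc 1 n).filter (fun k =>
      Int.fract ((∏ i ∈ Finset.Icc 1 k, (q i : ℝ)) * t) ∈ Ico a b)).card : ℝ) / n)
      atTop (𝓝 (b - a))}

/-- The Kolmogorov-Sinai entropy of a measure preserving map (natural logarithms): the supremum
over all finite measurable partitions `P` of the limit of `H(P ∨ T⁻¹P ∨ ⋯ ∨ T^{-(n-1)}P) / n`. -/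
noncomputable def ksEntropy {X : Type} [MeasurableSpace X] (μ : Measure X) (T : X → X) : ℝ≥0∞ :=
  ⨆ (k : ℕ) (P : X → Fin k) (_ : Measurable P),
    limsup (fun n : ℕ => ENNReal.ofReal
      ((∑ w : Fin n → Fin k,
        Real.negMulLog (μ.real {y | ∀ i : Fin n, P (T^[i] y) = w i})) / n)) atTop

/-- `q` is generated by the system `(X, μ, T)`, the function `f` and the point `x`. -/
structure Generates (q : ℕ → ℕ) (X : Type) [TopologicalSpace X] [MeasurableSpace X]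
    (μ : Measure X) (T : X → X) (f : X → ℕ) (x : X) : Prop where
  polish : PolishSpace X
  borel : BorelSpace X
  prob : IsProbabilityMeasure μ
  pos : ∀ U : Set X, IsOpen U → U.Nonempty → 0 < μ U
  contT : Continuous T
  pres : MeasurePreserving T μ μ
  contf : Continuous f
  two_le : ∀ y, 2 ≤ f y
  top : ‹TopologicalSpace X› = TopologicalSpace.generateFrom
    {U | ∃ (n : ℕ) (V : Set ℕ), U = (fun y => f (T^[n] y)) ⁻¹' V}
  generic : ∀ F : X → ℝ, Continuous F → Integrable F μ →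
    Tendsto (fun N : ℕ => (∑ n ∈ Finset.Icc 1 N, F (T^[n] x)) / N) atTop (𝓝 (∫ y, F y ∂μ))
  eq : ∀ n, 1 ≤ n → q n = f (T^[n] x)

/-- `q` is a dynamically generated basic sequence whose generating system has positive entropy. -/
def NonDeterministic (q : ℕ → ℕ) : Prop :=
  ∃ (X : Type) (_ : TopologicalSpace X) (_ : MeasurableSpace X) (μ : Measure X) (T : X → X)
    (f : X → ℕ) (x : X), Generates q X μ T f x ∧ 0 < ksEntropy μ T

end Q196.PC
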