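import Pool.Agent.Q196.PC.Star

open Finset Filter Topology

namespace Q196.PC

/-- Integer parts. -/
def mm (q x : ℕ → ℕ) : ℕ → ℕ
  | 0 => 0
  | k + 1 => q (k + 1) * mm q x k + x (k + 1)

/-- Products. -/
noncomputable def PP (q : ℕ → ℕ) (k : ℕ) : ℝ := ∏ i ∈ Icc 1 k, (q i : ℝ)

lemma PP_succ (q : ℕ → ℕ) (k : ℕ) : PP q (k + 1) = PP q k * q (k + 1) := by
  unfold PP; rw [prod_Icc_succ_top (by omega)]

lemma PP_pos (q : ℕ → ℕ) (h2 : ∀ n, 2 ≤ q n) (k : ℕ) : 0 < PP q k := by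
  unfold PP
  refine prod_pos fun i _ => ?_
  have := h2 i
  exact_mod_cast (by omega : 0 < q i)

lemma partial_eq (q x : ℕ → ℕ) (h2 : ∀ n, 2 ≤ q n) (k : ℕ) :
    ∑ i ∈ range k, (x (i + 1) : ℝ) / PP q (i + 1) = mm q x k / PP q k := by
  induction k with
  | zero => simp [mm]
  | succ k ih =>
    have h1 := (PP_pos q h2 k).ne'
    have h3 : (q (k + 1) : ℝ) ≠ 0 := by
      have := h2 (k + 1)
      exact_mod_cast (by omega : q (k + 1) ≠ 0)
    rw [sum_range_succ, ih, PP_succ]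
    simp only [mm]
    push_cast
    field_simp

/-- fractional parts -/
noncomputable def TT (q x : ℕ → ℕ) (t : ℝ) (k : ℕ) : ℝ := PP q k * t - mm q x k

lemma TT_succ (q x : ℕ → ℕ) (t : ℝ) (k : ℕ) :
    TT q x t (k + 1) = q (k + 1) * TT q x t k - x (k + 1) := by
  unfold TT
  rw [PP_succ]
  simp only [mm]
  push_cast
  ring

lemma TT_nonneg (q x : ℕ → ℕ) (h2 : ∀ n, 2 ≤ q n) (t : ℝ) (h : IsExpansion q x t) (k : ℕ) :
    0 ≤ TT q x t k := by
  have h1 := sum_le_hasSum (range k) (fun i _ => by positivity) h.2.2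
  have h3 := partial_eq q x h2 k
  unfold PP at h3
  rw [h3] at h1
  have h4 : 0 < ∏ i ∈ Icc 1 k, (q i : ℝ) := PP_pos q h2 k
  rw [div_le_iff₀ h4] at h1
  show 0 ≤ (∏ i ∈ Icc 1 k, (q i : ℝ)) * t - mm q x k
  linarith

lemma TT_le_one (q x : ℕ → ℕ) (h2 : ∀ n, 2 ≤ q n) (t : ℝ) (h : IsExpansion q x t) (k : ℕ) :
    TT q x t k ≤ 1 := by
  have hanti : ∀ K, k ≤ K → ((mm q x K : ℝ) + 1) / PP q K ≤ ((mm q x k : ℝ) + 1) / PP q k := by
    intro K hK
    induction hK with
    | refl => exact le_rfl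
    | @step K _ ih =>
      refine le_trans ?_ ih
      have h1 := PP_pos q h2 K
      have h3 : (0 : ℝ) < q (K + 1) := by
        have := h2 (K + 1)
        exact_mod_cast (by omega : 0 < q (K + 1))
      rw [PP_succ, div_le_div_iff₀ (by positivity) h1]
      simp only [mm]
      push_cast
      have h4 : (x (K + 1) : ℝ) + 1 ≤ q (K + 1) := by
        have := h.1 (K + 1) (by omega)
        exact_mod_cast this
      nlinarith
  have hlim := h.2.2.tendsto_sum_nat
  have hle : t ≤ ((mm q x k : ℝ) + 1) / PP q k := by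
    refine le_of_tendsto hlim ?_
    filter_upwards [eventually_ge_atTop k] with K hK
    have h3 := partial_eq q x h2 K
    unfold PP at h3
    rw [h3]
    refine le_trans ?_ (hanti K hK)
    have := PP_pos q h2 K
    unfold PP at this ⊢
    gcongr
    linarith
  rw [le_div_iff₀ (PP_pos q h2 k)] at hle
  unfold TT
  linarith

lemma TT_lt_one (q x : ℕ → ℕ) (h2 : ∀ n, 2 ≤ q n) (t : ℝ) (h : IsExpansion q x t) (k : ℕ) :
    TT q x t k < 1 := by
  by_contra hcon
  have h1 : TT q x t k = 1 := le_antisymm (TT_le_one q x h2 t h k) (not_lt.1 hcon)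
  have h3 : ∀ j, TT q x t (k + j) = 1 := by
    intro j
    induction j with
    | zero => exact h1
    | succ j ih =>
      have h4 := TT_succ q x t (k + j)
      rw [ih, mul_one] at h4
      have h5 := TT_le_one q x h2 t h (k + j + 1)
      have h6 : (x (k + j + 1) : ℝ) + 1 ≤ q (k + j + 1) := by
        exact_mod_cast h.1 (k + j + 1) (by omega)
      show TT q x t (k + j + 1) = 1
      linarith
  obtain ⟨n, hn, hne⟩ := (frequently_atTop.1 h.2.1) (k + 1)
  obtain ⟨j, rfl⟩ : ∃ j, n = k + j + 1 := ⟨n - k - 1, by omega⟩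
  have h4 := TT_succ q x t (k + j)
  have h5 := h3 (j + 1)
  rw [show k + (j + 1) = k + j + 1 by omega] at h5
  rw [h5, h3 j, mul_one] at h4
  have h6 : q (k + j + 1) = x (k + j + 1) + 1 := by
    have : (q (k + j + 1) : ℝ) = x (k + j + 1) + 1 := by linarith
    exact_mod_cast this
  omega

lemma fract_eq (q x : ℕ → ℕ) (h2 : ∀ n, 2 ≤ q n) (t : ℝ) (h : IsExpansion q x t) (k : ℕ) :
    Int.fract ((∏ i ∈ Icc 1 k, (q i : ℝ)) * t) = TT q x t k := by
  rw [Int.fract_eq_iff]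
  refine ⟨TT_nonneg q x h2 t h k, TT_lt_one q x h2 t h k, (mm q x k : ℤ), ?_⟩
  unfold TT PP
  push_cast
  ring

/-- value of a digit block -/
def vF (b d : ℕ → ℕ) : ℕ → ℕ
  | 0 => 0
  | l + 1 => b l * vF b d l + d l

lemma TT_block (q x : ℕ → ℕ) (t : ℝ) (k l : ℕ) :
    TT q x t k * ∏ i ∈ range l, (q (k + 1 + i) : ℝ)
      = vF (fun i => q (k + 1 + i)) (fun i => x (k + 1 + i)) l + TT q x t (k + l) := by
  induction l with
  | zero => simp [vF]
  | succ l ih =>
    rw [prod_range_succ, ← mul_assoc, ih]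
    simp only [vF]
    rw [show k + (l + 1) = k + l + 1 by omega, TT_succ, show k + 1 + l = k + l + 1 by omega]
    push_cast
    ring

lemma vF_congr {b b' d d' : ℕ → ℕ} (l : ℕ) (hb : ∀ i < l, b i = b' i) (hd : ∀ i < l, d i = d' i) :
    vF b d l = vF b' d' l := by
  induction l with
  | zero => rfl
  | succ l ih =>
    simp only [vF]
    rw [ih (fun i hi => hb i (by omega)) (fun i hi => hd i (by omega)), hb l (by omega),
      hd l (by omega)]

lemma vF_inj {b d d' : ℕ → ℕ} (l : ℕ) (hd : ∀ i < l, d i < b i) (hd' : ∀ i < l, d' i < b i)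
    (h : vF b d l = vF b d' l) : ∀ i < l, d i = d' i := by
  induction l with
  | zero => intro i hi; omega
  | succ l ih =>
    simp only [vF] at h
    have h1 := hd l (by omega)
    have h2 := hd' l (by omega)
    have h3 : d l = d' l := by
      have := congrArg (· % b l) h
      simpa [Nat.mul_add_mod, Nat.mod_eq_of_lt h1, Nat.mod_eq_of_lt h2] using this
    have h4 : vF b d l = vF b d' l := by
      rw [h3] at h
      have h5 : b l * vF b d l = b l * vF b d' l := by omega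
      exact Nat.eq_of_mul_eq_mul_left (by omega) h5
    intro i hi
    rcases Nat.lt_succ_iff_lt_or_eq.1 hi with h6 | h6
    · exact ih (fun i hi => hd i (by omega)) (fun i hi => hd' i (by omega)) h4 i h6
    · rw [h6]; exact h3

/-- extension by zero -/
def eF {ℓ : ℕ} (D : Fin ℓ → ℕ) (i : ℕ) : ℕ := if h : i < ℓ then D ⟨i, h⟩ else 0

lemma eF_apply {ℓ : ℕ} (D : Fin ℓ → ℕ) (i : Fin ℓ) : eF D i = D i := by
  unfold eF; rw [dif_pos i.2]

lemma card_between (S : Finset ℕ) (α β : ℝ) (hαβ : α ≤ β) (h : ∀ m ∈ S, α < m ∧ (m : ℝ) < β) :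
    (S.card : ℝ) ≤ β - α + 1 := by
  have h1 : S.card ≤ (Finset.Icc (⌊α⌋ + 1) (⌈β⌉ - 1)).card := by
    refine card_le_card_of_injOn (fun m : ℕ => (m : ℤ)) ?_ (fun a _ b _ h => by simpa using h)
    intro m hm
    obtain ⟨h1, h2⟩ := h m hm
    simp only [coe_Icc, Set.mem_Icc]
    constructor
    · rw [Int.add_one_le_iff, Int.floor_lt]; exact_mod_cast h1
    · rw [Int.le_sub_one_iff, Int.lt_ceil]; exact_mod_cast h2
  rw [Int.card_Icc] at h1
  have h2 : (S.card : ℤ) ≤ max (⌈β⌉ - 1 + 1 - (⌊α⌋ + 1)) 0 := by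
    have : ((⌈β⌉ - 1 + 1 - (⌊α⌋ + 1)).toNat : ℤ) = max (⌈β⌉ - 1 + 1 - (⌊α⌋ + 1)) 0 :=
      Int.toNat_eq_max _
    rw [← this]; exact_mod_cast h1
  have h3 : (S.card : ℝ) ≤ max ((⌈β⌉ : ℝ) - 1 + 1 - (⌊α⌋ + 1)) 0 := by exact_mod_cast h2
  refine h3.trans (max_le ?_ (by linarith))
  have h4 := Int.ceil_lt_add_one β
  have h5 := Int.lt_floor_add_one α
  linarith

open Classical in
lemma card_vals {ℓ : ℕ} (B : Fin ℓ → ℕ) (hB : ∀ i, 2 ≤ B i) (α β : ℝ) (hαβ : α ≤ β) :
    (((Fintype.piFinset (fun i : Fin ℓ => range (B i))).filter (fun D =>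
      α * (∏ i, (B i : ℝ)) - 1 < vF (eF B) (eF D) ℓ ∧
        (vF (eF B) (eF D) ℓ : ℝ) < β * ∏ i, (B i : ℝ))).card : ℝ) * (∏ i, (B i : ℝ))⁻¹
      ≤ β - α + 2 * (2 ^ ℓ)⁻¹ := by
  have hP : (2 : ℝ) ^ ℓ ≤ ∏ i, (B i : ℝ) := by
    calc (2 : ℝ) ^ ℓ = ∏ _i : Fin ℓ, (2 : ℝ) := by simp
      _ ≤ _ := prod_le_prod (fun _ _ => by norm_num) fun i _ => by exact_mod_cast hB i
  have hP0 : 0 < ∏ i, (B i : ℝ) := lt_of_lt_of_le (by positivity) hP
  set Pr := ∏ i, (B i : ℝ) with hPr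
  have h1 : (((Fintype.piFinset (fun i : Fin ℓ => range (B i))).filter (fun D =>
      α * Pr - 1 < vF (eF B) (eF D) ℓ ∧
        (vF (eF B) (eF D) ℓ : ℝ) < β * Pr)).card : ℝ) ≤ (β * Pr) - (α * Pr - 1) + 1 := by
    have hinj : Set.InjOn (fun D : Fin ℓ → ℕ => vF (eF B) (eF D) ℓ)
        ((Fintype.piFinset (fun i : Fin ℓ => range (B i))).filter (fun D =>
      α * Pr - 1 < vF (eF B) (eF D) ℓ ∧
        (vF (eF B) (eF D) ℓ : ℝ) < β * Pr) : Finset (Fin ℓ → ℕ)) := by
      intro D hD D' hD' h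
      have hD1 := (mem_filter.1 (mem_coe.1 hD)).1
      have hD1' := (mem_filter.1 (mem_coe.1 hD')).1
      rw [Fintype.mem_piFinset] at hD1 hD1'
      funext i
      rw [← eF_apply D, ← eF_apply D']
      refine vF_inj ℓ ?_ ?_ h i i.2
      · intro j hj
        have := hD1 ⟨j, hj⟩
        rw [mem_range] at this
        simpa [eF, hj] using this
      · intro j hj
        have := hD1' ⟨j, hj⟩
        rw [mem_range] at this
        simpa [eF, hj] using this
    rw [← card_image_of_injOn hinj]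
    refine card_between _ _ _ (by nlinarith) ?_
    intro m hm
    rw [mem_image] at hm
    obtain ⟨D, hD, rfl⟩ := hm
    exact (mem_filter.1 hD).2
  calc _ ≤ ((β * Pr) - (α * Pr - 1) + 1) * Pr⁻¹ := by gcongr
    _ = β - α + 2 * Pr⁻¹ := by field_simp; ring
    _ ≤ _ := by gcongr

open Classical in
/-- Upper bound for the number of visits to `[α, β)`. -/
lemma visits (q : ℕ → ℕ) (M : ℕ) (h2 : ∀ n, 2 ≤ q n) (hM : ∀ n, q n < M)
    (x : ℕ → ℕ) (t : ℝ) (hx : IsExpansion q x t)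
    (hstar : ∀ (ℓ : ℕ) (D B : Fin ℓ → ℕ) (ε : ℝ), 0 < ε →
      ∀ᶠ n : ℕ in atTop, |NCount₂ q x D B n - QCount₂ q D B n| ≤ ε * n)
    (α β : ℝ) (hαβ : α ≤ β) (ε : ℝ) (hε : 0 < ε) :
    ∀ᶠ n : ℕ in atTop, (((Icc 1 n).filter (fun k => α ≤ TT q x t k ∧ TT q x t k < β)).card : ℝ)
      ≤ (β - α + ε) * n := by
  obtain ⟨ℓ, hℓ⟩ : ∃ ℓ : ℕ, 2 * ((2 : ℝ) ^ ℓ)⁻¹ < ε / 4 := by
    have := (tendsto_pow_atTop_nhds_zero_of_lt_one (show (0 : ℝ) ≤ 1 / 2 by norm_num)
      (by norm_num)).const_mul 2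
    rw [mul_zero] at this
    obtain ⟨ℓ, hℓ⟩ := (this.eventually (gt_mem_nhds (show (0 : ℝ) < ε / 4 by linarith))).exists
    refine ⟨ℓ, ?_⟩
    rwa [one_div, inv_pow] at hℓ
  set 𝓑 : Finset (Fin ℓ → ℕ) := Fintype.piFinset (fun _ : Fin ℓ => range M) with h𝓑
  let S : Finset ((Fin ℓ → ℕ) × (Fin ℓ → ℕ)) := (𝓑 ×ˢ 𝓑).filter (fun z =>
    (∀ i, z.1 i < z.2 i) ∧ α * (∏ i, (z.2 i : ℝ)) - 1 < vF (eF z.2) (eF z.1) ℓ ∧
        (vF (eF z.2) (eF z.1) ℓ : ℝ) < β * ∏ i, (z.2 i : ℝ))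
  set δ : ℝ := ε / (4 * (S.card + 1)) with hδ
  have hδ0 : 0 < δ := by positivity
  have hall : ∀ᶠ n : ℕ in atTop, ∀ z ∈ S, |NCount₂ q x z.1 z.2 n - QCount₂ q z.1 z.2 n| ≤ δ * n := by
    rw [Filter.eventually_all_finset]
    intro z _
    exact hstar ℓ z.1 z.2 δ hδ0
  have hall' := (tendsto_add_atTop_nat 1).eventually hall
  have hone : ∀ᶠ n : ℕ in atTop, (β - α + ε / 2) * (1 : ℝ) ≤ ε / 2 * n := by
    have := (tendsto_natCast_atTop_atTop (R := ℝ)).const_mul_atTop (show 0 < ε / 2 by linarith)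
    exact this.eventually_ge_atTop _
  filter_upwards [hall', hone] with n hn hn1
  -- first bound
  have b1 : (((Icc 1 n).filter (fun k => α ≤ TT q x t k ∧ TT q x t k < β)).card : ℝ)
      ≤ ∑ z ∈ S, NCount₂ q x z.1 z.2 (n + 1) := by
    have e1 : (((Icc 1 n).filter (fun k => α ≤ TT q x t k ∧ TT q x t k < β)).card : ℝ)
        ≤ ∑ j ∈ Icc 1 (n + 1), ∑ z ∈ S, (if (∀ i : Fin ℓ, q (j + i) = z.2 i) ∧
          ∀ i : Fin ℓ, x (j + i) = z.1 i then (1 : ℝ) else 0) := by
      rw [card_filter]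
      push_cast
      have e2 : ∑ k ∈ Icc 1 n, (if α ≤ TT q x t k ∧ TT q x t k < β then (1 : ℝ) else 0)
          ≤ ∑ k ∈ Icc 1 n, (fun j => ∑ z ∈ S, (if (∀ i : Fin ℓ, q (j + i) = z.2 i) ∧
          ∀ i : Fin ℓ, x (j + i) = z.1 i then (1 : ℝ) else 0)) (k + 1) := by
        refine sum_le_sum fun k hk => ?_
        split_ifs with hT
        · let z₀ : (Fin ℓ → ℕ) × (Fin ℓ → ℕ) := (fun i => x (k + 1 + i), fun i => q (k + 1 + i))
          have hz₀ : z₀ ∈ S := by
            simp only [S, z₀, mem_filter, mem_product, h𝓑, Fintype.mem_piFinset, mem_range]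
            have e3 := TT_block q x t k ℓ
            have e4 : vF (eF fun i : Fin ℓ => q (k + 1 + i)) (eF fun i : Fin ℓ => x (k + 1 + i)) ℓ
                = vF (fun i => q (k + 1 + i)) (fun i => x (k + 1 + i)) ℓ := by
              refine vF_congr ℓ (fun i hi => ?_) (fun i hi => ?_) <;> simp [eF, hi]
            have e5 : ∏ i : Fin ℓ, (q (k + 1 + i) : ℝ) = ∏ i ∈ range ℓ, (q (k + 1 + i) : ℝ) :=
              (Finset.prod_range (fun i => (q (k + 1 + i) : ℝ))).symm
            have e6 := TT_nonneg q x h2 t hx (k + ℓ)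
            have e7 := TT_lt_one q x h2 t hx (k + ℓ)
            have e8 : 0 < ∏ i ∈ range ℓ, (q (k + 1 + i) : ℝ) := by
              refine prod_pos fun i _ => ?_
              have := h2 (k + 1 + i)
              exact_mod_cast (by omega : 0 < q (k + 1 + i))
            rw [e4, e5]
            refine ⟨⟨fun i => (hx.1 _ (by omega)).trans (hM _), fun i => hM _⟩,
              fun i => hx.1 _ (by omega), ?_, ?_⟩
            · have := mul_le_mul_of_nonneg_right hT.1 e8.le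
              linarith
            · have := mul_lt_mul_of_pos_right hT.2 e8
              linarith
          refine le_trans (le_of_eq ?_) (single_le_sum (fun z _ => by split_ifs <;> norm_num) hz₀)
          rw [if_pos]
          exact ⟨fun i => rfl, fun i => rfl⟩
        · exact sum_nonneg fun z _ => by split_ifs <;> norm_num
      refine e2.trans ?_
      -- shift the summation
      have e3 : ∀ g : ℕ → ℝ, (∀ j, 0 ≤ g j) → ∑ k ∈ Icc 1 n, g (k + 1) ≤ ∑ j ∈ Icc 1 (n + 1), g j := by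
        intro g hg
        have e4 := shift_one g n
        rw [sum_Icc_succ_top (by omega)]
        have := hg 1
        linarith
      refine e3 (fun j => ∑ z ∈ S, (if (∀ i : Fin ℓ, q (j + i) = z.2 i) ∧
          ∀ i : Fin ℓ, x (j + i) = z.1 i then (1 : ℝ) else 0)) fun j => ?_
      exact sum_nonneg fun z _ => by split_ifs <;> norm_num
    refine e1.trans (le_of_eq ?_)
    rw [sum_comm]
    refine sum_congr rfl fun z _ => ?_
    unfold NCount₂
    rw [card_filter]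
    push_cast
    rfl
  have b2 : ∑ z ∈ S, QCount₂ q z.1 z.2 (n + 1) ≤ (β - α + ε / 4) * (n + 1) := by
    have e1 : ∑ z ∈ S, QCount₂ q z.1 z.2 (n + 1) = ∑ j ∈ Icc 1 (n + 1), ∑ z ∈ S,
        (if ∀ i : Fin ℓ, q (j + i) = z.2 i then
          (if ∀ i : Fin ℓ, z.1 i < q (j + i) then (∏ i : Fin ℓ, (z.2 i : ℝ))⁻¹ else 0) else 0) := by
      rw [sum_comm]
      refine sum_congr rfl fun z _ => ?_
      unfold QCount₂
      rw [sum_filter]
    rw [e1]
    have e2 : ∀ j ∈ Icc 1 (n + 1), ∑ z ∈ S,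
        (if ∀ i : Fin ℓ, q (j + i) = z.2 i then
          (if ∀ i : Fin ℓ, z.1 i < q (j + i) then (∏ i : Fin ℓ, (z.2 i : ℝ))⁻¹ else 0) else 0)
        ≤ β - α + ε / 4 := by
      intro j _
      let B₀ : Fin ℓ → ℕ := fun i => q (j + i)
      have e3 := card_vals B₀ (fun i => h2 _) α β hαβ
      refine le_trans ?_ (e3.trans (by linarith))
      rw [← nsmul_eq_mul, ← sum_const]
      rw [← sum_filter]
      -- injection z ↦ z.1
      rw [← sum_filter]
      have e4 : ∑ z ∈ (S.filter (fun z => ∀ i : Fin ℓ, q (j + i) = z.2 i)).filter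
          (fun z => ∀ i : Fin ℓ, z.1 i < q (j + i)), (∏ i : Fin ℓ, (z.2 i : ℝ))⁻¹
          = ∑ z ∈ (S.filter (fun z => ∀ i : Fin ℓ, q (j + i) = z.2 i)).filter
          (fun z => ∀ i : Fin ℓ, z.1 i < q (j + i)), (∏ i : Fin ℓ, (B₀ i : ℝ))⁻¹ := by
        refine sum_congr rfl fun z hz => ?_
        have := (mem_filter.1 (mem_filter.1 hz).1).2
        congr 1
        exact prod_congr rfl fun i _ => by rw [← this i]
      rw [e4, sum_const, sum_const]
      refine nsmul_le_nsmul_left (inv_nonneg.2 (prod_nonneg fun _ _ => by positivity)) ?_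
      refine card_le_card_of_injOn (fun z => z.1) ?_ ?_
      · intro z hz
        have hz' := mem_coe.1 hz
        rw [mem_filter, mem_filter] at hz'
        obtain ⟨⟨hzS, hz1⟩, hz2⟩ := hz'
        have hB : z.2 = B₀ := funext fun i => (hz1 i).symm
        have hzS' := (mem_filter.1 hzS).2
        rw [hB] at hzS'
        rw [mem_coe, mem_filter, Fintype.mem_piFinset]
        exact ⟨fun i => mem_range.2 (hzS'.1 i), hzS'.2⟩
      · intro z hz z' hz' h
        have h3 := (mem_filter.1 (mem_filter.1 (mem_coe.1 hz)).1).2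
        have h4 := (mem_filter.1 (mem_filter.1 (mem_coe.1 hz')).1).2
        exact Prod.ext h (funext fun i => by rw [← h3 i, ← h4 i])
    calc _ ≤ ∑ j ∈ Icc 1 (n + 1), (β - α + ε / 4) := sum_le_sum e2
      _ = _ := by rw [sum_const, Nat.card_Icc, nsmul_eq_mul]; push_cast; ring
  have b3 : ∑ z ∈ S, NCount₂ q x z.1 z.2 (n + 1) ≤ ∑ z ∈ S, QCount₂ q z.1 z.2 (n + 1)
      + ε / 4 * (n + 1) := by
    have e1 : ∑ z ∈ S, NCount₂ q x z.1 z.2 (n + 1)
        ≤ ∑ z ∈ S, (QCount₂ q z.1 z.2 (n + 1) + δ * (n + 1)) := by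
      refine sum_le_sum fun z hz => ?_
      have := (abs_le.1 (hn z hz)).2
      push_cast at this
      linarith
    refine e1.trans ?_
    rw [sum_add_distrib, sum_const, nsmul_eq_mul]
    have h6 : (S.card : ℝ) * δ ≤ ε / 4 := by
      rw [hδ, mul_div_assoc', div_le_div_iff₀ (by positivity) (by norm_num)]
      have : (0 : ℝ) ≤ S.card := by positivity
      nlinarith
    have h7 : (S.card : ℝ) * (δ * (n + 1)) ≤ ε / 4 * (n + 1) := by
      calc _ = (S.card : ℝ) * δ * (n + 1) := by ring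
      _ ≤ _ := by gcongr
    linarith
  nlinarith

/-- Distribution normality. -/
theorem dist_of_star (q : ℕ → ℕ) (M : ℕ) (h2 : ∀ n, 2 ≤ q n) (hM : ∀ n, q n < M)
    (x : ℕ → ℕ) (t : ℝ) (ht : t ∈ Set.Ico (0 : ℝ) 1) (hx : IsExpansion q x t)
    (hstar : ∀ (ℓ : ℕ) (D B : Fin ℓ → ℕ) (ε : ℝ), 0 < ε →
      ∀ᶠ n : ℕ in atTop, |NCount₂ q x D B n - QCount₂ q D B n| ≤ ε * n) :
    t ∈ distNormalSet q := by
  classical
  refine ⟨ht, fun a b ha hab hb => ?_⟩
  have hset : ∀ n, (((Finset.Icc 1 n).filter (fun k =>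
      Int.fract ((∏ i ∈ Finset.Icc 1 k, (q i : ℝ)) * t) ∈ Set.Ico a b)).card : ℝ)
      = (((Icc 1 n).filter (fun k => a ≤ TT q x t k ∧ TT q x t k < b)).card : ℝ) := by
    intro n
    congr 2
    ext k
    simp only [mem_filter, Set.mem_Ico, fract_eq q x h2 t hx k]
  rw [Metric.tendsto_atTop']
  intro ε hε
  have u1 := visits q M h2 hM x t hx hstar a b hab.le (ε / 4) (by linarith)
  have u2 := visits q M h2 hM x t hx hstar 0 a ha (ε / 4) (by linarith)
  have u3 := visits q M h2 hM x t hx hstar b 1 hb (ε / 4) (by linarith)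
  obtain ⟨N, hN⟩ := eventually_atTop.1 (u1.and (u2.and u3))
  refine ⟨max N 1, fun n hn => ?_⟩
  obtain ⟨v1, v2, v3⟩ := hN n (by omega)
  have hn0 : (0 : ℝ) < n := by exact_mod_cast (by omega : 0 < n)
  have htot : (n : ℝ) = (((Icc 1 n).filter (fun k => 0 ≤ TT q x t k ∧ TT q x t k < a)).card : ℝ)
      + (((Icc 1 n).filter (fun k => a ≤ TT q x t k ∧ TT q x t k < b)).card : ℝ)
      + (((Icc 1 n).filter (fun k => b ≤ TT q x t k ∧ TT q x t k < 1)).card : ℝ) := by
    simp only [card_filter]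
    push_cast
    rw [← sum_add_distrib, ← sum_add_distrib]
    have : ∀ k ∈ Icc 1 n, (if 0 ≤ TT q x t k ∧ TT q x t k < a then (1 : ℝ) else 0)
        + (if a ≤ TT q x t k ∧ TT q x t k < b then 1 else 0)
        + (if b ≤ TT q x t k ∧ TT q x t k < 1 then 1 else 0) = 1 := by
      intro k _
      have w1 := TT_nonneg q x h2 t hx k
      have w2 := TT_lt_one q x h2 t hx k
      rcases lt_or_ge (TT q x t k) a with h | h
      · rw [if_pos ⟨w1, h⟩, if_neg (by rintro ⟨h', -⟩; linarith),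
          if_neg (by rintro ⟨h', -⟩; linarith)]; norm_num
      · rcases lt_or_ge (TT q x t k) b with h' | h'
        · rw [if_neg (by rintro ⟨-, h''⟩; linarith), if_pos ⟨h, h'⟩,
            if_neg (by rintro ⟨h'', -⟩; linarith)]; norm_num
        · rw [if_neg (by rintro ⟨-, h''⟩; linarith), if_neg (by rintro ⟨-, h''⟩; linarith),
            if_pos ⟨h', w2⟩]; norm_num
    rw [sum_congr rfl this]
    simp
  rw [Real.dist_eq, hset]
  rw [abs_lt]
  constructor
  · rw [lt_sub_iff_add_lt, lt_div_iff₀ hn0]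
    nlinarith
  · rw [sub_lt_iff_lt_add, div_lt_iff₀ hn0]
    nlinarith

end Q196.PC
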