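import Pool.Agent.Q196.PC.Defs

open Filter Topology MeasureTheory Set
open scoped ENNReal

namespace Q196.PC

/-- The orbit closure of the sequence `q` under the shift. -/
abbrev Xs (q : ℕ → ℕ) : Type := {y : ℕ → ℕ // ∀ m, ∃ j, ∀ i < m, y i = q (j + i)}

lemma isClosed_Xs (q : ℕ → ℕ) :
    IsClosed {y : ℕ → ℕ | ∀ m, ∃ j, ∀ i < m, y i = q (j + i)} := by
  have h : {y : ℕ → ℕ | ∀ m, ∃ j, ∀ i < m, y i = q (j + i)}
      = ⋂ m, {y : ℕ → ℕ | ∃ j, ∀ i < m, y i = q (j + i)} := by
    ext y; simp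
  rw [h]
  refine isClosed_iInter fun m => ?_
  -- the set depends on finitely many discrete coordinates
  have h2 : {y : ℕ → ℕ | ∃ j, ∀ i < m, y i = q (j + i)}
      = (fun y : ℕ → ℕ => fun i : Fin m => y i) ⁻¹'
        {w : Fin m → ℕ | ∃ j, ∀ i : Fin m, w i = q (j + i)} := by
    ext y
    simp only [mem_setOf_eq, mem_preimage]
    constructor
    · rintro ⟨j, hj⟩; exact ⟨j, fun i => hj i i.2⟩
    · rintro ⟨j, hj⟩; exact ⟨j, fun i hi => hj ⟨i, hi⟩⟩
  rw [h2]
  refine IsClosed.preimage (by fun_prop) ?_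
  exact isClosed_discrete _

instance (q : ℕ → ℕ) : PolishSpace (Xs q) := (isClosed_Xs q).polishSpace

lemma compact_Xs (q : ℕ → ℕ) (M : ℕ) (hM : ∀ n, q n < M) : CompactSpace (Xs q) := by
  have hK : IsCompact (Set.pi univ (fun _ : ℕ => Iio M)) :=
    isCompact_univ_pi fun _ => (Set.finite_Iio M).isCompact
  have : IsCompact {y : ℕ → ℕ | ∀ m, ∃ j, ∀ i < m, y i = q (j + i)} := by
    refine hK.of_isClosed_subset (isClosed_Xs q) ?_
    intro y hy i _
    obtain ⟨j, hj⟩ := hy (i + 1)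
    rw [mem_Iio, hj i (Nat.lt_succ_self i)]
    exact hM _
  exact isCompact_iff_compactSpace.1 this

/-- The shift. -/
def sh (q : ℕ → ℕ) (y : Xs q) : Xs q :=
  ⟨fun i => y.1 (i + 1), fun m => by
    obtain ⟨j, hj⟩ := y.2 (m + 1)
    refine ⟨j + 1, fun i hi => ?_⟩
    have := hj (i + 1) (by omega)
    show y.1 (i + 1) = _
    rw [this]; congr 1; omega⟩

/-- The base point. -/
def bp (q : ℕ → ℕ) : Xs q := ⟨q, fun m => ⟨0, fun i _ => by simp⟩⟩

lemma sh_iterate (q : ℕ → ℕ) (y : Xs q) (n i : ℕ) : ((sh q)^[n] y).1 i = y.1 (n + i) := by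
  induction n generalizing y with
  | zero => simp
  | succ n ih =>
    rw [Function.iterate_succ_apply, ih]
    show y.1 (n + i + 1) = y.1 (n + 1 + i)
    rw [show n + i + 1 = n + 1 + i by omega]

lemma bp_iterate (q : ℕ → ℕ) (n i : ℕ) : ((sh q)^[n] (bp q)).1 i = q (n + i) :=
  sh_iterate q _ n i

lemma continuous_coord (q : ℕ → ℕ) (i : ℕ) : Continuous (fun y : Xs q => y.1 i) :=
  (continuous_apply i).comp continuous_subtype_val

lemma continuous_sh (q : ℕ → ℕ) : Continuous (sh q) := by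
  refine Continuous.subtype_mk ?_ _
  exact continuous_pi fun i => continuous_coord q (i + 1)

/-- Cylinders. -/
def cyl (q : ℕ → ℕ) {ℓ : ℕ} (w : Fin ℓ → ℕ) : Set (Xs q) := {y | ∀ i : Fin ℓ, y.1 i = w i}

lemma isClopen_cyl (q : ℕ → ℕ) {ℓ : ℕ} (w : Fin ℓ → ℕ) : IsClopen (cyl q w) := by
  have : cyl q w = (fun y : Xs q => fun i : Fin ℓ => y.1 i) ⁻¹' {w} := by
    ext y
    simp only [cyl, mem_setOf_eq, mem_preimage, mem_singleton_iff]
    exact ⟨fun h => funext h, fun h i => congrFun h i⟩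
  rw [this]
  exact (isClopen_discrete {w}).preimage (continuous_pi fun i => continuous_coord q i)

lemma gen_cyl (q : ℕ → ℕ) :
    (inferInstance : MeasurableSpace (Xs q)) =
      MeasurableSpace.generateFrom (insert ∅ {s | ∃ (ℓ : ℕ) (w : Fin ℓ → ℕ), s = cyl q w}) := by
  apply le_antisymm
  · show MeasurableSpace.comap _ _ ≤ _
    rw [← measurable_iff_comap_le]
    refine (@measurable_pi_iff _ _ _ (_) _ _).2 fun i => ?_
    refine @measurable_to_countable' _ _ _ _ (_) _ fun a => ?_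
    have : ((fun y : Xs q => y.1 i) ⁻¹' {a})
        = ⋃ w : {w : Fin (i + 1) → ℕ // w (Fin.last i) = a}, cyl q w.1 := by
      ext y
      simp only [mem_preimage, mem_singleton_iff, mem_iUnion, cyl, mem_setOf_eq]
      constructor
      · intro h
        exact ⟨⟨fun k => y.1 k, by simpa using h⟩, fun k => rfl⟩
      · rintro ⟨⟨w, hw⟩, h⟩
        have := h (Fin.last i)
        simpa [hw] using this
    rw [this]
    refine MeasurableSet.iUnion fun w => ?_
    exact MeasurableSpace.measurableSet_generateFrom (Or.inr ⟨_, _, rfl⟩)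
  · refine MeasurableSpace.generateFrom_le ?_
    rintro s (rfl | ⟨ℓ, w, rfl⟩)
    · exact MeasurableSet.empty
    · exact (isClopen_cyl q w).isOpen.measurableSet

lemma piSystem_cyl (q : ℕ → ℕ) :
    IsPiSystem (insert ∅ {s | ∃ (ℓ : ℕ) (w : Fin ℓ → ℕ), s = cyl q w}) := by
  have key : ∀ (ℓ ℓ' : ℕ) (w : Fin ℓ → ℕ) (w' : Fin ℓ' → ℕ), ℓ ≤ ℓ' →
      (cyl q w ∩ cyl q w').Nonempty → cyl q w ∩ cyl q w' = cyl q w' := by
    rintro ℓ ℓ' w w' hle ⟨y, hy, hy'⟩
    refine inter_eq_right.2 ?_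
    intro z hz i
    have h1 := hz (Fin.castLE hle i)
    have h2 := hy' (Fin.castLE hle i)
    have h3 := hy i
    simp only [Fin.val_castLE] at h1 h2
    rw [h1, ← h2, h3]
  rintro s (rfl | ⟨ℓ, w, rfl⟩) t (rfl | ⟨ℓ', w', rfl⟩) hne
  · simp
  · simp
  · simp
  · right
    rcases le_total ℓ ℓ' with h | h
    · exact ⟨ℓ', w', key _ _ _ _ h hne⟩
    · rw [inter_comm] at hne ⊢
      exact ⟨ℓ, w, key _ _ _ _ h hne⟩

lemma ext_cyl (q : ℕ → ℕ) (μ ν : Measure (Xs q)) [IsProbabilityMeasure μ]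
    [IsProbabilityMeasure ν] (h : ∀ (ℓ : ℕ) (w : Fin ℓ → ℕ), μ (cyl q w) = ν (cyl q w)) :
    μ = ν := by
  refine ext_of_generate_finite _ (gen_cyl q) (piSystem_cyl q) ?_ (by simp)
  rintro s (rfl | ⟨ℓ, w, rfl⟩)
  · simp
  · exact h ℓ w

/-- Empirical measures. -/
noncomputable def emp (q : ℕ → ℕ) (n : ℕ) : Measure (Xs q) :=
  ((n + 1 : ℕ) : ℝ≥0∞)⁻¹ • ∑ j ∈ Finset.range (n + 1), Measure.dirac ((sh q)^[j] (bp q))

instance (q : ℕ → ℕ) (n : ℕ) : IsProbabilityMeasure (emp q n) := by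
  constructor
  simp only [emp, Measure.smul_apply, Measure.finsetSum_apply, measure_univ, Finset.sum_const,
    Finset.card_range, nsmul_eq_mul, mul_one, smul_eq_mul]
  exact ENNReal.inv_mul_cancel (by simp) (by simp)

lemma integral_emp (q : ℕ → ℕ) (n : ℕ) (F : Xs q → ℝ) (hF : Continuous F) :
    ∫ y, F y ∂(emp q n) = (∑ j ∈ Finset.range (n + 1), F ((sh q)^[j] (bp q))) / (n + 1) := by
  rw [emp, integral_smul_measure, integral_finsetSum_measure]
  · simp only [ENNReal.toReal_inv, ENNReal.toReal_natCast, smul_eq_mul]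
    rw [div_eq_inv_mul]
    congr 1
    · push_cast; rfl
    · refine Finset.sum_congr rfl fun j _ => ?_
      exact integral_dirac' _ _ hF.stronglyMeasurable
  · intro j _
    refine Integrable.mono' (g := fun _ => |F ((sh q)^[j] (bp q))|) (integrable_const _)
      hF.aestronglyMeasurable ?_
    rw [ae_dirac_iff]
    · simp
    · exact (isClosed_le (by fun_prop) continuous_const).measurableSet

/-- Empirical measures as probability measures. -/
noncomputable def empP (q : ℕ → ℕ) (n : ℕ) : ProbabilityMeasure (Xs q) :=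
  ⟨emp q n, inferInstance⟩

open Classical in
/-- Word frequencies. -/
def HasFreq (q : ℕ → ℕ) {ℓ : ℕ} (w : Fin ℓ → ℕ) (p : ℝ) : Prop :=
  Tendsto (fun n : ℕ => (((Finset.range n).filter
    (fun j => ∀ i : Fin ℓ, q (j + i) = w i)).card : ℝ) / n) atTop (𝓝 p)

open Classical in
lemma tendsto_cyl (q : ℕ → ℕ) {ℓ : ℕ} (w : Fin ℓ → ℕ) (p : ℝ) (hp : HasFreq q w p) :
    Tendsto (fun n => ∫ y, (cyl q w).indicator (fun _ => (1 : ℝ)) y ∂(emp q n)) atTop (𝓝 p) := by
  have hc : Continuous ((cyl q w).indicator (fun _ => (1 : ℝ))) :=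
    (isClopen_cyl q w).continuous_indicator continuous_const
  have h1 : (fun n => ∫ y, (cyl q w).indicator (fun _ => (1 : ℝ)) y ∂(emp q n))
      = (fun n : ℕ => (((Finset.range n).filter
        (fun j => ∀ i : Fin ℓ, q (j + i) = w i)).card : ℝ) / n) ∘ (fun n => n + 1) := by
    funext n
    rw [integral_emp q n _ hc]
    simp only [Function.comp]
    congr 1
    · rw [Finset.card_filter]
      push_cast
      refine Finset.sum_congr rfl fun j _ => ?_
      by_cases h : ∀ i : Fin ℓ, q (j + i) = w i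
      · rw [if_pos h, indicator_of_mem]
        intro i; rw [bp_iterate]; exact h i
      · rw [if_neg h, indicator_of_notMem]
        intro h2
        refine h fun i => ?_
        have := h2 i
        rwa [bp_iterate] at this
    · push_cast; rfl
  rw [h1]
  exact hp.comp (tendsto_add_atTop_nat 1)

lemma limit_cyl (q : ℕ → ℕ) [CompactSpace (Xs q)] {ℓ : ℕ} (w : Fin ℓ → ℕ) (p : ℝ)
    (hp : HasFreq q w p) (ν : ProbabilityMeasure (Xs q)) (𝓕 : Filter ℕ) [𝓕.NeBot]
    (h𝓕 : 𝓕 ≤ atTop) (h : Tendsto (empP q) 𝓕 (𝓝 ν)) :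
    (ν : Measure (Xs q)).real (cyl q w) = p := by
  have hc : Continuous ((cyl q w).indicator (fun _ => (1 : ℝ))) :=
    (isClopen_cyl q w).continuous_indicator continuous_const
  have h1 := (ProbabilityMeasure.tendsto_iff_forall_integral_tendsto.1 h)
    (BoundedContinuousFunction.mkOfCompact ⟨_, hc⟩)
  simp only [BoundedContinuousFunction.mkOfCompact_apply, ContinuousMap.coe_mk] at h1
  have h2 := (tendsto_cyl q w p hp).mono_left h𝓕
  have h3 := tendsto_nhds_unique h1 h2
  rw [← h3, integral_indicator (isClopen_cyl q w).isOpen.measurableSet]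
  simp

/-- The empirical measures converge. -/
lemma exists_limit (q : ℕ → ℕ) [CompactSpace (Xs q)] (p : ∀ ℓ, (Fin ℓ → ℕ) → ℝ)
    (hp : ∀ ℓ (w : Fin ℓ → ℕ), HasFreq q w (p ℓ w)) :
    ∃ ν : ProbabilityMeasure (Xs q), Tendsto (empP q) atTop (𝓝 ν) ∧
      ∀ ℓ (w : Fin ℓ → ℕ), (ν : Measure (Xs q)).real (cyl q w) = p ℓ w := by
  obtain ⟨ν, -, hν⟩ := isCompact_univ.exists_mapClusterPt (f := atTop) (u := empP q)
    (by simp)
  obtain ⟨U, hU, hUν⟩ := mapClusterPt_iff_ultrafilter.1 hν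
  have hνp : ∀ ℓ (w : Fin ℓ → ℕ), (ν : Measure (Xs q)).real (cyl q w) = p ℓ w :=
    fun ℓ w => limit_cyl q w _ (hp ℓ w) ν U hU hUν
  refine ⟨ν, ?_, hνp⟩
  refine isCompact_univ.tendsto_nhds_of_unique_mapClusterPt (by simp) ?_
  intro ν' _ hν'
  obtain ⟨U', hU', hUν'⟩ := mapClusterPt_iff_ultrafilter.1 hν'
  have hνp' : ∀ ℓ (w : Fin ℓ → ℕ), (ν' : Measure (Xs q)).real (cyl q w) = p ℓ w :=
    fun ℓ w => limit_cyl q w _ (hp ℓ w) ν' U' hU' hUν'
  apply Subtype.ext
  haveI := ν'.2
  haveI := ν.2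
  refine ext_cyl q ν'.1 ν.1 fun ℓ w => ?_
  have := (hνp' ℓ w).trans (hνp ℓ w).symm
  rwa [measureReal_eq_measureReal_iff] at this

lemma generic_Icc (q : ℕ → ℕ) [CompactSpace (Xs q)] (ν : ProbabilityMeasure (Xs q))
    (h : Tendsto (empP q) atTop (𝓝 ν)) (F : Xs q → ℝ) (hF : Continuous F) :
    Tendsto (fun N : ℕ => (∑ n ∈ Finset.Icc 1 N, F ((sh q)^[n] (bp q))) / N) atTop
      (𝓝 (∫ y, F y ∂(ν : Measure (Xs q)))) := by
  have h1 := (ProbabilityMeasure.tendsto_iff_forall_integral_tendsto.1 h)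
    (BoundedContinuousFunction.mkOfCompact ⟨_, hF⟩)
  simp only [BoundedContinuousFunction.mkOfCompact_apply, ContinuousMap.coe_mk] at h1
  set I := ∫ y, F y ∂(ν : Measure (Xs q)) with hI
  have h2 : (fun n => ∫ y, F y ∂((empP q n : ProbabilityMeasure (Xs q)) : Measure (Xs q)))
      = fun n : ℕ => (∑ j ∈ Finset.range (n + 1), F ((sh q)^[j] (bp q))) / (n + 1) := by
    funext n; exact integral_emp q n F hF
  rw [h2] at h1
  have h3 : Tendsto (fun N : ℕ => ((N : ℝ) + 1) / N) atTop (𝓝 1) := by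
    have := tendsto_one_div_atTop_nhds_zero_nat (𝕜 := ℝ)
    have h4 := this.const_add 1
    rw [add_zero] at h4
    refine h4.congr' ?_
    filter_upwards [eventually_ge_atTop 1] with N hN
    have : (N : ℝ) ≠ 0 := by positivity
    field_simp
  have h5 : Tendsto (fun N : ℕ => F (bp q) / (N : ℝ)) atTop (𝓝 0) :=
    tendsto_const_div_atTop_nhds_zero_nat _
  have h6 := (h1.mul h3).sub h5
  rw [mul_one, sub_zero] at h6
  refine h6.congr' ?_
  filter_upwards [eventually_ge_atTop 1] with N hN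
  have hN0 : (N : ℝ) ≠ 0 := by positivity
  have hN1 : (N : ℝ) + 1 ≠ 0 := by positivity
  have h7 : ∑ j ∈ Finset.range (N + 1), F ((sh q)^[j] (bp q))
      = F (bp q) + ∑ n ∈ Finset.Icc 1 N, F ((sh q)^[n] (bp q)) := by
    rw [Finset.sum_range_succ', add_comm]
    congr 1
    rw [Finset.sum_bij (fun (a : ℕ) _ => a + 1)]
    · intro a ha; simp at ha ⊢; omega
    · intro a _ b _ h; omega
    · intro b hb; simp at hb; exact ⟨b - 1, by simp; omega, by omega⟩
    · intro a _; rfl
  rw [h7]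
  field_simp
  ring

lemma cyl_mem_nhds (q : ℕ → ℕ) (U : Set (Xs q)) (hU : IsOpen U) (y : Xs q) (hy : y ∈ U) :
    ∃ m : ℕ, cyl q (fun i : Fin m => y.1 i) ⊆ U := by
  obtain ⟨V, hV, rfl⟩ := isOpen_induced_iff.1 hU
  obtain ⟨I, u, hu, hI⟩ := isOpen_pi_iff.1 hV y.1 hy
  refine ⟨I.sup id + 1, fun z hz => hI ?_⟩
  intro i hi
  have h1 : i < I.sup id + 1 := Nat.lt_succ_of_le (Finset.le_sup (f := id) hi)
  have h2 := hz ⟨i, h1⟩
  simp only at h2
  rw [h2]
  exact (hu i hi).2

/-- A bounded sequence all of whose words have frequencies, positive for the words that occur, is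
dynamically generated. -/
theorem exists_generates (q : ℕ → ℕ) (M : ℕ) (h2 : ∀ n, 2 ≤ q n) (hM : ∀ n, q n < M)
    (p : ∀ ℓ, (Fin ℓ → ℕ) → ℝ) (hp : ∀ ℓ (w : Fin ℓ → ℕ), HasFreq q w (p ℓ w))
    (hpos : ∀ ℓ (w : Fin ℓ → ℕ), (∃ j, ∀ i : Fin ℓ, q (j + i) = w i) → 0 < p ℓ w) :
    ∃ μ : Measure (Xs q), IsProbabilityMeasure μ ∧
      Generates q (Xs q) μ (sh q) (fun y => y.1 0) (bp q) ∧
      ∀ ℓ (w : Fin ℓ → ℕ), μ.real (cyl q w) = p ℓ w := by
  haveI := compact_Xs q M hM
  obtain ⟨ν, hν, hνp⟩ := exists_limit q p hp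
  refine ⟨ν, inferInstance, ?_, hνp⟩
  refine
    { polish := inferInstance
      borel := inferInstance
      prob := inferInstance
      pos := ?_
      contT := continuous_sh q
      pres := ?_
      contf := continuous_coord q 0
      two_le := ?_
      top := ?_
      generic := fun F hF _ => generic_Icc q ν hν F hF
      eq := ?_ }
  · intro U hU ⟨y, hy⟩
    obtain ⟨m, hm⟩ := cyl_mem_nhds q U hU y hy
    refine lt_of_lt_of_le ?_ (measure_mono hm)
    obtain ⟨j, hj⟩ := y.2 m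
    have h := hpos m (fun i : Fin m => y.1 i) ⟨j, fun i => (hj i i.2).symm⟩
    rw [← hνp, measureReal_def] at h
    exact ENNReal.toReal_pos_iff.1 h |>.1
  · refine ⟨(continuous_sh q).measurable, ?_⟩
    haveI : IsProbabilityMeasure (Measure.map (sh q) (ν : Measure (Xs q))) :=
      Measure.isProbabilityMeasure_map (continuous_sh q).measurable.aemeasurable
    refine ext_of_forall_integral_eq_of_IsFiniteMeasure fun f => ?_
    rw [integral_map (continuous_sh q).measurable.aemeasurable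
      f.continuous.aestronglyMeasurable]
    have h1 := generic_Icc q ν hν (fun y => f (sh q y)) (f.continuous.comp (continuous_sh q))
    have h3 := ((ProbabilityMeasure.tendsto_iff_forall_integral_tendsto.1 hν)
      (BoundedContinuousFunction.mkOfCompact ⟨_, f.continuous.comp (continuous_sh q)⟩))
    simp only [BoundedContinuousFunction.mkOfCompact_apply, ContinuousMap.coe_mk] at h3
    have h4 : (fun n => ∫ y, (f ∘ sh q) y ∂((empP q n : ProbabilityMeasure (Xs q)) :
        Measure (Xs q)))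
        = (fun N : ℕ => (∑ n ∈ Finset.Icc 1 N, f ((sh q)^[n] (bp q))) / (N : ℝ))
          ∘ (fun n => n + 1) := by
      funext n
      show ∫ y, (f ∘ sh q) y ∂(emp q n) = _
      rw [integral_emp q n _ (f.continuous.comp (continuous_sh q))]
      simp only [Function.comp]
      congr 1
      · rw [Finset.sum_bij (fun (a : ℕ) _ => a + 1)]
        · intro a ha; simp at ha ⊢; omega
        · intro a _ b _ h; omega
        · intro b hb; simp at hb; exact ⟨b - 1, by simp; omega, by omega⟩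
        · intro a _
          rw [← Function.iterate_succ_apply' (sh q) a (bp q)]
      · push_cast; rfl
    rw [h4] at h3
    exact tendsto_nhds_unique h3
      ((generic_Icc q ν hν f f.continuous).comp (tendsto_add_atTop_nat 1))
  · intro y
    obtain ⟨j, hj⟩ := y.2 1
    rw [hj 0 one_pos]
    exact h2 _
  · apply le_antisymm
    · rw [TopologicalSpace.le_generateFrom_iff_subset_isOpen]
      rintro U ⟨n, V, rfl⟩
      have : (fun y : Xs q => ((sh q)^[n] y).1 0) = fun y => y.1 n := by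
        funext y; rw [sh_iterate]; simp
      show IsOpen ((fun y : Xs q => ((sh q)^[n] y).1 0) ⁻¹' V)
      rw [this]
      exact (isOpen_discrete V).preimage (continuous_coord q n)
    · show _ ≤ TopologicalSpace.induced _ _
      rw [← continuous_iff_le_induced]
      refine (@continuous_pi_iff _ _ _ (_) _ _).2 fun i => ?_
      refine (@continuous_def _ _ (_) _ _).2 fun V _ => ?_
      apply TopologicalSpace.isOpen_generateFrom_of_mem
      refine ⟨i, V, ?_⟩
      ext y
      simp only [mem_preimage]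
      rw [sh_iterate]; simp
  · intro n _
    rw [bp_iterate]; simp

end Q196.PC
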