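import Pool.Agent.Q196.PC.Dyn

open Filter Topology MeasureTheory Set
open scoped ENNReal

namespace Q196.PC

lemma entropy_pos (q : ℕ → ℕ) (M : ℕ) (hM : ∀ n, q n < M)
    (p : ∀ ℓ, (Fin ℓ → ℕ) → ℝ) (μ : Measure (Xs q)) [IsProbabilityMeasure μ]
    (hμ : ∀ ℓ (w : Fin ℓ → ℕ), μ.real (cyl q w) = p ℓ w) (c : ℝ) (hc : 0 < c)
    (hfr : ∃ᶠ n : ℕ in atTop, ∀ w : Fin n → ℕ, p n w ≤ Real.exp (-(c * n))) :
    0 < ksEntropy μ (sh q) := by
  have hlt : ∀ y : Xs q, y.1 0 < M := by
    intro y
    obtain ⟨j, hj⟩ := y.2 1
    rw [hj 0 one_pos]; exact hM _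
  let P : Xs q → Fin M := fun y => ⟨y.1 0, hlt y⟩
  have hP : Measurable P := by
    refine measurable_to_countable' fun a => ?_
    have : P ⁻¹' {a} = (fun y : Xs q => y.1 0) ⁻¹' {a.1} := by
      ext y; simp [P, Fin.ext_iff]
    rw [this]
    exact (continuous_coord q 0).measurable (measurableSet_singleton _)
  have key : ENNReal.ofReal c ≤ ksEntropy μ (sh q) := by
    refine le_trans ?_ (le_iSup_of_le M (le_iSup_of_le P (le_iSup_of_le hP le_rfl)))
    refine le_limsup_of_frequently_le ?_
    refine (hfr.and_eventually (eventually_gt_atTop 0)).mono ?_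
    rintro n ⟨hn, hn0⟩
    refine ENNReal.ofReal_le_ofReal ?_
    have hn0' : (0 : ℝ) < n := by exact_mod_cast hn0
    rw [le_div_iff₀ hn0']
    have hset : ∀ w : Fin n → Fin M, {y : Xs q | ∀ i : Fin n, P ((sh q)^[i] y) = w i}
        = cyl q (fun i => (w i : ℕ)) := by
      intro w
      ext y
      simp only [cyl, mem_setOf_eq, P, Fin.ext_iff]
      refine forall_congr' fun i => ?_
      rw [sh_iterate, add_zero]
    have hsum : ∑ w : Fin n → Fin M, μ.real (cyl q (fun i => (w i : ℕ))) = 1 := by
      have h1 := sum_measureReal_preimage_singleton (μ := μ)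
        (Finset.univ : Finset (Fin n → Fin M))
        (f := fun y : Xs q => fun i : Fin n => P ((sh q)^[i] y)) (by
          intro w _
          have : (fun y : Xs q => fun i : Fin n => P ((sh q)^[i] y)) ⁻¹' {w}
              = cyl q (fun i => (w i : ℕ)) := by
            rw [← hset]
            ext y
            simp only [mem_preimage, mem_singleton_iff, mem_setOf_eq]
            exact funext_iff
          rw [this]
          exact (isClopen_cyl q _).isOpen.measurableSet)
      simp only [Finset.coe_univ, preimage_univ, probReal_univ] at h1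
      rw [← h1]
      refine Finset.sum_congr rfl fun w _ => ?_
      congr 1
      rw [← hset]
      ext y
      simp only [mem_preimage, mem_singleton_iff, mem_setOf_eq]
      exact funext_iff.symm
    calc c * n = ∑ w : Fin n → Fin M, μ.real (cyl q (fun i => (w i : ℕ))) * (c * n) := by
          rw [← Finset.sum_mul, hsum, one_mul]
      _ ≤ _ := by
          refine Finset.sum_le_sum fun w _ => ?_
          rw [hset]
          have h0 : 0 ≤ μ.real (cyl q (fun i => (w i : ℕ))) := measureReal_nonneg
          rcases h0.eq_or_lt with h | h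
          · rw [← h]; simp
          · rw [Real.negMulLog]
            have h1 : μ.real (cyl q (fun i => (w i : ℕ))) ≤ Real.exp (-(c * n)) := by
              rw [hμ]; exact hn _
            have h2 : Real.log (μ.real (cyl q (fun i => (w i : ℕ)))) ≤ -(c * n) := by
              rw [← Real.log_exp (-(c * n))]
              exact Real.log_le_log h h1
            nlinarith
  exact lt_of_lt_of_le (ENNReal.ofReal_pos.2 hc) key

end Q196.PC
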