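import Mathlib

open Finset Filter Topology

namespace Q196.PC

open Classical in
/-- Counting function. -/
noncomputable def cnt (a : ℕ → Prop) (n : ℕ) : ℕ := ((range n).filter a).card

lemma cnt_mono (a : ℕ → Prop) {m n : ℕ} (h : m ≤ n) : cnt a m ≤ cnt a n := by
  classical
  unfold cnt
  exact card_le_card (filter_subset_filter _ (range_mono h))

lemma cnt_le (a : ℕ → Prop) (n : ℕ) : cnt a n ≤ n := by
  classical
  unfold cnt
  exact (card_filter_le _ _).trans (by simp)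

lemma cnt_succ (a : ℕ → Prop) [DecidablePred a] (n : ℕ) :
    cnt a (n + 1) = cnt a n + if a n then 1 else 0 := by
  classical
  unfold cnt
  rw [range_add_one, filter_insert]
  split_ifs with h h'
  · rw [card_insert_of_notMem (by simp)]
  · rfl

lemma cnt_add (a : ℕ → Prop) (m n : ℕ) : cnt a (m + n) = cnt a m + cnt (fun j => a (m + j)) n := by
  classical
  induction n with
  | zero => simp [cnt]
  | succ n ih =>
    rw [← add_assoc, cnt_succ, cnt_succ, ih, add_assoc]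

lemma cnt_add_le (a : ℕ → Prop) (m n : ℕ) : cnt a (m + n) ≤ cnt a m + n := by
  rw [cnt_add]
  exact Nat.add_le_add_left (cnt_le _ _) _

lemma cnt_mul (a : ℕ → Prop) (P m : ℕ) :
    cnt a (P * m) = ∑ J ∈ range m, cnt (fun r => a (P * J + r)) P := by
  induction m with
  | zero => simp [cnt]
  | succ m ih => rw [Nat.mul_succ, cnt_add, ih, sum_range_succ]

lemma cnt_congr {a b : ℕ → Prop} (h : ∀ j, a j ↔ b j) (n : ℕ) : cnt a n = cnt b n := by
  classical
  unfold cnt
  congr 1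
  ext j
  simp [h j]

lemma cnt_imp {a b : ℕ → Prop} (h : ∀ j, a j → b j) (n : ℕ) : cnt a n ≤ cnt b n := by
  classical
  unfold cnt
  refine card_le_card fun j hj => ?_
  rw [mem_filter] at hj ⊢
  exact ⟨hj.1, h j hj.2⟩

lemma cnt_imp' {a b : ℕ → Prop} (n : ℕ) (h : ∀ j < n, a j → b j) : cnt a n ≤ cnt b n := by
  classical
  unfold cnt
  refine card_le_card fun j hj => ?_
  rw [mem_filter] at hj ⊢
  exact ⟨hj.1, h j (mem_range.1 hj.1) hj.2⟩

lemma cnt_le_add {a b : ℕ → Prop} (n : ℕ) (s : Finset ℕ) (h : ∀ j < n, a j → b j ∨ j ∈ s) :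
    cnt a n ≤ cnt b n + s.card := by
  classical
  unfold cnt
  refine (card_le_card fun j hj => ?_).trans (card_union_le _ _)
  rw [mem_filter] at hj
  rw [mem_union, mem_filter]
  rcases h j (mem_range.1 hj.1) hj.2 with h1 | h1
  · exact Or.inl ⟨hj.1, h1⟩
  · exact Or.inr h1

lemma cnt_eq (a : ℕ → Prop) [DecidablePred a] (n : ℕ) : cnt a n = ((range n).filter a).card := by
  classical
  unfold cnt
  congr

lemma conv_of_approx (x : ℕ → ℝ) (h : ∀ ε > 0, ∃ L, ∀ᶠ n in atTop, |x n - L| ≤ ε) :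
    ∃ p, Tendsto x atTop (𝓝 p) := by
  apply cauchySeq_tendsto_of_complete
  rw [Metric.cauchySeq_iff]
  intro ε hε
  obtain ⟨L, hL⟩ := h (ε / 3) (by linarith)
  obtain ⟨N, hN⟩ := eventually_atTop.1 hL
  refine ⟨N, fun m hm n hn => ?_⟩
  rw [Real.dist_eq]
  have h1 := abs_le.1 (hN m hm)
  have h2 := abs_le.1 (hN n hn)
  rw [abs_lt]
  constructor <;> linarith [h1.1, h1.2, h2.1, h2.2]

/-- comparison of `cnt a n / n` with multiples of a period. -/
lemma cnt_div_close (a : ℕ → Prop) (P : ℕ) (hP : 0 < P) (n : ℕ) (hn : P ≤ n) :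
    |(cnt a n : ℝ) / n - (cnt a (P * (n / P)) : ℝ) / ((P * (n / P) : ℕ) : ℝ)| ≤ P / n := by
  set m := P * (n / P) with hm
  have h1 : m ≤ n := Nat.mul_div_le n P
  have h2 : n < m + P := by
    have := Nat.div_add_mod n P
    have := Nat.mod_lt n hP
    omega
  have h3 : 0 < m := by
    have : 0 < n / P := Nat.div_pos hn hP
    positivity
  have hn0 : 0 < n := lt_of_lt_of_le h3 h1
  have e1 : (cnt a m : ℝ) ≤ cnt a n := by exact_mod_cast cnt_mono a h1
  have e2 : (cnt a n : ℝ) ≤ cnt a m + (n - m) := by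
    have := cnt_add_le a m (n - m)
    rw [Nat.add_sub_cancel' h1] at this
    have h4 : (cnt a n : ℝ) ≤ ((cnt a m + (n - m) : ℕ) : ℝ) := by exact_mod_cast this
    rw [Nat.cast_add, Nat.cast_sub h1] at h4
    exact h4
  have e3 : (cnt a m : ℝ) ≤ m := by exact_mod_cast cnt_le a m
  have e4 : (n : ℝ) ≤ m + P := by exact_mod_cast h2.le
  have e5 : (0 : ℝ) < m := by exact_mod_cast h3
  have e6 : (0 : ℝ) < n := by exact_mod_cast hn0
  have e7 : (m : ℝ) ≤ n := by exact_mod_cast h1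
  have e8 : (0 : ℝ) ≤ cnt a m := by positivity
  rw [abs_le]
  constructor
  · rw [neg_le_sub_iff_le_add, ← add_div, div_le_div_iff₀ e5 e6]
    nlinarith
  · rw [sub_le_iff_le_add, div_le_iff₀ e6]
    rw [add_mul, div_mul_cancel₀ _ e6.ne']
    have : (cnt a m : ℝ) ≤ cnt a m / m * n := by
      rw [div_mul_eq_mul_div, le_div_iff₀ e5]
      nlinarith
    linarith

lemma tendsto_div_const (P : ℕ) (hP : 0 < P) : Tendsto (fun n : ℕ => n / P) atTop atTop :=
  Nat.tendsto_div_const_atTop hP.ne'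

/-- If the blocks have frequencies then so do the sets determined by the blocks, approximately. -/
theorem exists_freq (a : ℕ → Prop)
    (h : ∀ ε > (0 : ℝ), ∃ (P : ℕ) (_ : 0 < P) (α : Type) (_ : Fintype α) (τ : ℕ → α) (π : α → ℝ)
      (b : Finset ℕ), (b.card : ℝ) ≤ ε * P ∧
      (∀ u, Tendsto (fun n : ℕ => (cnt (fun J => τ J = u) n : ℝ) / n) atTop (𝓝 (π u))) ∧
      ∀ J J' r, r < P → r ∉ b → τ J = τ J' → (a (P * J + r) ↔ a (P * J' + r))) :
    ∃ p, Tendsto (fun n : ℕ => (cnt a n : ℝ) / n) atTop (𝓝 p) := by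
  classical
  apply conv_of_approx
  intro ε hε
  obtain ⟨P, hP, α, _, τ, π, b, hb, hπ, hab⟩ := h (ε / 3) (by linarith)
  -- the determined part
  let g : α → ℕ := fun u => cnt (fun r => r ∉ b ∧ ∃ J, τ J = u ∧ a (P * J + r)) P
  have hg : ∀ J, cnt (fun r => a (P * J + r)) P ≤ g (τ J) + b.card ∧
      g (τ J) ≤ cnt (fun r => a (P * J + r)) P := by
    intro J
    constructor
    · refine cnt_le_add P b fun r _ hr => ?_
      by_cases hrb : r ∈ b
      · exact Or.inr hrb
      · exact Or.inl ⟨hrb, J, rfl, hr⟩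
    · refine cnt_imp' P fun r hr1 hr => ?_
      obtain ⟨hr2, J', hJ', hr3⟩ := hr
      exact (hab J' J r hr1 hr2 hJ').1 hr3
  have hsum : ∀ m, (∑ J ∈ range m, g (τ J)) = ∑ u, g u * cnt (fun J => τ J = u) m := by
    intro m
    rw [← Finset.sum_fiberwise (range m) τ (fun J => g (τ J))]
    refine sum_congr rfl fun u _ => ?_
    rw [sum_congr rfl (g := fun _ => g u) (fun J hJ => by rw [(mem_filter.1 hJ).2]),
      sum_const, smul_eq_mul, mul_comm, cnt_eq]
  have hlim : Tendsto (fun m : ℕ => ((∑ J ∈ range m, g (τ J) : ℕ) : ℝ) / m) atTop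
      (𝓝 (∑ u, g u * π u)) := by
    have h1 : (fun m : ℕ => ((∑ J ∈ range m, g (τ J) : ℕ) : ℝ) / m)
        = fun m : ℕ => ∑ u, (g u : ℝ) * ((cnt (fun J => τ J = u) m : ℝ) / m) := by
      funext m
      rw [hsum, Nat.cast_sum, sum_div]
      refine sum_congr rfl fun u _ => ?_
      rw [Nat.cast_mul, mul_div_assoc]
    rw [h1]
    exact tendsto_finsetSum _ fun u _ => (hπ u).const_mul _
  set L := ∑ u, (g u : ℝ) * π u with hL
  refine ⟨L / P, ?_⟩
  have hPr : (0 : ℝ) < P := by exact_mod_cast hP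
  have hlim2 := (hlim.div_const (P : ℝ)).comp (tendsto_div_const P hP)
  have e1 := (Metric.tendsto_atTop.1 hlim2) (ε / 3) (by linarith)
  obtain ⟨N1, hN1⟩ := e1
  have e2 : ∀ᶠ n : ℕ in atTop, (P : ℝ) / n ≤ ε / 3 := by
    have := (tendsto_const_div_atTop_nhds_zero_nat (P : ℝ)).eventually
      (gt_mem_nhds (show (0 : ℝ) < ε / 3 by linarith))
    exact this.mono fun n hn => hn.le
  filter_upwards [eventually_ge_atTop N1, e2, eventually_ge_atTop P] with n h1 h2 h3
  have h4 := cnt_div_close a P hP n h3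
  have h5 := hN1 n h1
  rw [Real.dist_eq] at h5
  simp only [Function.comp] at h5
  set m := n / P with hm
  have hm0 : 0 < m := Nat.div_pos h3 hP
  have hmr : (0 : ℝ) < m := by exact_mod_cast hm0
  have h6 : |(cnt a (P * m) : ℝ) / ((P * m : ℕ) : ℝ)
      - ((∑ J ∈ range m, g (τ J) : ℕ) : ℝ) / m / P| ≤ ε / 3 := by
    have h7 : cnt a (P * m) ≤ (∑ J ∈ range m, g (τ J)) + m * b.card := by
      rw [cnt_mul]
      calc _ ≤ ∑ J ∈ range m, (g (τ J) + b.card) := sum_le_sum fun J _ => (hg J).1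
        _ = _ := by rw [sum_add_distrib, sum_const, card_range, smul_eq_mul]
    have h8 : (∑ J ∈ range m, g (τ J)) ≤ cnt a (P * m) := by
      rw [cnt_mul]
      exact sum_le_sum fun J _ => (hg J).2
    have h7' : (cnt a (P * m) : ℝ) ≤ ((∑ J ∈ range m, g (τ J) : ℕ) : ℝ) + m * b.card := by
      exact_mod_cast h7
    have h8' : ((∑ J ∈ range m, g (τ J) : ℕ) : ℝ) ≤ cnt a (P * m) := by exact_mod_cast h8
    have h9 : (cnt a (P * m) : ℝ) / ((P * m : ℕ) : ℝ)
        - ((∑ J ∈ range m, g (τ J) : ℕ) : ℝ) / m / P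
        = ((cnt a (P * m) : ℝ) - ((∑ J ∈ range m, g (τ J) : ℕ) : ℝ)) / (m * P) := by
      rw [Nat.cast_mul, div_div, sub_div, mul_comm (P : ℝ)]
    rw [h9, abs_of_nonneg (div_nonneg (by linarith) (by positivity)),
      div_le_iff₀ (by positivity)]
    calc _ ≤ (m : ℝ) * b.card := by linarith
      _ ≤ m * (ε / 3 * P) := by gcongr
      _ = _ := by ring
  have h10 : |(cnt a n : ℝ) / n - L / P| ≤
      |(cnt a n : ℝ) / n - (cnt a (P * m) : ℝ) / ((P * m : ℕ) : ℝ)|
      + |(cnt a (P * m) : ℝ) / ((P * m : ℕ) : ℝ)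
      - ((∑ J ∈ range m, g (τ J) : ℕ) : ℝ) / m / P|
      + |((∑ J ∈ range m, g (τ J) : ℕ) : ℝ) / m / P - L / P| := by
    refine (le_trans (le_of_eq ?_) (abs_add_three _ _ _))
    congr 1; ring
  linarith [h5.le]

end Q196.PC
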