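import Pool.Agent.Q196.PC.Code

open Finset MeasureTheory ProbabilityTheory Filter Topology

namespace Q196.PC

instance borelZ : BorelSpace (ZMod 2) := ⟨borel_eq_top_of_discrete.symm⟩

lemma isClosed_G : IsClosed (G : Set (ℕ → ZMod 2)) := by
  have : (G : Set (ℕ → ZMod 2)) = ⋂ k, ⋂ J, ⋂ i, ⋂ _ : i < Nk k,
      {c | ∑ a ∈ range (Bk k), c (J * Nk (k + 1) + a * Nk k + i) = 0} := by
    ext c
    simp only [SetLike.mem_coe, mem_G, Set.mem_iInter, Set.mem_setOf_eq]
  rw [this]
  refine isClosed_iInter fun k => isClosed_iInter fun J => isClosed_iInter fun i =>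
    isClosed_iInter fun _ => ?_
  have h : Continuous fun c : ℕ → ZMod 2 =>
      ∑ a ∈ range (Bk k), c (J * Nk (k + 1) + a * Nk k + i) := by fun_prop
  exact isClosed_singleton.preimage h

instance : CompactSpace G := isCompact_iff_compactSpace.1 isClosed_G.isCompact

/-- The uniform probability on the code. -/
noncomputable def ν : Measure G := Measure.addHaarMeasure ⊤

instance : IsProbabilityMeasure ν := ⟨Measure.addHaarMeasure_self⟩
instance : ν.IsAddLeftInvariant := by unfold ν; infer_instance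

lemma fiber {α : Type*} [AddGroup α] [Finite α] (E : G →+ α)
    (hE : ∀ a, MeasurableSet (E ⁻¹' {a})) (h : α) (hh : h ∈ Set.range E) :
    ν (E ⁻¹' {h}) = ((Set.range E).ncard : ENNReal)⁻¹ := by
  classical
  have h1 : ∀ a ∈ Set.range E, ν (E ⁻¹' {a}) = ν (E ⁻¹' {0}) := by
    rintro a ⟨g, rfl⟩
    rw [← measure_preimage_add ν (-g) (E ⁻¹' {0})]
    congr 1
    ext x
    simp only [Set.mem_preimage, Set.mem_singleton_iff, map_add, map_neg]
    constructor
    · intro h; rw [h]; simp
    · intro h; rwa [neg_add_eq_zero, eq_comm] at h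
  have hfin := Set.toFinite (Set.range E)
  have h2 : ∑ a ∈ hfin.toFinset, ν (E ⁻¹' {a}) = 1 := by
    rw [sum_measure_preimage_singleton _ (fun a _ => hE a)]
    simp
  rw [sum_congr rfl (fun a ha => h1 a (by simpa using ha)), sum_const, nsmul_eq_mul] at h2
  rw [h1 h hh]
  rw [Set.ncard_eq_toFinset_card _ hfin]
  exact ENNReal.eq_inv_of_mul_eq_one_left (by rw [mul_comm]; exact h2)

/-- Evaluation of a block. -/
def ev (k J : ℕ) : G →+ (Fin (Nk k) → ZMod 2) where
  toFun g := blk g.1 k J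
  map_zero' := rfl
  map_add' _ _ := rfl

/-- Evaluation of two blocks. -/
def ev₂ (k J J' : ℕ) : G →+ (Fin (Nk k) → ZMod 2) × (Fin (Nk k) → ZMod 2) :=
  (ev k J).prod (ev k J')

lemma measurable_ev (k J : ℕ) : Measurable (ev k J) := by
  refine measurable_pi_iff.2 fun i => ?_
  exact (measurable_pi_apply (J * Nk k + i)).comp (measurable_subtype_coe (p := fun c => c ∈ G))

lemma measurable_ev₂ (k J J' : ℕ) : Measurable (ev₂ k J J') :=
  (measurable_ev k J).prodMk (measurable_ev k J')

/-- The set of admissible blocks. -/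
def Hset (k : ℕ) : Set (Fin (Nk k) → ZMod 2) := {u | ∃ c ∈ G, blk c k 0 = u}

lemma blk_mem_Hset {c : ℕ → ZMod 2} (hc : c ∈ G) (k J : ℕ) : blk c k J ∈ Hset k := by
  obtain ⟨c', hc', h1, -⟩ := exists_ext k c hc J 0 1 (by norm_num)
  exact ⟨c', hc', h1⟩

lemma range_ev (k J : ℕ) : Set.range (ev k J) = Hset k := by
  ext u
  constructor
  · rintro ⟨g, rfl⟩; exact blk_mem_Hset g.2 k J
  · rintro ⟨c, hc, rfl⟩
    obtain ⟨c', hc', h1, -⟩ := exists_ext k c hc 0 J (J + 1) (by omega)
    exact ⟨⟨c', hc'⟩, h1⟩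

lemma range_ev₂ (k J J' : ℕ) (h : J ≠ J') : Set.range (ev₂ k J J') = Hset k ×ˢ Hset k := by
  ext ⟨u, u'⟩
  constructor
  · rintro ⟨g, hg⟩
    have h1 := congrArg Prod.fst hg
    have h2 := congrArg Prod.snd hg
    exact ⟨h1 ▸ blk_mem_Hset g.2 k J, h2 ▸ blk_mem_Hset g.2 k J'⟩
  · rintro ⟨⟨c, hc, rfl⟩, ⟨d, hd, rfl⟩⟩
    obtain ⟨c', hc', h1, h2⟩ := exists_ext k c hc 0 J J' h
    obtain ⟨d', hd', h3, h4⟩ := exists_ext k d hd 0 J' J (Ne.symm h)
    refine ⟨⟨c', hc'⟩ + ⟨d', hd'⟩, Prod.ext ?_ ?_⟩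
    · show blk c' k J + blk d' k J = _
      rw [h1, h4, add_zero]
    · show blk c' k J' + blk d' k J' = _
      rw [h2, h3, zero_add]

lemma map_ev (k J : ℕ) (u : Fin (Nk k) → ZMod 2) (hu : u ∈ Hset k) :
    ν.map (ev k J) {u} = ((Hset k).ncard : ENNReal)⁻¹ := by
  rw [Measure.map_apply (measurable_ev k J) (measurableSet_singleton _),
    fiber (ev k J) (fun a => measurable_ev k J (measurableSet_singleton _)) u
      (by rw [range_ev]; exact hu), range_ev]

lemma map_ev' (k J : ℕ) (u : Fin (Nk k) → ZMod 2) (hu : u ∉ Hset k) :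
    ν.map (ev k J) {u} = 0 := by
  rw [Measure.map_apply (measurable_ev k J) (measurableSet_singleton _)]
  have : ev k J ⁻¹' {u} = ∅ := by
    ext g
    simp only [Set.mem_preimage, Set.mem_singleton_iff, Set.mem_empty_iff_false, iff_false]
    intro h
    exact hu (h ▸ blk_mem_Hset g.2 k J)
  rw [this, measure_empty]

lemma indep_ev (k J J' : ℕ) (h : J ≠ J') : (ev k J) ⟂ᵢ[ν] (ev k J') := by
  rw [indepFun_iff_map_prod_eq_prod_map_map (measurable_ev k J).aemeasurable
    (measurable_ev k J').aemeasurable]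
  refine Measure.ext_of_singleton ?_
  rintro ⟨u, u'⟩
  have h0 : ({(u, u')} : Set ((Fin (Nk k) → ZMod 2) × (Fin (Nk k) → ZMod 2))) = {u} ×ˢ {u'} := by
    simp
  have h1 : (fun ω => (ev k J ω, ev k J' ω)) = ev₂ k J J' := rfl
  rw [h1]
  conv_rhs => rw [h0, Measure.prod_prod]
  by_cases hu : u ∈ Hset k
  · by_cases hu' : u' ∈ Hset k
    · rw [map_ev _ _ _ hu, map_ev _ _ _ hu',
        Measure.map_apply (measurable_ev₂ k J J') (measurableSet_singleton _),
        fiber (ev₂ k J J') (fun a => measurable_ev₂ k J J' (measurableSet_singleton _)) _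
          (by rw [range_ev₂ _ _ _ h]; exact ⟨hu, hu'⟩), range_ev₂ _ _ _ h, Set.ncard_prod]
      push_cast
      exact ENNReal.mul_inv (Or.inr (by simp)) (Or.inl (by simp))
    · rw [map_ev' _ _ _ hu', mul_zero,
        Measure.map_apply (measurable_ev₂ k J J') (measurableSet_singleton _)]
      have : ev₂ k J J' ⁻¹' {(u, u')} = ∅ := by
        ext g
        simp only [Set.mem_preimage, Set.mem_singleton_iff, Set.mem_empty_iff_false, iff_false]
        intro h
        have h5 : ev k J' g = u' := congrArg Prod.snd h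
        exact hu' (h5 ▸ blk_mem_Hset g.2 k J')
      rw [this, measure_empty]
  · rw [map_ev' _ _ _ hu, zero_mul,
      Measure.map_apply (measurable_ev₂ k J J') (measurableSet_singleton _)]
    have : ev₂ k J J' ⁻¹' {(u, u')} = ∅ := by
      ext g
      simp only [Set.mem_preimage, Set.mem_singleton_iff, Set.mem_empty_iff_false, iff_false]
      intro h
      have h5 : ev k J g = u := congrArg Prod.fst h
      exact hu (h5 ▸ blk_mem_Hset g.2 k J)
    rw [this, measure_empty]

lemma ident_ev (k J : ℕ) : IdentDistrib (ev k J) (ev k 0) ν ν := by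
  refine ⟨(measurable_ev k J).aemeasurable, (measurable_ev k 0).aemeasurable, ?_⟩
  refine Measure.ext_of_singleton fun u => ?_
  by_cases hu : u ∈ Hset k
  · rw [map_ev _ _ _ hu, map_ev _ _ _ hu]
  · rw [map_ev' _ _ _ hu, map_ev' _ _ _ hu]

open Classical in
/-- The frequency of a block. -/
noncomputable def prH (k : ℕ) (u : Fin (Nk k) → ZMod 2) : ℝ :=
  if u ∈ Hset k then ((Hset k).ncard : ℝ)⁻¹ else 0

open Classical in
lemma slln (k : ℕ) (u : Fin (Nk k) → ZMod 2) :
    ∀ᵐ g ∂ν, Tendsto (fun n : ℕ => (((range n).filter (fun J => blk g.1 k J = u)).card : ℝ) / n)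
      atTop (𝓝 (prH k u)) := by
  let φ : (Fin (Nk k) → ZMod 2) → ℝ := fun v => if v = u then 1 else 0
  have hφ : Measurable φ := measurable_of_countable _
  have h1 := strong_law_ae_real (μ := ν) (fun J => φ ∘ (ev k J))
    (by
      refine Integrable.mono' (g := fun _ => (1 : ℝ)) (integrable_const _)
        (hφ.comp (measurable_ev k 0)).aestronglyMeasurable (Eventually.of_forall fun g => ?_)
      simp only [Function.comp, φ]
      split_ifs <;> simp)
    (fun J J' h => (indep_ev k J J' h).comp hφ hφ)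
    (fun J => (ident_ev k J).comp hφ)
  have h2 : ν[φ ∘ (ev k 0)] = prH k u := by
    have h3 : (φ ∘ ev k 0) = (ev k 0 ⁻¹' {u}).indicator (fun _ => (1 : ℝ)) := by
      funext g
      simp only [Function.comp, φ, Set.indicator, Set.mem_preimage, Set.mem_singleton_iff]
    rw [h3, integral_indicator (measurable_ev k 0 (measurableSet_singleton _))]
    simp only [integral_const, MeasurableSet.univ, measureReal_restrict_apply, Set.univ_inter,
      smul_eq_mul, mul_one]
    rw [measureReal_def, ← Measure.map_apply (measurable_ev k 0) (measurableSet_singleton _)]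
    unfold prH
    split_ifs with hu
    · rw [map_ev _ _ _ hu]; simp
    · rw [map_ev' _ _ _ hu]; simp
  rw [h2] at h1
  filter_upwards [h1] with g hg
  refine hg.congr fun n => ?_
  congr 1
  rw [card_filter]
  push_cast
  rfl

open Classical in
theorem exists_code : ∃ c ∈ G, ∀ (k : ℕ) (u : Fin (Nk k) → ZMod 2),
    Tendsto (fun n : ℕ => (((range n).filter (fun J => blk c k J = u)).card : ℝ) / n)
      atTop (𝓝 (prH k u)) := by
  have h : ∀ᵐ g ∂ν, ∀ (k : ℕ) (u : Fin (Nk k) → ZMod 2),
      Tendsto (fun n : ℕ => (((range n).filter (fun J => blk g.1 k J = u)).card : ℝ) / n)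
      atTop (𝓝 (prH k u)) := by
    rw [ae_all_iff]; intro k
    rw [ae_all_iff]; intro u
    exact slln k u
  obtain ⟨g, hg⟩ := h.exists
  exact ⟨g.1, g.2, hg⟩

end Q196.PC
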