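import Pool.Agent.Q196.PC.Decode
import Pool.Agent.Q196.PC.Dist

open Finset Filter Topology

namespace Q196.PC

theorem rec_qf {c : ℕ → ZMod 2} (hc : c ∈ G) : Rec (qf c) := by
  classical
  intro ℓ ε hε
  have hq2 : ∀ n, 2 ≤ qf c n := fun n => qs_two_le c _
  -- choose `k`
  obtain ⟨k, hk1, hk2⟩ : ∃ k, ((1 : ℝ) / 2) ^ k ≤ ε / 8 ∧ ((ℓ : ℝ) + 3) ≤ ε / 8 * (3 * Nk k) := by
    have h1 := (tendsto_pow_atTop_nhds_zero_of_lt_one (show (0 : ℝ) ≤ 1 / 2 by norm_num)
      (by norm_num)).eventually (gt_mem_nhds (show (0 : ℝ) < ε / 8 by linarith))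
    obtain ⟨K, hK⟩ := eventually_atTop.1 h1
    obtain ⟨m, hm⟩ := exists_nat_ge (((ℓ : ℝ) + 3) / (ε / 8))
    rw [div_le_iff₀ (by linarith)] at hm
    refine ⟨max K m, (hK _ (le_max_left _ _)).le, ?_⟩
    have h2 : (m : ℝ) ≤ Nk (max K m) := by
      have : m ≤ Nk (max K m) := by
        calc m ≤ 2 ^ m := Nat.lt_two_pow_self.le
          _ ≤ 2 ^ (max K m) := Nat.pow_le_pow_right (by norm_num) (le_max_right _ _)
          _ ≤ _ := two_pow_le_Nk _
      exact_mod_cast this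
    have h3 : (0 : ℝ) ≤ Nk (max K m) := by positivity
    nlinarith
  obtain ⟨R, hR⟩ : ∃ R : ℕ, ((1 : ℝ) + Nk (k + 1)) * (1 / 256) ^ R ≤ ε / 8 := by
    have h1 := (tendsto_pow_atTop_nhds_zero_of_lt_one (show (0 : ℝ) ≤ 1 / 256 by norm_num)
      (by norm_num)).const_mul ((1 : ℝ) + Nk (k + 1))
    rw [mul_zero] at h1
    obtain ⟨R, hR⟩ := (h1.eventually (gt_mem_nhds (show (0 : ℝ) < ε / 8 by linarith))).exists
    exact ⟨R, hR.le⟩
  obtain ⟨W, hW⟩ : ∃ W, W = 3 * (R * Nk (k + 1)) + 3 + 6 * Nk k + ℓ + 3 * Nk (k + 1) := ⟨_, rfl⟩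
  refine ⟨3 * Nk k, W, by omega, ?_⟩
  obtain ⟨P, hP⟩ : ∃ P, P = 3 * Nk k := ⟨_, rfl⟩
  have hPpos : 0 < P := by have := Nk_pos k; omega
  let bad : ℕ → Prop := fun p => ¬ (3 ≤ p % P ∧ p % P + ℓ ≤ P)
  have hpr : ∀ j, pr (qf c) j (fun D : Fin W → ℕ => ¬ GoodD (qf c) ℓ (3 * Nk k) W D)
      ≤ ε / 4 + if bad (j + 3) then 1 else 0 := by
    intro j
    split_ifs with h
    · have := pr_le_one (qf c) hq2 j (fun D : Fin W → ℕ => ¬ GoodD (qf c) ℓ (3 * Nk k) W D)
      linarith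
    · simp only [bad, not_not] at h
      rw [hP] at h
      have := decode hc k R ℓ j W hW h.1 h.2
      have h3 : ((1 : ℝ) / 256) ^ R + (Nk (k + 1) * (1 / 256) ^ R + (1 / 2) ^ k)
        = ((1 : ℝ) + Nk (k + 1)) * (1 / 256) ^ R + (1 / 2) ^ k := by ring
      rw [h3] at this
      linarith
  have hbadcnt : ∀ m, cnt bad (P * m) ≤ m * (ℓ + 3) := by
    intro m
    rw [cnt_mul]
    refine (sum_le_card_nsmul _ _ (ℓ + 3) fun J _ => ?_).trans (by simp)
    have h1 := cnt_le_add (a := fun r => bad (P * J + r)) (b := fun _ => False) P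
      (range 3 ∪ Finset.Ico (P - ℓ) P) (by
        intro r hr hb
        right
        simp only [bad, Nat.mul_add_mod, Nat.mod_eq_of_lt hr] at hb
        rw [mem_union, mem_range, Finset.mem_Ico]
        by_contra hcon
        push Not at hcon
        apply hb
        omega)
    have h2 : cnt (fun _ => False) P = 0 := by unfold cnt; simp
    rw [h2, zero_add] at h1
    refine h1.trans ((card_union_le _ _).trans ?_)
    rw [card_range, Nat.card_Ico]
    omega
  have hbadsum : ∀ n, ∑ j ∈ Icc 1 n, (if bad (j + 3) then (1 : ℝ) else 0) ≤ cnt bad (n + 4) := by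
    intro n
    have h1 : ∑ j ∈ Icc 1 n, (if bad (j + 3) then (1 : ℝ) else 0)
        = (((Icc 1 n).filter (fun j => bad (j + 3))).card : ℝ) := by
      rw [card_filter]; push_cast; rfl
    rw [h1, cnt_eq]
    have : ((Icc 1 n).filter (fun j => bad (j + 3))).card
        ≤ ((range (n + 4)).filter bad).card := by
      refine card_le_card_of_injOn (fun j => j + 3) ?_ (fun a _ b _ h => by
        simp only at h; omega)
      intro j hj
      have hj' := mem_coe.1 hj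
      rw [mem_filter, mem_Icc] at hj'
      rw [mem_coe, mem_filter, mem_range]
      exact ⟨(by show j + 3 < n + 4; omega), hj'.2⟩
    exact_mod_cast this
  have hPr : (0 : ℝ) < P := by exact_mod_cast hPpos
  filter_upwards [eventually_ge_atTop (P + 4)] with n hn
  have h1 : ∑ j ∈ Icc 1 n, pr (qf c) j (fun D : Fin W → ℕ => ¬ GoodD (qf c) ℓ (3 * Nk k) W D)
      ≤ ε / 4 * n + cnt bad (n + 4) := by
    refine (sum_le_sum fun j _ => hpr j).trans ?_
    rw [sum_add_distrib, sum_const, Nat.card_Icc, nsmul_eq_mul]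
    have := hbadsum n
    simp only [Nat.add_sub_cancel]
    linarith
  have h2 : (cnt bad (n + 4) : ℝ) ≤ ε / 4 * n := by
    set m := (n + 4) / P + 1 with hm
    have h3 : n + 4 ≤ P * m := by
      have := Nat.div_add_mod (n + 4) P
      have h4 := Nat.mod_lt (n + 4) hPpos
      rw [hm, Nat.mul_add]
      omega
    have h4 : P * m ≤ n + 4 + P := by
      have := Nat.mul_div_le (n + 4) P
      rw [hm, Nat.mul_add]
      omega
    have h5 : cnt bad (n + 4) ≤ m * (ℓ + 3) := (cnt_mono bad h3).trans (hbadcnt m)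
    have h5' : (cnt bad (n + 4) : ℝ) ≤ m * (ℓ + 3) := by exact_mod_cast h5
    have h4' : (P : ℝ) * m ≤ n + 4 + P := by exact_mod_cast h4
    have h6 : ((ℓ : ℝ) + 3) ≤ ε / 8 * P := by rw [hP]; push_cast; exact hk2
    have hn' : (P : ℝ) + 4 ≤ n := by exact_mod_cast hn
    calc (cnt bad (n + 4) : ℝ) ≤ m * (ℓ + 3) := h5'
      _ ≤ m * (ε / 8 * P) := by gcongr
      _ = ε / 8 * (P * m) := by ring
      _ ≤ ε / 8 * (n + 4 + P) := by gcongr
      _ ≤ ε / 8 * (n + n) := by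
          have : (n : ℝ) + 4 + P ≤ n + n := by linarith
          gcongr
      _ = ε / 4 * n := by ring
  have h3 : (0 : ℝ) ≤ n := by positivity
  nlinarith

open Classical in
lemma un_of_star (q : ℕ → ℕ) (h2 : ∀ n, 2 ≤ q n) (x : ℕ → ℕ)
    (hfreq : ∀ (ℓ : ℕ) (B : Fin ℓ → ℕ), (∃ j, ∀ i : Fin ℓ, q (j + i) = B i) →
      ∃ p : ℝ, 0 < p ∧ ∀ᶠ n : ℕ in atTop,
        p * n ≤ (((Icc 1 n).filter (fun j => ∀ i : Fin ℓ, q (j + i) = B i)).card : ℝ))
    (hstar : ∀ (ℓ : ℕ) (D B : Fin ℓ → ℕ) (ε : ℝ), 0 < ε →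
      ∀ᶠ n : ℕ in atTop, |NCount₂ q x D B n - QCount₂ q D B n| ≤ ε * n)
    (ℓ : ℕ) (D B : Fin ℓ → ℕ) (hQ : Tendsto (QCount₂ q D B) atTop atTop) :
    Tendsto (fun n => NCount₂ q x D B n / QCount₂ q D B n) atTop (𝓝 1) := by
  -- there is an admissible occurrence
  obtain ⟨n0, hn0⟩ := (hQ.eventually_gt_atTop 0).exists
  have hex : ∃ j, (∀ i : Fin ℓ, q (j + i) = B i) ∧ ∀ i : Fin ℓ, D i < q (j + i) := by
    by_contra hcon
    push Not at hcon
    have : QCount₂ q D B n0 = 0 := by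
      unfold QCount₂
      refine sum_eq_zero fun j hj => ?_
      rw [mem_filter] at hj
      obtain ⟨i, hi⟩ := hcon j hj.2
      exact if_neg fun h => by have := h i; omega
    linarith
  obtain ⟨j0, hj0, hj0'⟩ := hex
  have hDB : ∀ i, D i < B i := fun i => by rw [← hj0 i]; exact hj0' i
  have hB2 : ∀ i, 2 ≤ B i := fun i => by rw [← hj0 i]; exact h2 _
  have hBpos : 0 < ∏ i : Fin ℓ, (B i : ℝ) := by
    refine prod_pos fun i _ => ?_
    have := hB2 i
    exact_mod_cast (by omega : 0 < B i)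
  have hQeq : ∀ n, QCount₂ q D B n
      = (((Icc 1 n).filter (fun j => ∀ i : Fin ℓ, q (j + i) = B i)).card : ℝ)
        * (∏ i : Fin ℓ, (B i : ℝ))⁻¹ := by
    intro n
    unfold QCount₂
    rw [← nsmul_eq_mul, ← sum_const]
    refine sum_congr rfl fun j hj => ?_
    rw [mem_filter] at hj
    exact if_pos fun i => by rw [hj.2 i]; exact hDB i
  obtain ⟨p, hp, hpn⟩ := hfreq ℓ B ⟨j0, hj0⟩
  set κ := p * (∏ i : Fin ℓ, (B i : ℝ))⁻¹ with hκ
  have hκ0 : 0 < κ := by positivity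
  rw [Metric.tendsto_atTop']
  intro ε hε
  have h1 := hstar ℓ D B (ε / 2 * κ) (by positivity)
  obtain ⟨N, hN⟩ := eventually_atTop.1 (h1.and hpn)
  refine ⟨max N 1, fun n hn => ?_⟩
  obtain ⟨h3, h4⟩ := hN n (by omega)
  have hn0 : (0 : ℝ) < n := by exact_mod_cast (by omega : 0 < n)
  have h5 : κ * n ≤ QCount₂ q D B n := by
    rw [hQeq, hκ]
    calc _ = p * n * (∏ i : Fin ℓ, (B i : ℝ))⁻¹ := by ring
      _ ≤ _ := by gcongr
  have h6 : 0 < QCount₂ q D B n := lt_of_lt_of_le (by positivity) h5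
  rw [Real.dist_eq]
  have h7 : NCount₂ q x D B n / QCount₂ q D B n - 1
      = (NCount₂ q x D B n - QCount₂ q D B n) / QCount₂ q D B n := by
    field_simp
  rw [h7, abs_div, abs_of_pos h6, div_lt_iff₀ h6]
  calc _ ≤ ε / 2 * κ * n := h3
    _ = ε / 2 * (κ * n) := by ring
    _ ≤ ε / 2 * QCount₂ q D B n := by gcongr
    _ < ε * QCount₂ q D B n := by nlinarith

/-- There is a nondeterministic dynamically generated basic sequence for which every normal number
is uniformly normal and distribution normal. -/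
theorem main : ∃ q : ℕ → ℕ, (∀ n, 2 ≤ q n) ∧ NonDeterministic q ∧
    normalSet q ⊆ uniformNormalSet q ∧ normalSet q ⊆ distNormalSet q := by
  classical
  obtain ⟨c, hc, hfr0⟩ := exists_code
  have hfr : ∀ (k : ℕ) (u : Fin (Nk k) → ZMod 2),
      Tendsto (fun n : ℕ => (cnt (fun J => blk c k J = u) n : ℝ) / n) atTop (𝓝 (prH k u)) := by
    intro k u
    simp only [cnt_eq]
    exact hfr0 k u
  have hq2 : ∀ n, 2 ≤ qf c n := fun n => qs_two_le c _
  have hqM : ∀ n, qf c n < 2 ^ 25 := fun n => qs_lt c _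
  have hfreq : ∀ (ℓ : ℕ) (B : Fin ℓ → ℕ), (∃ j, ∀ i : Fin ℓ, qf c (j + i) = B i) →
      ∃ p : ℝ, 0 < p ∧ ∀ᶠ n : ℕ in atTop,
        p * n ≤ (((Icc 1 n).filter (fun j => ∀ i : Fin ℓ, qf c (j + i) = B i)).card : ℝ) := by
    intro ℓ B hB
    obtain ⟨p, hp⟩ := freq_exists c hfr ℓ B
    have hppos := freq_pos hc hfr ℓ B p hp hB
    refine ⟨p / 4, by linarith, ?_⟩
    have h1 := (tendsto_order.1 hp).1 (p / 2) (by linarith)
    have h2 : ∀ᶠ n : ℕ in atTop, (1 : ℝ) ≤ p / 4 * n := by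
      have := (tendsto_natCast_atTop_atTop (R := ℝ)).const_mul_atTop
        (show 0 < p / 4 by linarith)
      exact this.eventually_ge_atTop _
    filter_upwards [h1, h2, eventually_gt_atTop 0] with n hn1 hn2 hn3
    have hn0 : (0 : ℝ) < n := by exact_mod_cast hn3
    rw [lt_div_iff₀ hn0] at hn1
    have h3 : cnt (fun j => ∀ i : Fin ℓ, qf c (j + i) = B i) n
        ≤ ((Icc 1 n).filter (fun j => ∀ i : Fin ℓ, qf c (j + i) = B i)).card + 1 := by
      rw [cnt_eq]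
      have : (range n).filter (fun j => ∀ i : Fin ℓ, qf c (j + i) = B i)
          ⊆ insert 0 ((Icc 1 n).filter (fun j => ∀ i : Fin ℓ, qf c (j + i) = B i)) := by
        intro j hj
        rw [mem_filter, mem_range] at hj
        rw [mem_insert, mem_filter, mem_Icc]
        rcases Nat.eq_zero_or_pos j with h | h
        · exact Or.inl h
        · exact Or.inr ⟨⟨h, hj.1.le⟩, hj.2⟩
      exact (card_le_card this).trans (card_insert_le _ _)
    have h3' : (cnt (fun j => ∀ i : Fin ℓ, qf c (j + i) = B i) n : ℝ)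
        ≤ ((Icc 1 n).filter (fun j => ∀ i : Fin ℓ, qf c (j + i) = B i)).card + 1 := by
      exact_mod_cast h3
    linarith
  refine ⟨qf c, hq2, nonDet hc hfr, ?_, ?_⟩
  · rintro t ⟨ht, x, hx, hN⟩
    exact ⟨ht, x, hx, un_of_star (qf c) hq2 x hfreq
      (fun ℓ D B ε hε => star (qf c) (2 ^ 25) hq2 hqM (rec_qf hc) x hx.1 hN D B ε hε)⟩
  · rintro t ⟨ht, x, hx, hN⟩
    exact dist_of_star (qf c) (2 ^ 25) hq2 hqM x t ht hx
      (fun ℓ D B ε hε => star (qf c) (2 ^ 25) hq2 hqM (rec_qf hc) x hx.1 hN D B ε hε)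

end Q196.PC
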