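import Pool.Agent.Q196.PC.Defs

open Finset Filter Topology

namespace Q196.PC

lemma shift_one (f : ℕ → ℝ) (n : ℕ) :
    ∑ j ∈ Icc 1 n, f (j + 1) - ∑ j ∈ Icc 1 n, f j = f (n + 1) - f 1 := by
  induction n with
  | zero => simp
  | succ n ih =>
    rw [sum_Icc_succ_top (by omega), sum_Icc_succ_top (by omega)]
    linarith

lemma shift_close (f : ℕ → ℝ) (h0 : ∀ j, 0 ≤ f j) (h1 : ∀ j, f j ≤ 1) (L n : ℕ) :
    |∑ j ∈ Icc 1 n, f (j + L) - ∑ j ∈ Icc 1 n, f j| ≤ L := by
  induction L with
  | zero => simp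
  | succ L ih =>
    have h2 := shift_one (fun j => f (j + L)) n
    have h3 : ∑ j ∈ Icc 1 n, f (j + (L + 1)) = ∑ j ∈ Icc 1 n, (fun j => f (j + L)) (j + 1) := by
      refine sum_congr rfl fun j _ => ?_
      show _ = f (j + 1 + L)
      congr 1; omega
    rw [h3]
    have h4 : |∑ j ∈ Icc 1 n, (fun j => f (j + L)) (j + 1) - ∑ j ∈ Icc 1 n, f (j + L)| ≤ 1 := by
      rw [h2, abs_le]
      have a1 := h0 (n + 1 + L)
      have a2 := h1 (n + 1 + L)
      have a3 := h0 (1 + L)
      have a4 := h1 (1 + L)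
      constructor <;> linarith
    have h5 : ∑ j ∈ Icc 1 n, (fun j => f (j + L)) (j + 1) - ∑ j ∈ Icc 1 n, f j
        = (∑ j ∈ Icc 1 n, (fun j => f (j + L)) (j + 1) - ∑ j ∈ Icc 1 n, f (j + L))
          + (∑ j ∈ Icc 1 n, f (j + L) - ∑ j ∈ Icc 1 n, f j) := by ring
    rw [h5]
    refine (abs_add_le _ _).trans ?_
    push_cast
    linarith

open Classical in
lemma center_count {W ℓ L : ℕ} (hW : L + ℓ ≤ W) (a : Fin W → ℕ) (ha : ∀ i, 0 < a i)
    (D' : Fin ℓ → ℕ) :
    (((Fintype.piFinset (fun i : Fin W => range (a i))).filter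
      (fun D => ∀ i : Fin ℓ, D ⟨L + i, by have := i.2; omega⟩ = D' i)).card : ℝ)
        * (∏ i, (a i : ℝ))⁻¹
      = if ∀ i : Fin ℓ, D' i < a ⟨L + i, by have := i.2; omega⟩ then
          (∏ i : Fin ℓ, (a ⟨L + i, by have := i.2; omega⟩ : ℝ))⁻¹ else 0 := by
  let e : Fin ℓ → Fin W := fun i => ⟨L + i, by have := i.2; omega⟩
  have he : Function.Injective e := by
    intro i j h
    have := congrArg Fin.val h
    simp only [e] at this
    exact Fin.ext (by omega)
  -- choose preimages
  let s : Fin W → Finset ℕ := fun i =>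
    if h : ∃ k, e k = i then (range (a i)).filter (fun m => m = D' h.choose) else range (a i)
  have hs : (Fintype.piFinset (fun i : Fin W => range (a i))).filter
      (fun D => ∀ i : Fin ℓ, D (e i) = D' i) = Fintype.piFinset s := by
    ext D
    simp only [mem_filter, Fintype.mem_piFinset, s]
    constructor
    · rintro ⟨h1, h2⟩ i
      split_ifs with h
      · rw [mem_filter]
        refine ⟨h1 i, ?_⟩
        have := h.choose_spec
        rw [← h2, this]
      · exact h1 i
    · intro h
      refine ⟨fun i => ?_, fun k => ?_⟩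
      · have := h i
        split_ifs at this with h'
        · exact (mem_filter.1 this).1
        · exact this
      · have h1 := h (e k)
        have h' : ∃ k', e k' = e k := ⟨k, rfl⟩
        rw [dif_pos h', mem_filter] at h1
        rw [h1.2, he h'.choose_spec]
  show (((Fintype.piFinset (fun i : Fin W => range (a i))).filter
      (fun D => ∀ i : Fin ℓ, D (e i) = D' i)).card : ℝ) * (∏ i, (a i : ℝ))⁻¹
      = if ∀ i : Fin ℓ, D' i < a (e i) then (∏ i : Fin ℓ, (a (e i) : ℝ))⁻¹ else 0
  rw [hs, Fintype.card_piFinset, Nat.cast_prod, ← prod_inv_distrib, ← prod_mul_distrib]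
  rw [← Fintype.prod_of_injective e he
    (fun i : Fin ℓ => if D' i < a (e i) then ((a (e i) : ℝ))⁻¹ else 0)]
  · split_ifs with h
    · rw [← prod_inv_distrib]
      exact prod_congr rfl fun i _ => by rw [if_pos (h i)]
    · push Not at h
      obtain ⟨i, hi⟩ := h
      exact prod_eq_zero (mem_univ i) (if_neg (by omega))
  · intro i hi
    have h : ¬ ∃ k, e k = i := hi
    simp only [s, dif_neg h, card_range]
    have := ha i
    field_simp
  · intro i
    have h' : ∃ k', e k' = e i := ⟨i, rfl⟩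
    have h1 : h'.choose = i := he h'.choose_spec
    simp only [s, dif_pos h', h1]
    split_ifs with h
    · have : (range (a (e i))).filter (fun m => m = D' i) = {D' i} := by
        ext m; simp only [mem_filter, mem_range, mem_singleton]
        exact ⟨fun h => h.2, fun h' => ⟨h' ▸ h, h'⟩⟩
      rw [this]; simp
    · have : (range (a (e i))).filter (fun m => m = D' i) = ∅ := by
        ext m; simp only [mem_filter, mem_range, notMem_empty, iff_false]
        rintro ⟨h1, rfl⟩; exact h h1
      rw [this]; simp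

/-- `D` determines the centre block. -/
def GoodD (q : ℕ → ℕ) (ℓ L W : ℕ) (D : Fin W → ℕ) : Prop :=
  ∀ j j', (∀ i : Fin W, D i < q (j + i)) → (∀ i : Fin W, D i < q (j' + i)) →
    ∀ i < ℓ, q (j + L + i) = q (j' + L + i)

open Classical in
/-- Probability of a digit window at `j`. -/
noncomputable def pr (q : ℕ → ℕ) (j : ℕ) {W : ℕ} (A : (Fin W → ℕ) → Prop) : ℝ :=
  (((Fintype.piFinset (fun i : Fin W => range (q (j + i)))).filter A).card : ℝ)
    * (∏ i : Fin W, (q (j + i) : ℝ))⁻¹

/-- The digits determine the basic sequence in density. -/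
def Rec (q : ℕ → ℕ) : Prop := ∀ (ℓ : ℕ) (ε : ℝ), 0 < ε → ∃ L W : ℕ, L + ℓ ≤ W ∧
  ∀ᶠ n : ℕ in atTop, ∑ j ∈ Icc 1 n, pr q j (fun D : Fin W → ℕ => ¬ GoodD q ℓ L W D) ≤ ε * n

lemma QCount_le (q : ℕ → ℕ) (h2 : ∀ n, 2 ≤ q n) {ℓ : ℕ} (D : Fin ℓ → ℕ) (n : ℕ) :
    QCount q D n ≤ n := by
  classical
  unfold QCount
  refine (sum_le_card_nsmul _ _ 1 fun j _ => ?_).trans (by simp)
  split_ifs
  · refine inv_le_one_of_one_le₀ ?_
    have : (1 : ℝ) = ∏ i : Fin ℓ, (1 : ℝ) := by simp
    rw [this]
    refine prod_le_prod (fun _ _ => by norm_num) fun i _ => ?_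
    have := h2 (j + i)
    exact_mod_cast (by omega : 1 ≤ q (j + i))
  · norm_num

lemma QCount_nonneg (q : ℕ → ℕ) {ℓ : ℕ} (D : Fin ℓ → ℕ) (n : ℕ) : 0 ≤ QCount q D n := by
  classical
  unfold QCount
  refine sum_nonneg fun j _ => ?_
  split_ifs <;> positivity

lemma QCount_mono (q : ℕ → ℕ) {ℓ : ℕ} (D : Fin ℓ → ℕ) : Monotone (QCount q D) := by
  classical
  intro m n h
  unfold QCount
  refine sum_le_sum_of_subset_of_nonneg (Icc_subset_Icc_right h) fun j _ _ => ?_
  split_ifs <;> positivity

/-- For every block the number of occurrences is `Q_n(D) + o(n)`. -/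
lemma count_close (q : ℕ → ℕ) (M : ℕ) (h2 : ∀ n, 2 ≤ q n) (hM : ∀ n, q n < M) (x : ℕ → ℕ)
    (hx : ∀ n, 1 ≤ n → x n < q n) {ℓ : ℕ} (D : Fin ℓ → ℕ)
    (hN : Tendsto (QCount q D) atTop atTop →
      Tendsto (fun n => NCount x D n / QCount q D n) atTop (𝓝 1)) (ε : ℝ) (hε : 0 < ε) :
    ∀ᶠ n : ℕ in atTop, |NCount x D n - QCount q D n| ≤ ε * n := by
  classical
  rcases tendsto_of_monotone (QCount_mono q D) with h | ⟨l, hl⟩
  · have h1 := (Metric.tendsto_atTop.1 (hN h)) ε hε
    obtain ⟨N, hN1⟩ := h1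
    filter_upwards [eventually_ge_atTop N, h.eventually_gt_atTop 0] with n hn hpos
    have h3 := hN1 n hn
    rw [Real.dist_eq] at h3
    have h4 : NCount x D n - QCount q D n
        = (NCount x D n / QCount q D n - 1) * QCount q D n := by
      field_simp
    rw [h4, abs_mul, abs_of_pos hpos]
    have h5 := QCount_le q h2 D n
    calc _ ≤ ε * QCount q D n := by gcongr
      _ ≤ ε * n := by gcongr
  · -- bounded case
    have hbd : ∀ n, QCount q D n ≤ l := fun n => (QCount_mono q D).ge_of_tendsto hl n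
    have hMpos : (0 : ℝ) < M := by
      have h1 := hM 0
      have h3 := h2 0
      exact_mod_cast (by omega : 0 < M)
    have hNle : ∀ n, NCount x D n ≤ M ^ ℓ * QCount q D n := by
      intro n
      unfold NCount QCount
      rw [card_filter, mul_sum]
      push_cast
      refine sum_le_sum fun j hj => ?_
      split_ifs with ha hb
      · have h3 : ∏ i : Fin ℓ, (q (j + i) : ℝ) ≤ M ^ ℓ := by
          calc _ ≤ ∏ _i : Fin ℓ, (M : ℝ) := by
                refine prod_le_prod (fun _ _ => by positivity) fun i _ => ?_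
                exact_mod_cast (hM _).le
            _ = _ := by simp
        have h4 : 0 < ∏ i : Fin ℓ, (q (j + i) : ℝ) := by
          refine prod_pos fun i _ => ?_
          have := h2 (j + i)
          exact_mod_cast (by omega : 0 < q (j + i))
        rw [← div_eq_mul_inv, le_div_iff₀ h4, one_mul]
        exact h3
      · exfalso
        apply hb
        intro i
        rw [← ha i]
        exact hx _ (by have := (mem_Icc.1 hj).1; omega)
      · positivity
      · simp
    set C := |M ^ ℓ * l| + |l| with hC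
    have h4 : ∀ᶠ n : ℕ in atTop, C ≤ ε * n := by
      have := (tendsto_natCast_atTop_atTop (R := ℝ)).const_mul_atTop hε
      exact this.eventually_ge_atTop C
    filter_upwards [h4] with n hn
    refine le_trans ?_ hn
    have h5 := hNle n
    have h6 := hbd n
    have h7 := QCount_nonneg q D n
    have h8 : 0 ≤ NCount x D n := by unfold NCount; positivity
    have h9 : (M : ℝ) ^ ℓ * QCount q D n ≤ M ^ ℓ * l := by gcongr
    have h10 := le_abs_self ((M : ℝ) ^ ℓ * l)
    have h11 := le_abs_self l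
    have h12 := abs_nonneg ((M : ℝ) ^ ℓ * l)
    have h13 := abs_nonneg l
    rw [abs_le]
    constructor <;> linarith

end Q196.PC
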