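import Pool.Agent.Q196.PC.Freq
import Pool.Agent.Q196.PC.Card
import Pool.Agent.Q196.PC.Ent

open Finset Filter Topology

namespace Q196.PC

open Classical in
/-- The structure marks. -/
noncomputable def mk (n : ℕ) : ℕ :=
  if ∃ g, Even g ∧ Nk g ∣ n ∧ ¬ Nk (g + 1) ∣ n then 2 ^ 24 else 2 ^ 16

lemma mk_block (k J i : ℕ) (h0 : 0 < i) (hi : i < Nk k) : mk (J * Nk k + i) = mk i := by
  classical
  have h : (∃ g, Even g ∧ Nk g ∣ (J * Nk k + i) ∧ ¬ Nk (g + 1) ∣ (J * Nk k + i)) ↔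
      (∃ g, Even g ∧ Nk g ∣ i ∧ ¬ Nk (g + 1) ∣ i) := by
    refine exists_congr fun g => and_congr_right fun _ => ?_
    rcases lt_or_ge g k with hg | hg
    · rw [Nat.dvd_add_right (Dvd.dvd.mul_left (Nk_dvd hg.le) J),
        Nat.dvd_add_right (Dvd.dvd.mul_left (Nk_dvd (show g + 1 ≤ k from hg)) J)]
    · have h1 : ¬ Nk g ∣ i := fun hd =>
        absurd (Nat.le_of_dvd h0 ((Nk_dvd hg).trans hd)) (by omega)
      have h2 : ¬ Nk g ∣ (J * Nk k + i) := fun hd => by
        have := (Nk_dvd hg).trans hd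
        rw [Nat.dvd_add_right (Dvd.intro_left J rfl)] at this
        exact absurd (Nat.le_of_dvd h0 this) (by omega)
      tauto
  unfold mk
  simp only [h]

lemma mk_or (n : ℕ) : mk n = 2 ^ 24 ∨ mk n = 2 ^ 16 := by
  unfold mk; split_ifs <;> simp

/-- The sequence before the shift. -/
noncomputable def qs (c : ℕ → ZMod 2) (p : ℕ) : ℕ :=
  if p % 3 = 0 then (if c (p / 3) = 0 then 2 else 2 ^ 8)
  else if p % 3 = 1 then (if c (p / 3) = 0 then 2 ^ 8 else 2) else mk (p / 3)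

lemma qs_two_le (c : ℕ → ZMod 2) (p : ℕ) : 2 ≤ qs c p := by
  unfold qs
  split_ifs <;> try norm_num
  rcases mk_or (p / 3) with h | h <;> rw [h] <;> norm_num

lemma qs_lt (c : ℕ → ZMod 2) (p : ℕ) : qs c p < 2 ^ 25 := by
  unfold qs
  split_ifs <;> try norm_num
  rcases mk_or (p / 3) with h | h <;> rw [h] <;> norm_num

lemma qs_block (c : ℕ → ZMod 2) (k J J' r : ℕ) (h3 : 3 ≤ r) (hr : r < 3 * Nk k)
    (h : blk c k J = blk c k J') : qs c (3 * Nk k * J + r) = qs c (3 * Nk k * J' + r) := by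
  have hm : ∀ J, (3 * Nk k * J + r) % 3 = r % 3 := by
    intro J; rw [mul_assoc, Nat.mul_add_mod]
  have hd : ∀ J, (3 * Nk k * J + r) / 3 = J * Nk k + r / 3 := by
    intro J; rw [mul_assoc, Nat.mul_add_div (by norm_num), mul_comm J]
  have hlt : r / 3 < Nk k := by omega
  have h0 : 0 < r / 3 := by omega
  have hc : c (J * Nk k + r / 3) = c (J' * Nk k + r / 3) := congrFun h ⟨r / 3, hlt⟩
  unfold qs
  rw [hm J, hm J', hd J, hd J', hc, mk_block k J _ h0 hlt, mk_block k J' _ h0 hlt]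

/-- The final sequence. -/
noncomputable def qf (c : ℕ → ZMod 2) (n : ℕ) : ℕ := qs c (n + 3)

lemma exists_k (m : ℕ) : ∃ k, m ≤ Nk k :=
  ⟨m, (Nat.lt_two_pow_self (n := m)).le.trans (two_pow_le_Nk m)⟩

lemma freq_exists (c : ℕ → ZMod 2)
    (hfr : ∀ (k : ℕ) (u : Fin (Nk k) → ZMod 2),
      Tendsto (fun n : ℕ => (cnt (fun J => blk c k J = u) n : ℝ) / n) atTop (𝓝 (prH k u)))
    (ℓ : ℕ) (w : Fin ℓ → ℕ) :
    ∃ p, Tendsto (fun n : ℕ => (cnt (fun j => ∀ i : Fin ℓ, qf c (j + i) = w i) n : ℝ) / n)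
      atTop (𝓝 p) := by
  apply exists_freq
  intro ε hε
  obtain ⟨m, hm⟩ := exists_nat_ge ((ℓ + 3 : ℝ) / ε)
  obtain ⟨k, hk⟩ := exists_k m
  refine ⟨3 * Nk k, by have := Nk_pos k; omega, Fin (Nk k) → ZMod 2, inferInstance,
    blk c k, prH k, Finset.Ico (3 * Nk k - (ℓ + 3)) (3 * Nk k), ?_, hfr k, ?_⟩
  · have h1 : ((Finset.Ico (3 * Nk k - (ℓ + 3)) (3 * Nk k)).card : ℝ) ≤ ℓ + 3 := by
      rw [Nat.card_Ico]
      have : 3 * Nk k - (3 * Nk k - (ℓ + 3)) ≤ ℓ + 3 := by omega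
      exact_mod_cast this
    refine h1.trans ?_
    rw [div_le_iff₀ hε] at hm
    have h2 : (m : ℝ) ≤ Nk k := by exact_mod_cast hk
    push_cast
    have h3 : (0 : ℝ) ≤ Nk k := by positivity
    nlinarith
  · intro J J' r hr hrb hJ
    rw [Finset.mem_Ico] at hrb
    refine forall_congr' fun i => ?_
    have hi := i.2
    unfold qf
    rw [show 3 * Nk k * J + r + i + 3 = 3 * Nk k * J + (r + i + 3) by ring,
      show 3 * Nk k * J' + r + i + 3 = 3 * Nk k * J' + (r + i + 3) by ring,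
      qs_block c k J J' (r + i + 3) (by omega) (by omega) hJ]

lemma freq_pos {c : ℕ → ZMod 2} (hc : c ∈ G)
    (hfr : ∀ (k : ℕ) (u : Fin (Nk k) → ZMod 2),
      Tendsto (fun n : ℕ => (cnt (fun J => blk c k J = u) n : ℝ) / n) atTop (𝓝 (prH k u)))
    (ℓ : ℕ) (w : Fin ℓ → ℕ) (p : ℝ)
    (hp : Tendsto (fun n : ℕ => (cnt (fun j => ∀ i : Fin ℓ, qf c (j + i) = w i) n : ℝ) / n)
      atTop (𝓝 p)) (hw : ∃ j, ∀ i : Fin ℓ, qf c (j + i) = w i) : 0 < p := by
  obtain ⟨j, hj⟩ := hw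
  obtain ⟨k, hk⟩ := exists_k (j + 3 + ℓ)
  have hNk := Nk_pos k
  obtain ⟨P, hP⟩ : ∃ P, P = 3 * Nk k := ⟨_, rfl⟩
  have hP0 : 0 < P := by omega
  have hocc : ∀ J, blk c k J = blk c k 0 → ∀ i : Fin ℓ, qf c (P * J + j + i) = w i := by
    intro J hJ i
    have hi := i.2
    rw [← hj i]
    unfold qf
    rw [show P * J + j + i + 3 = 3 * Nk k * J + (j + i + 3) by rw [hP]; ring,
      qs_block c k J 0 (j + i + 3) (by omega) (by omega) hJ]
    congr 1; omega
  have hle : ∀ m, cnt (fun J => blk c k J = blk c k 0) m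
      ≤ cnt (fun j => ∀ i : Fin ℓ, qf c (j + i) = w i) (P * m) := by
    intro m
    classical
    rw [cnt_mul, cnt_eq, card_filter]
    refine sum_le_sum fun J _ => ?_
    split_ifs with h
    · rw [cnt_eq, Nat.one_le_iff_ne_zero, ← Nat.pos_iff_ne_zero, card_pos]
      exact ⟨j, by
        rw [mem_filter, mem_range]
        exact ⟨by omega, hocc J h⟩⟩
    · exact Nat.zero_le _
  have h1 : Tendsto (fun m : ℕ => (cnt (fun j => ∀ i : Fin ℓ, qf c (j + i) = w i) (P * m) : ℝ)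
      / ((P * m : ℕ) : ℝ)) atTop (𝓝 p) :=
    hp.comp (tendsto_id.const_mul_atTop' hP0)
  have h2 := (hfr k (blk c k 0)).div_const (P : ℝ)
  have h3 : prH k (blk c k 0) / P ≤ p := by
    refine le_of_tendsto_of_tendsto' h2 h1 fun m => ?_
    rw [div_div, Nat.cast_mul, mul_comm (m : ℝ)]
    exact div_le_div_of_nonneg_right (by exact_mod_cast hle m) (by positivity)
  have h4 := prH_pos hc k 0
  have h5 : (0 : ℝ) < P := by exact_mod_cast hP0
  exact lt_of_lt_of_le (by positivity) h3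

lemma cnt_mul_swap (a : ℕ → Prop) (P m : ℕ) :
    cnt a (P * m) = ∑ r ∈ range P, cnt (fun J => a (P * J + r)) m := by
  classical
  rw [cnt_mul]
  simp only [cnt_eq, card_filter]
  exact sum_comm

lemma bit_eq {c : ℕ → ZMod 2} {x y : ℕ} (h : qs c (3 * x) = qs c (3 * y)) : c x = c y := by
  unfold qs at h
  simp only [Nat.mul_mod_right, if_true, Nat.mul_div_cancel_left _ (show 0 < 3 by norm_num)] at h
  have hz : ∀ z : ZMod 2, z = 0 ∨ z = 1 := by decide
  rcases hz (c x) with h1 | h1 <;> rcases hz (c y) with h2 | h2 <;> rw [h1, h2] at h ⊢ <;>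
    simp at h

lemma freq_le (c : ℕ → ZMod 2)
    (hfr : ∀ (k : ℕ) (u : Fin (Nk k) → ZMod 2),
      Tendsto (fun n : ℕ => (cnt (fun J => blk c k J = u) n : ℝ) / n) atTop (𝓝 (prH k u)))
    (k : ℕ) (w : Fin (9 * Nk k) → ℕ) (p : ℝ)
    (hp : Tendsto (fun n : ℕ => (cnt (fun j => ∀ i : Fin (9 * Nk k), qf c (j + i) = w i) n : ℝ) / n)
      atTop (𝓝 p)) : p ≤ ((2 : ℝ) ^ Fk k)⁻¹ := by
  classical
  have hNk := Nk_pos k
  obtain ⟨P, hP⟩ : ∃ P, P = 3 * Nk k := ⟨_, rfl⟩
  have hP0 : 0 < P := by omega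
  set a : ℕ → Prop := fun j => ∀ i : Fin (9 * Nk k), qf c (j + i) = w i with ha
  have hdet : ∀ r < P, ∀ J J', a (P * J + r) → a (P * J' + r) →
      blk c k (J + 2) = blk c k (J' + 2) := by
    intro r hr J J' h h'
    funext i
    have hi := i.2
    apply bit_eq
    have ht : 2 * P + 3 * i - r - 3 < 9 * Nk k := by omega
    have h1 := h ⟨_, ht⟩
    have h2 := h' ⟨_, ht⟩
    rw [← h2] at h1
    unfold qf at h1
    have e1 : ∀ J, P * J + r + (2 * P + 3 * (i : ℕ) - r - 3) + 3 = 3 * ((J + 2) * Nk k + i) := by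
      intro J
      have : P * J + 2 * P = 3 * ((J + 2) * Nk k) := by rw [hP]; ring
      omega
    simp only [e1] at h1
    exact h1
  have hu : ∀ r, ∃ u : Fin (Nk k) → ZMod 2, r < P → ∀ J, a (P * J + r) → blk c k (J + 2) = u := by
    intro r
    by_cases h : r < P ∧ ∃ J, a (P * J + r)
    · obtain ⟨hr, J, hJ⟩ := h
      exact ⟨blk c k (J + 2), fun hr J' hJ' => hdet r hr J' J hJ' hJ⟩
    · exact ⟨0, fun hr J hJ => absurd ⟨hr, J, hJ⟩ h⟩
  choose u hu using hu
  have hle : ∀ m, cnt a (P * m) ≤ ∑ r ∈ range P, cnt (fun J => blk c k J = u r) (m + 2) := by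
    intro m
    rw [cnt_mul_swap]
    refine sum_le_sum fun r hr => ?_
    refine (cnt_imp (hu r (mem_range.1 hr)) m).trans ?_
    rw [add_comm m 2, cnt_add]
    refine le_trans (le_of_eq (cnt_congr (fun J => ?_) m)) (Nat.le_add_left _ _)
    rw [add_comm]
  have h1 : Tendsto (fun m : ℕ => (cnt a (P * m) : ℝ) / ((P * m : ℕ) : ℝ)) atTop (𝓝 p) :=
    hp.comp (tendsto_id.const_mul_atTop' hP0)
  have h2 : ∀ r, Tendsto (fun m : ℕ => (cnt (fun J => blk c k J = u r) (m + 2) : ℝ) / m) atTop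
      (𝓝 (prH k (u r))) := by
    intro r
    have h3 := (hfr k (u r)).comp (tendsto_add_atTop_nat 2)
    have h4 : Tendsto (fun m : ℕ => ((m : ℝ) + 2) / m) atTop (𝓝 1) := by
      have := (tendsto_const_div_atTop_nhds_zero_nat (2 : ℝ)).const_add 1
      rw [add_zero] at this
      refine this.congr' ?_
      filter_upwards [eventually_ge_atTop 1] with m hm
      have : (m : ℝ) ≠ 0 := by positivity
      field_simp
    have h5 := h3.mul h4
    rw [mul_one] at h5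
    refine h5.congr' ?_
    filter_upwards [eventually_ge_atTop 1] with m hm
    have : (m : ℝ) ≠ 0 := by positivity
    have : (m : ℝ) + 2 ≠ 0 := by positivity
    simp only [Function.comp]
    push_cast
    field_simp
  have h3 : Tendsto (fun m : ℕ => (∑ r ∈ range P,
      (cnt (fun J => blk c k J = u r) (m + 2) : ℝ) / m) / P) atTop
      (𝓝 ((∑ r ∈ range P, prH k (u r)) / P)) :=
    (tendsto_finsetSum _ fun r _ => h2 r).div_const _
  have h5 : (0 : ℝ) < P := by exact_mod_cast hP0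
  have h4 : p ≤ (∑ r ∈ range P, prH k (u r)) / P := by
    refine le_of_tendsto_of_tendsto' h1 h3 fun m => ?_
    rw [← sum_div, div_div, Nat.cast_mul, mul_comm (m : ℝ)]
    exact div_le_div_of_nonneg_right (by exact_mod_cast hle m) (by positivity)
  refine h4.trans ?_
  rw [div_le_iff₀ h5]
  calc _ ≤ ∑ r ∈ range P, ((2 : ℝ) ^ Fk k)⁻¹ := sum_le_sum fun r _ => prH_le k _
    _ = _ := by rw [sum_const, card_range, nsmul_eq_mul, mul_comm]

/-- The sequence is dynamically generated with positive entropy. -/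
theorem nonDet {c : ℕ → ZMod 2} (hc : c ∈ G)
    (hfr : ∀ (k : ℕ) (u : Fin (Nk k) → ZMod 2),
      Tendsto (fun n : ℕ => (cnt (fun J => blk c k J = u) n : ℝ) / n) atTop (𝓝 (prH k u))) :
    NonDeterministic (qf c) := by
  classical
  have hex := freq_exists c hfr
  choose p hp using hex
  obtain ⟨μ, hμ, hgen, hμp⟩ := exists_generates (qf c) (2 ^ 25) (fun n => qs_two_le c _)
    (fun n => qs_lt c _) p (fun ℓ w => by
      have := hp ℓ w
      simp only [cnt_eq] at this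
      exact this) (fun ℓ w hw => freq_pos hc hfr ℓ w _ (hp ℓ w) hw)
  refine ⟨Xs (qf c), inferInstance, inferInstance, μ, sh (qf c), _, bp (qf c), hgen, ?_⟩
  refine entropy_pos (qf c) (2 ^ 25) (fun n => qs_lt c _) p μ hμp (Real.log 2 / 18)
    (div_pos (Real.log_pos (by norm_num)) (by norm_num)) ?_
  rw [Filter.frequently_atTop]
  intro N
  obtain ⟨k, hk⟩ := exists_k N
  refine ⟨9 * Nk k, by omega, fun w => ?_⟩
  refine (freq_le c hfr k w _ (hp _ w)).trans ?_
  have h1 : (Nk k : ℝ) ≤ 2 * Fk k := by exact_mod_cast Nk_le_two_Fk k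
  have h2 : ((2 : ℝ) ^ Fk k)⁻¹ = Real.exp (-(Real.log 2 * Fk k)) := by
    rw [Real.exp_neg, ← Real.rpow_def_of_pos (by norm_num), Real.rpow_natCast]
  rw [h2, Real.exp_le_exp]
  push_cast
  have h3 := Real.log_pos (show (1 : ℝ) < 2 by norm_num)
  nlinarith

end Q196.PC
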