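import Pool.Agent.Q196.PC.Norm

open Finset Filter Topology

namespace Q196.PC

theorem star (q : ℕ → ℕ) (M : ℕ) (h2 : ∀ n, 2 ≤ q n) (hM : ∀ n, q n < M) (hrec : Rec q)
    (x : ℕ → ℕ) (hx : ∀ n, 1 ≤ n → x n < q n)
    (hN : ∀ (ℓ : ℕ) (D : Fin ℓ → ℕ), Tendsto (QCount q D) atTop atTop →
      Tendsto (fun n => NCount x D n / QCount q D n) atTop (𝓝 1))
    {ℓ : ℕ} (D' B : Fin ℓ → ℕ) (ε : ℝ) (hε : 0 < ε) :
    ∀ᶠ n : ℕ in atTop, |NCount₂ q x D' B n - QCount₂ q D' B n| ≤ ε * n := by
  classical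
  obtain ⟨L, W, hW, hbad⟩ := hrec ℓ (ε / 8) (by linarith)
  have hqpos : ∀ n, (0 : ℝ) < q n := fun n => by
    have := h2 n
    exact_mod_cast (by omega : 0 < q n)
  set 𝒟 : Finset (Fin W → ℕ) := Fintype.piFinset (fun _ : Fin W => range M) with h𝒟
  set 𝒟' := 𝒟.filter (fun D => ∀ i : Fin ℓ, D ⟨L + i, by have := i.2; omega⟩ = D' i) with h𝒟'
  set δ : ℝ := ε / (4 * (𝒟.card + 1)) with hδ
  have hδ0 : 0 < δ := by positivity
  have hall : ∀ᶠ n : ℕ in atTop, ∀ D ∈ 𝒟, |NCount x D n - QCount q D n| ≤ δ * n := by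
    rw [Filter.eventually_all_finset]
    intro D _
    exact count_close q M h2 hM x hx D (hN W D) δ hδ0
  have hL : ∀ᶠ n : ℕ in atTop, (2 * L : ℝ) ≤ ε / 4 * n := by
    have := (tendsto_natCast_atTop_atTop (R := ℝ)).const_mul_atTop (show 0 < ε / 4 by linarith)
    exact this.eventually_ge_atTop _
  let R : ℕ → Prop := fun j => ∀ i : Fin ℓ, q (j + L + i) = B i
  let fN : ℕ → ℝ := fun j =>
    if (∀ i : Fin ℓ, q (j + i) = B i) ∧ (∀ i : Fin ℓ, x (j + i) = D' i) then 1 else 0
  let fQ : ℕ → ℝ := fun j => if ∀ i : Fin ℓ, q (j + i) = B i then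
    (if ∀ i : Fin ℓ, D' i < q (j + i) then (∏ i : Fin ℓ, (B i : ℝ))⁻¹ else 0) else 0
  have hNf : ∀ n, NCount₂ q x D' B n = ∑ j ∈ Icc 1 n, fN j := by
    intro n
    unfold NCount₂
    rw [card_filter]
    push_cast
    rfl
  have hQf : ∀ n, QCount₂ q D' B n = ∑ j ∈ Icc 1 n, fQ j := by
    intro n
    unfold QCount₂
    rw [sum_filter]
  have hfN0 : ∀ j, 0 ≤ fN j := fun j => by simp only [fN]; split_ifs <;> norm_num
  have hfN1 : ∀ j, fN j ≤ 1 := fun j => by simp only [fN]; split_ifs <;> norm_num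
  have hfQ0 : ∀ j, 0 ≤ fQ j := fun j => by
    simp only [fQ]; split_ifs
    · exact inv_nonneg.2 (prod_nonneg fun i _ => by positivity)
    · exact le_rfl
    · exact le_rfl
  have hfQ1 : ∀ j, fQ j ≤ 1 := fun j => by
    simp only [fQ]
    split_ifs with h h'
    · refine inv_le_one_of_one_le₀ ?_
      have : (1 : ℝ) = ∏ i : Fin ℓ, (1 : ℝ) := by simp
      rw [this]
      refine prod_le_prod (fun _ _ => by norm_num) fun i _ => ?_
      rw [← h i]
      have := h2 (j + i)
      exact_mod_cast (by omega : 1 ≤ q (j + i))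
    · norm_num
    · norm_num
  let nD : (Fin W → ℕ) → ℕ → ℝ := fun D n => ∑ j ∈ Icc 1 n,
    if (∀ i : Fin W, x (j + i) = D i) ∧ R j then 1 else 0
  let mD : (Fin W → ℕ) → ℕ → ℝ := fun D n => ∑ j ∈ Icc 1 n,
    if (∀ i : Fin W, D i < q (j + i)) ∧ R j then (∏ i : Fin W, (q (j + i) : ℝ))⁻¹ else 0
  have hSN : ∀ n, ∑ j ∈ Icc 1 n, fN (j + L) = ∑ D ∈ 𝒟', nD D n := by
    intro n
    rw [sum_comm]
    refine sum_congr rfl fun j hj => ?_
    have hj1 := (mem_Icc.1 hj).1
    let D₀ : Fin W → ℕ := fun i => x (j + i)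
    have hD₀ : D₀ ∈ 𝒟 := by
      rw [h𝒟, Fintype.mem_piFinset]
      intro i
      rw [mem_range]
      exact (hx _ (by omega)).trans (hM _)
    have hD0 : ∀ i : Fin ℓ, D₀ ⟨L + i, by have := i.2; omega⟩ = x (j + L + i) := by
      intro i; simp only [D₀]; congr 1; omega
    by_cases hR : R j
    · by_cases hc : ∀ i : Fin ℓ, x (j + L + i) = D' i
      · have h1 : fN (j + L) = 1 := if_pos ⟨hR, hc⟩
        rw [h1, sum_eq_single D₀]
        · rw [if_pos ⟨fun i => rfl, hR⟩]
        · intro D _ hne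
          rw [if_neg]
          rintro ⟨h, -⟩
          exact hne (funext fun i => (h i).symm)
        · intro h
          exfalso; apply h
          rw [h𝒟', mem_filter]
          exact ⟨hD₀, fun i => by rw [hD0 i]; exact hc i⟩
      · have h1 : fN (j + L) = 0 := if_neg (fun h => hc h.2)
        rw [h1]
        symm
        refine sum_eq_zero fun D hD => ?_
        rw [if_neg]
        rintro ⟨h, -⟩
        apply hc
        intro i
        rw [h𝒟', mem_filter] at hD
        rw [← hD.2 i, ← h]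
        congr 1; show _ = j + (L + i); omega
    · have h1 : fN (j + L) = 0 := if_neg (fun h => hR h.1)
      rw [h1]
      symm
      exact sum_eq_zero fun D _ => if_neg (fun h => hR h.2)
  have hSQ : ∀ n, ∑ j ∈ Icc 1 n, fQ (j + L) = ∑ D ∈ 𝒟', mD D n := by
    intro n
    rw [sum_comm]
    refine sum_congr rfl fun j _ => ?_
    by_cases hR : R j
    · have h1 : ∑ D ∈ 𝒟', (if (∀ i : Fin W, D i < q (j + i)) ∧ R j then
          (∏ i : Fin W, (q (j + i) : ℝ))⁻¹ else 0)
          = (((Fintype.piFinset (fun i : Fin W => range (q (j + i)))).filter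
            (fun D => ∀ i : Fin ℓ, D ⟨L + i, by have := i.2; omega⟩ = D' i)).card : ℝ)
            * (∏ i : Fin W, (q (j + i) : ℝ))⁻¹ := by
        rw [← sum_filter, sum_const, nsmul_eq_mul]
        congr 3
        ext D
        simp only [h𝒟', h𝒟, mem_filter, Fintype.mem_piFinset, mem_range]
        constructor
        · rintro ⟨⟨-, h3⟩, h4, -⟩; exact ⟨h4, h3⟩
        · rintro ⟨h3, h4⟩; exact ⟨⟨fun i => (h3 i).trans (hM _), h4⟩, h3, hR⟩
      rw [h1, center_count hW (fun i : Fin W => q (j + i)) (fun i => by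
        have := h2 (j + i); omega) D']
      have h3 : fQ (j + L) = if ∀ i : Fin ℓ, D' i < q (j + L + i) then
          (∏ i : Fin ℓ, (B i : ℝ))⁻¹ else 0 := if_pos hR
      rw [h3]
      have h4 : ∀ i : Fin ℓ, q (j + (L + i)) = q (j + L + i) := fun i => by congr 1; omega
      simp only [h4]
      congr 2
      exact prod_congr rfl fun i _ => by rw [hR i]
    · have h1 : fQ (j + L) = 0 := if_neg hR
      rw [h1]
      symm
      exact sum_eq_zero fun D _ => if_neg (fun h => hR h.2)
  -- comparison for each D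
  have hcomp : ∀ D n, |nD D n - mD D n| ≤ |NCount x D n - QCount q D n|
      + 2 * (if ¬ GoodD q ℓ L W D then QCount q D n else 0) := by
    intro D n
    have hn0 : 0 ≤ nD D n := sum_nonneg fun j _ => by split_ifs <;> norm_num
    have hm0 : 0 ≤ mD D n := sum_nonneg fun j _ => by split_ifs <;> positivity
    have hn1 : nD D n ≤ NCount x D n := by
      unfold NCount
      rw [card_filter]
      push_cast
      refine sum_le_sum fun j _ => ?_
      split_ifs with h1 h3
      · exact le_rfl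
      · exact absurd h1.1 h3
      · norm_num
      · norm_num
    have hm1 : mD D n ≤ QCount q D n := by
      unfold QCount
      refine sum_le_sum fun j _ => ?_
      split_ifs with h1 h3
      · exact le_rfl
      · exact absurd h1.1 h3
      · positivity
      · exact le_rfl
    by_cases hg : GoodD q ℓ L W D
    · rw [if_neg (not_not.2 hg), mul_zero, add_zero]
      by_cases hcompat : ∃ j, 1 ≤ j ∧ (∀ i : Fin W, D i < q (j + i)) ∧ R j
      · obtain ⟨j₀, -, hj₀, hR₀⟩ := hcompat
        have hR : ∀ j, (∀ i : Fin W, D i < q (j + i)) → R j := by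
          intro j hj i
          rw [hg j j₀ hj hj₀ i i.2]; exact hR₀ i
        have e1 : nD D n = NCount x D n := by
          unfold NCount
          rw [card_filter]
          push_cast
          refine sum_congr rfl fun j hj => ?_
          have hj1 := (mem_Icc.1 hj).1
          by_cases h : ∀ i : Fin W, x (j + i) = D i
          · rw [if_pos h, if_pos ⟨h, hR j fun i => by rw [← h i]; exact hx _ (by omega)⟩]
          · rw [if_neg h, if_neg (fun h' => h h'.1)]
        have e2 : mD D n = QCount q D n := by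
          unfold QCount
          refine sum_congr rfl fun j hj => ?_
          by_cases h : ∀ i : Fin W, D i < q (j + i)
          · rw [if_pos h, if_pos ⟨h, hR j h⟩]
          · rw [if_neg h, if_neg (fun h' => h h'.1)]
        rw [e1, e2]
      · have e1 : nD D n = 0 := by
          refine sum_eq_zero fun j hj => ?_
          have hj1 := (mem_Icc.1 hj).1
          rw [if_neg]
          rintro ⟨h, h'⟩
          exact hcompat ⟨j, hj1, fun i => by rw [← h i]; exact hx _ (by omega), h'⟩
        have e2 : mD D n = 0 := by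
          refine sum_eq_zero fun j hj => ?_
          rw [if_neg]
          rintro ⟨h, h'⟩
          exact hcompat ⟨j, (mem_Icc.1 hj).1, h, h'⟩
        rw [e1, e2, sub_zero, abs_zero]
        exact abs_nonneg _
    · rw [if_pos hg]
      have h3 := le_abs_self (NCount x D n - QCount q D n)
      have h4 := abs_nonneg (NCount x D n - QCount q D n)
      rw [abs_le]
      constructor <;> linarith
  have hbadsum : ∀ n, ∑ D ∈ 𝒟, (if ¬ GoodD q ℓ L W D then QCount q D n else 0)
      = ∑ j ∈ Icc 1 n, pr q j (fun D : Fin W → ℕ => ¬ GoodD q ℓ L W D) := by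
    intro n
    rw [← sum_filter]
    unfold QCount
    rw [sum_comm]
    refine sum_congr rfl fun j _ => ?_
    rw [← sum_filter, sum_const, nsmul_eq_mul]
    unfold pr
    congr 3
    ext D
    simp only [h𝒟, mem_filter, Fintype.mem_piFinset, mem_range]
    constructor
    · rintro ⟨⟨-, h3⟩, h4⟩; exact ⟨h4, h3⟩
    · rintro ⟨h3, h4⟩; exact ⟨⟨fun i => (h3 i).trans (hM _), h4⟩, h3⟩
  filter_upwards [hall, hL, hbad] with n hn1 hn2 hn3
  have k1 := shift_close fN hfN0 hfN1 L n
  have k2 := shift_close fQ hfQ0 hfQ1 L n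
  rw [hSN, ← hNf] at k1
  rw [hSQ, ← hQf] at k2
  have k3 : |∑ D ∈ 𝒟', nD D n - ∑ D ∈ 𝒟', mD D n| ≤ ε / 2 * n := by
    rw [← sum_sub_distrib]
    refine (abs_sum_le_sum_abs _ _).trans ?_
    calc ∑ D ∈ 𝒟', |nD D n - mD D n| ≤ ∑ D ∈ 𝒟, |nD D n - mD D n| :=
          sum_le_sum_of_subset_of_nonneg (filter_subset _ _) fun _ _ _ => abs_nonneg _
      _ ≤ ∑ D ∈ 𝒟, (δ * n + 2 * (if ¬ GoodD q ℓ L W D then QCount q D n else 0)) := by
          refine sum_le_sum fun D hD => (hcomp D n).trans ?_
          have := hn1 D hD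
          linarith
      _ = 𝒟.card * (δ * n) + 2 * ∑ j ∈ Icc 1 n, pr q j (fun D : Fin W → ℕ => ¬ GoodD q ℓ L W D) := by
          rw [sum_add_distrib, sum_const, nsmul_eq_mul, ← mul_sum, hbadsum]
      _ ≤ ε / 4 * n + 2 * (ε / 8 * n) := by
          have h5 : (𝒟.card : ℝ) * (δ * n) ≤ ε / 4 * n := by
            have h6 : (𝒟.card : ℝ) * δ ≤ ε / 4 := by
              rw [hδ, mul_div_assoc', div_le_div_iff₀ (by positivity) (by norm_num)]
              have : (0 : ℝ) ≤ 𝒟.card := by positivity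
              nlinarith
            calc _ = (𝒟.card : ℝ) * δ * n := by ring
              _ ≤ _ := by gcongr
          linarith
      _ = ε / 2 * n := by ring
  have e : NCount₂ q x D' B n - QCount₂ q D' B n
      = -(∑ D ∈ 𝒟', nD D n - NCount₂ q x D' B n) + (∑ D ∈ 𝒟', nD D n - ∑ D ∈ 𝒟', mD D n)
        + (∑ D ∈ 𝒟', mD D n - QCount₂ q D' B n) := by ring
  rw [e]
  refine (abs_add_three _ _ _).trans ?_
  rw [abs_neg]
  have hnn : (0 : ℝ) ≤ n := by positivity
  nlinarith

end Q196.PC
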