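import Pool.Agent.Q196.PC.Seq

open Finset Filter Topology

namespace Q196.PC

/-- Parity checks below level `k` inside `[0, Nk k)`. -/
def Low (k : ℕ) (d : ℕ → ZMod 2) : Prop :=
  ∀ k' < k, ∀ J i, i < Nk k' → (J + 1) * Nk (k' + 1) ≤ Nk k →
      ∑ a ∈ range (Bk k'), d (J * Nk (k' + 1) + a * Nk k' + i) = 0

lemma Low.sub {k : ℕ} {d d' : ℕ → ZMod 2} (h : Low k d) (h' : Low k d') :
    Low k (fun x => d x - d' x) := by
  intro k' hk J i hi hJ
  rw [sum_sub_distrib, h k' hk J i hi hJ, h' k' hk J i hi hJ, sub_zero]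

/-- Failure trees. -/
def trees : ℕ → ℕ → Finset (Finset ℕ)
  | 0, J => {{J}}
  | l + 1, J => ((range (Bk l) ×ˢ range (Bk l)).filter (fun z => z.1 ≠ z.2)).biUnion
      (fun z => ((trees l (J * Bk l + z.1)) ×ˢ (trees l (J * Bk l + z.2))).image
        (fun T => T.1 ∪ T.2))

/-- Bound for the number of trees. -/
def nt : ℕ → ℕ
  | 0 => 1
  | l + 1 => Bk l ^ 2 * nt l ^ 2

lemma trees_card (l J : ℕ) : (trees l J).card ≤ nt l := by
  induction l generalizing J with
  | zero => simp [trees, nt]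
  | succ l ih =>
    rw [trees, nt]
    refine (card_biUnion_le_card_mul _ _ (nt l ^ 2) ?_).trans ?_
    · intro z _
      refine card_image_le.trans ?_
      rw [card_product, pow_two]
      exact Nat.mul_le_mul (ih _) (ih _)
    · refine Nat.mul_le_mul_right _ ?_
      refine (card_filter_le _ _).trans ?_
      rw [card_product, card_range, pow_two]

lemma trees_range (l J : ℕ) (T : Finset ℕ) (hT : T ∈ trees l J) :
    T ⊆ Finset.Ico (J * Nk l) ((J + 1) * Nk l) := by
  induction l generalizing J T with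
  | zero =>
    simp only [trees, mem_singleton] at hT
    subst hT
    intro x hx
    rw [mem_singleton] at hx
    simp [hx, Nk]
  | succ l ih =>
    simp only [trees, mem_biUnion, mem_filter, mem_product, mem_range, mem_image] at hT
    obtain ⟨z, ⟨⟨hz1, hz2⟩, -⟩, ⟨T1, T2⟩, ⟨h1, h2⟩, rfl⟩ := hT
    have hsub : ∀ a, a < Bk l → Finset.Ico ((J * Bk l + a) * Nk l) ((J * Bk l + a + 1) * Nk l)
        ⊆ Finset.Ico (J * Nk (l + 1)) ((J + 1) * Nk (l + 1)) := by
      intro a ha
      refine Finset.Ico_subset_Ico ?_ ?_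
      · rw [Nk_succ]
        calc J * (Bk l * Nk l) = (J * Bk l) * Nk l := by ring
          _ ≤ _ := Nat.mul_le_mul_right _ (by omega)
      · rw [Nk_succ]
        calc (J * Bk l + a + 1) * Nk l ≤ (J * Bk l + Bk l) * Nk l :=
              Nat.mul_le_mul_right _ (by omega)
          _ = _ := by ring
    exact union_subset ((ih _ _ h1).trans (hsub _ hz1)) ((ih _ _ h2).trans (hsub _ hz2))

lemma trees_size (l J : ℕ) (T : Finset ℕ) (hT : T ∈ trees l J) : T.card = 2 ^ l := by
  induction l generalizing J T with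
  | zero =>
    simp only [trees, mem_singleton] at hT
    subst hT; simp
  | succ l ih =>
    simp only [trees, mem_biUnion, mem_filter, mem_product, mem_range, mem_image] at hT
    obtain ⟨z, ⟨⟨hz1, hz2⟩, hne⟩, ⟨T1, T2⟩, ⟨h1, h2⟩, rfl⟩ := hT
    have hd : Disjoint T1 T2 := by
      rw [Finset.disjoint_left]
      intro x hx1 hx2
      have e1 := Finset.mem_Ico.1 (trees_range _ _ _ h1 hx1)
      have e2 := Finset.mem_Ico.1 (trees_range _ _ _ h2 hx2)
      have e3 : x / Nk l = J * Bk l + z.1 :=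
        Nat.div_eq_of_lt_le (by exact e1.1) (by exact e1.2)
      have e4 : x / Nk l = J * Bk l + z.2 :=
        Nat.div_eq_of_lt_le (by exact e2.1) (by exact e2.2)
      exact hne (by omega)
    show (T1 ∪ T2).card = _
    rw [card_union_of_disjoint hd, ih _ _ h1, ih _ _ h2, pow_succ]
    ring

/-- A nonzero word of the code contains a failure tree. -/
lemma exists_tree (k : ℕ) (d : ℕ → ZMod 2) (hd : Low k d) (l : ℕ) (hl : l ≤ k) (J : ℕ)
    (hJ : (J + 1) * Nk l ≤ Nk k) (h : ∃ i < Nk l, d (J * Nk l + i) ≠ 0) :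
    ∃ T ∈ trees l J, ∀ s ∈ T, d s ≠ 0 := by
  induction l generalizing J with
  | zero =>
    obtain ⟨i, hi, h⟩ := h
    refine ⟨{J}, by simp [trees], ?_⟩
    intro s hs
    rw [mem_singleton] at hs
    subst hs
    simp only [Nk] at hi h
    have : i = 0 := by omega
    subst this
    simpa using h
  | succ l ih =>
    obtain ⟨x, hx, hne⟩ := h
    -- write `x = a * Nk l + i`
    have hN := Nk_pos l
    set a := x / Nk l with ha
    set i := x % Nk l with hi
    have hxa : x = a * Nk l + i := by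
      rw [ha, hi, mul_comm]; exact (Nat.div_add_mod x (Nk l)).symm
    have hi' : i < Nk l := Nat.mod_lt _ hN
    have ha' : a < Bk l := by
      rw [ha]
      exact Nat.div_lt_of_lt_mul (by rw [mul_comm, ← Nk_succ]; exact hx)
    have hsum := hd l (by omega) J i hi' hJ
    -- there is another nonzero term
    have hb : ∃ b ∈ range (Bk l), b ≠ a ∧ d (J * Nk (l + 1) + b * Nk l + i) ≠ 0 := by
      by_contra hcon
      push Not at hcon
      rw [sum_eq_single a (fun b hb hba => hcon b hb hba)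
        (fun h => absurd (mem_range.2 ha') h)] at hsum
      rw [hxa, ← add_assoc] at hne
      exact hne hsum
    obtain ⟨b, hb, hba, hbne⟩ := hb
    rw [mem_range] at hb
    have hsub : ∀ a', a' < Bk l → (J * Bk l + a' + 1) * Nk l ≤ Nk k := by
      intro a' ha'
      refine le_trans ?_ hJ
      rw [Nk_succ]
      calc (J * Bk l + a' + 1) * Nk l ≤ (J * Bk l + Bk l) * Nk l :=
            Nat.mul_le_mul_right _ (by omega)
        _ = _ := by ring
    obtain ⟨T1, hT1, hT1'⟩ := ih (by omega) (J * Bk l + a) (hsub a ha')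
      ⟨i, hi', by
        have : (J * Bk l + a) * Nk l + i = J * Nk (l + 1) + x := by rw [hxa, Nk_succ]; ring
        rw [this]; exact hne⟩
    obtain ⟨T2, hT2, hT2'⟩ := ih (by omega) (J * Bk l + b) (hsub b hb)
      ⟨i, hi', by
        have : (J * Bk l + b) * Nk l + i = J * Nk (l + 1) + b * Nk l + i := by
          rw [Nk_succ]; ring
        rw [this]; exact hbne⟩
    refine ⟨T1 ∪ T2, ?_, ?_⟩
    · simp only [trees, mem_biUnion, mem_filter, mem_product, mem_range, mem_image]
      exact ⟨(a, b), ⟨⟨ha', hb⟩, Ne.symm hba⟩, (T1, T2), ⟨hT1, hT2⟩, rfl⟩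
    · intro s hs
      rcases mem_union.1 hs with h | h
      · exact hT1' s h
      · exact hT2' s h

lemma nt_bound (l : ℕ) :
    4 * (4 : ℝ) ^ (l + 2) * (nt l * (1 / 128) ^ (2 ^ l)) ≤ (1 / 2) ^ (l + 1) := by
  induction l with
  | zero => norm_num [nt]
  | succ l ih =>
    set y : ℝ := nt l * (1 / 128) ^ (2 ^ l) with hy
    have hy0 : 0 ≤ y := by positivity
    have h1 : ((nt (l + 1) : ℕ) : ℝ) * (1 / 128) ^ (2 ^ (l + 1)) = (4 : ℝ) ^ (l + 2) * y ^ 2 := by
      rw [hy, nt, pow_succ 2 l, pow_mul]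
      unfold Bk
      push_cast
      have h4 : ((2 : ℝ) ^ (l + 2)) ^ 2 = 4 ^ (l + 2) := by
        rw [← pow_mul, mul_comm, pow_mul]; norm_num
      rw [h4]
      ring
    rw [h1]
    set z : ℝ := 4 * (4 : ℝ) ^ (l + 2) * y with hz
    have hz0 : 0 ≤ z := by positivity
    have h2 : 4 * (4 : ℝ) ^ (l + 1 + 2) * ((4 : ℝ) ^ (l + 2) * y ^ 2) = z ^ 2 := by
      rw [hz]; ring
    rw [h2]
    calc z ^ 2 ≤ ((1 / 2) ^ (l + 1)) ^ 2 := by gcongr
      _ = (1 / 2 : ℝ) ^ (2 * (l + 1)) := by rw [← pow_mul, mul_comm]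
      _ ≤ (1 / 2) ^ (l + 1 + 1) := pow_le_pow_of_le_one (by norm_num) (by norm_num) (by omega)

lemma nt_small (l : ℕ) : (nt l : ℝ) * (1 / 128) ^ (2 ^ l) ≤ (1 / 2) ^ l := by
  have h := nt_bound l
  have h0 : 0 ≤ (nt l : ℝ) * (1 / 128) ^ (2 ^ l) := by positivity
  have h1 : (1 : ℝ) ≤ 4 * (4 : ℝ) ^ (l + 2) := by
    have : (1 : ℝ) ≤ 4 ^ (l + 2) := one_le_pow₀ (by norm_num)
    linarith
  have h2 : (1 / 2 : ℝ) ^ (l + 1) ≤ (1 / 2) ^ l :=
    pow_le_pow_of_le_one (by norm_num) (by norm_num) (by omega)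
  nlinarith

end Q196.PC
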